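import Mathlib

/-! # Tools for derivations: dual numbers, extension to fraction fields and to
algebraic extensions of purely transcendental extensions. -/

set_option autoImplicit false

namespace Pool.Agent.JB

open TrivSqZeroExt

/-- A derivation of a commutative ring (an additive map with the Leibniz rule). -/
structure Der (A : Type) [CommRing A] where
  f : A →+ A
  leib' : ∀ a b, f (a * b) = a * f b + b * f a

namespace Der

variable {A : Type} [CommRing A]

instance : FunLike (Der A) A A where
  coe D := D.f
  coe_injective := by
    intro D E h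
    cases D; cases E
    congr
    exact DFunLike.coe_injective h

instance : AddMonoidHomClass (Der A) A A where
  map_add D a b := D.f.map_add a b
  map_zero D := D.f.map_zero

@[simp] lemma coe_mk (g : A →+ A) (h) (a : A) : (Der.mk g h) a = g a := rfl

@[ext] lemma ext {D E : Der A} (h : ∀ a, D a = E a) : D = E := DFunLike.ext _ _ h

lemma mul (D : Der A) (a b : A) : D (a * b) = a * D b + b * D a := D.leib' a b

@[simp] lemma one (D : Der A) : D 1 = 0 := by
  have := D.mul 1 1
  simpa using this

instance : Add (Der A) where
  add D E := ⟨D.f + E.f, by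
    intro a b
    simp only [AddMonoidHom.add_apply, D.leib', E.leib']
    ring⟩

@[simp] lemma add_apply (D E : Der A) (a : A) : (D + E) a = D a + E a := rfl

instance : SMul A (Der A) where
  smul c D := ⟨(AddMonoidHom.mulLeft c).comp D.f, by
    intro a b
    simp only [AddMonoidHom.coe_comp, Function.comp_apply, AddMonoidHom.coe_mulLeft, D.leib']
    ring⟩

@[simp] lemma smul_apply (c : A) (D : Der A) (a : A) : (c • D) a = c * D a := rfl

lemma pow_zero_of (D : Der A) (a : A) (h : D a = 0) (n : ℕ) : D (a ^ n) = 0 := by
  induction n with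
  | zero => simp
  | succ n ih => rw [pow_succ, D.mul, ih, h]; simp

end Der

/-- the ring hom into the dual numbers attached to a ring hom and a map satisfying
the Leibniz rule -/
noncomputable def dualHom {A F : Type} [CommRing A] [CommRing F] (g : A →+* F) (D : A →+ F)
    (h : ∀ a b, D (a * b) = g a * D b + g b * D a) : A →+* TrivSqZeroExt F F where
  toFun a := inl (g a) + inr (D a)
  map_one' := by
    have h1 : D 1 = 0 := by
      have := h 1 1
      simp at this
      exact this
    simp [h1]
  map_zero' := by simp
  map_add' a b := by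
    ext <;> simp
  map_mul' a b := by
    ext
    · simp
    · simp [h, mul_comm]

@[simp] lemma dualHom_fst {A F : Type} [CommRing A] [CommRing F] (g : A →+* F) (D : A →+ F)
    (h : ∀ a b, D (a * b) = g a * D b + g b * D a) (a : A) : (dualHom g D h a).fst = g a := by
  simp [dualHom]

@[simp] lemma dualHom_snd {A F : Type} [CommRing A] [CommRing F] (g : A →+* F) (D : A →+ F)
    (h : ∀ a b, D (a * b) = g a * D b + g b * D a) (a : A) : (dualHom g D h a).snd = D a := by
  simp [dualHom]

/-- a derivation from a section of the dual numbers -/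
noncomputable def derOfDual {F : Type} [CommRing F] (φ : F →+* TrivSqZeroExt F F)
    (h : ∀ r, (φ r).fst = r) : Der F where
  f := { toFun := fun r => (φ r).snd
         map_zero' := by simp
         map_add' := by intro a b; simp }
  leib' := by
      intro a b
      simp [h, mul_comm]

@[simp] lemma derOfDual_apply {F : Type} [CommRing F] (φ : F →+* TrivSqZeroExt F F)
    (h : ∀ r, (φ r).fst = r) (r : F) : derOfDual φ h r = (φ r).snd := rfl

/-- extension of a derivation with values in a field `F` from a domain to its fraction field -/
theorem exists_add_frac {A L F : Type} [CommRing A] [IsDomain A] [Field L] [Field F] [Algebra A L]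
    [IsFractionRing A L] [Algebra L F] (D : A →+ F)
    (h : ∀ a b, D (a * b) = algebraMap L F (algebraMap A L a) * D b +
      algebraMap L F (algebraMap A L b) * D a) :
    ∃ E : L →+ F, (∀ a b, E (a * b) = algebraMap L F a * E b + algebraMap L F b * E a) ∧
      ∀ a, E (algebraMap A L a) = D a := by
  let φ := dualHom ((algebraMap L F).comp (algebraMap A L)) D h
  have hu : ∀ y : nonZeroDivisors A, IsUnit (φ y) := by
    intro y
    rw [isUnit_iff_isUnit_fst]
    simp only [φ, dualHom_fst]
    exact (IsLocalization.map_units L y).map (algebraMap L F)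
  let Φ : L →+* TrivSqZeroExt F F := IsLocalization.lift hu
  have hΦ : ∀ a, Φ (algebraMap A L a) = φ a := fun a => IsLocalization.lift_eq hu a
  have hfst : ∀ r, (Φ r).fst = algebraMap L F r := by
    intro r
    have : (((fstHom ℤ F F : TrivSqZeroExt F F →ₐ[ℤ] F) : TrivSqZeroExt F F →+* F).comp Φ) =
        algebraMap L F := by
      apply IsLocalization.ringHom_ext (nonZeroDivisors A)
      ext a
      simp [hΦ, φ]
    exact congrArg (fun f : L →+* F => f r) this
  refine ⟨{ toFun := fun r => (Φ r).snd, map_zero' := by simp, map_add' := by intro a b; simp },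
    fun a b => ?_, fun a => ?_⟩
  · simp [hfst, mul_comm]
  · simp [hΦ, φ]

/-- extension of a derivation to a fraction field -/
theorem exists_der_frac {A F : Type} [CommRing A] [IsDomain A] [Field F] [Algebra A F]
    [IsFractionRing A F] (D : A →+ F)
    (h : ∀ a b, D (a * b) = algebraMap A F a * D b + algebraMap A F b * D a) :
    ∃ E : Der F, ∀ a, E (algebraMap A F a) = D a := by
  obtain ⟨E, hE, hE'⟩ := exists_add_frac (A := A) (L := F) (F := F) D (by simpa using h)
  refine ⟨⟨E, ?_⟩, hE'⟩
  intro a b
  simpa using hE a b

/-- extension of a derivation to an algebraic extension in characteristic zero -/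
theorem exists_der_alg {L F : Type} [Field L] [Field F] [CharZero L] [Algebra L F]
    [Algebra.IsAlgebraic L F] (D : L →+ F)
    (h : ∀ a b, D (a * b) = algebraMap L F a * D b + algebraMap L F b * D a) :
    ∃ E : Der F, ∀ a, E (algebraMap L F a) = D a := by
  let φ := dualHom (algebraMap L F) D h
  let _ : Algebra L (TrivSqZeroExt F F) := φ.toAlgebra
  have hsep : Algebra.IsSeparable L F := inferInstance
  have het : Algebra.FormallyEtale L F := Algebra.FormallyEtale.of_isSeparable L F
  let g : TrivSqZeroExt F F →ₐ[L] F :=
    { ((fstHom ℤ F F : TrivSqZeroExt F F →ₐ[ℤ] F) : TrivSqZeroExt F F →+* F) with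
      commutes' := by
        intro r
        change (φ r).fst = _
        simp [φ] }
  have hgs : Function.Surjective g := fun x => ⟨inl x, by simp [g]⟩
  have hg0 : ∀ x, g x = x.fst := fun x => rfl
  have hker : IsNilpotent (RingHom.ker (g : TrivSqZeroExt F F →+* F)) := by
    refine ⟨2, ?_⟩
    rw [Ideal.zero_eq_bot, eq_bot_iff]
    rw [Submodule.pow_succ, Submodule.pow_one]
    refine Ideal.mul_le.2 ?_
    intro x hx y hy
    have hx' : x.fst = 0 := hx
    have hy' : y.fst = 0 := hy
    rw [Ideal.mem_bot]
    ext
    · simp [hx', hy']
    · simp [hx', hy']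
  let Φ : F →ₐ[L] TrivSqZeroExt F F :=
    Algebra.FormallySmooth.liftOfSurjective (AlgHom.id L F) g hgs hker
  let Φr : F →+* TrivSqZeroExt F F := Φ.toRingHom
  have hΦ : ∀ x, (Φr x).fst = x := fun x =>
    Algebra.FormallySmooth.liftOfSurjective_apply (AlgHom.id L F) g hgs hker x
  refine ⟨derOfDual Φr hΦ, fun a => ?_⟩
  have h1 : Φr (algebraMap L F a) = φ a := Φ.commutes a
  rw [derOfDual_apply, h1]
  exact dualHom_snd _ _ _ _

/-- extension of a derivation with prescribed values on a transcendence basis -/
theorem exists_der_trans {K F : Type} [Field K] [Field F] [CharZero F] [Algebra K F] {S : Type}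
    (x : S → F) (hx : IsTranscendenceBasis K x) (D : K →+ F)
    (h : ∀ a b, D (a * b) = algebraMap K F a * D b + algebraMap K F b * D a) (v : S → F) :
    ∃ E : Der F, (∀ c, E (algebraMap K F c) = D c) ∧ ∀ s, E (x s) = v s := by
  have hK0 : CharZero K := (algebraMap K F).charZero
  let φ := dualHom (algebraMap K F) D h
  let φ0 : MvPolynomial S K →+* TrivSqZeroExt F F :=
    MvPolynomial.eval₂Hom φ (fun s => inl (x s) + inr (v s))
  have hfst : ∀ p, (φ0 p).fst = MvPolynomial.aeval x p := by
    intro p
    have : (((fstHom ℤ F F : TrivSqZeroExt F F →ₐ[ℤ] F) : TrivSqZeroExt F F →+* F).comp φ0) =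
        (MvPolynomial.aeval x : MvPolynomial S K →ₐ[K] F) := by
      apply MvPolynomial.ringHom_ext
      · intro r; simp [φ0, φ]
      · intro i; simp [φ0]
    exact congrArg (fun f : MvPolynomial S K →+* F => f p) this
  have hinj : Function.Injective (MvPolynomial.aeval x : MvPolynomial S K →ₐ[K] F) := hx.1
  let L := FractionRing (MvPolynomial S K)
  let lift : L →ₐ[K] F := IsFractionRing.liftAlgHom (g := (MvPolynomial.aeval x)) hinj
  let _ : Algebra L F := lift.toRingHom.toAlgebra
  have hLF : ∀ p, algebraMap L F (algebraMap (MvPolynomial S K) L p) = MvPolynomial.aeval x p := by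
    intro p
    exact IsFractionRing.lift_algebraMap hinj p
  have htower : IsScalarTower K L F := IsScalarTower.of_algebraMap_eq (fun r => (lift.commutes r).symm)
  have hL0 : CharZero L := charZero_of_injective_algebraMap (algebraMap K L).injective
  have halg : Algebra.IsAlgebraic L F := by
    let e := hx.1.aevalEquiv
    have h1 : Algebra.IsAlgebraic (Algebra.adjoin K (Set.range x)) F := hx.isAlgebraic
    let _ : Algebra (Algebra.adjoin K (Set.range x)) L :=
      ((algebraMap (MvPolynomial S K) L).comp e.symm.toRingEquiv.toRingHom).toAlgebra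
    have h2 : IsScalarTower (Algebra.adjoin K (Set.range x)) L F := by
      refine IsScalarTower.of_algebraMap_eq (fun r => ?_)
      change (r : F) = algebraMap L F (algebraMap (MvPolynomial S K) L (e.symm r))
      rw [hLF]
      obtain ⟨q, rfl⟩ := e.surjective r
      simp [e]
    refine Algebra.IsAlgebraic.extendScalars (R := Algebra.adjoin K (Set.range x)) ?_
    change Function.Injective ((algebraMap (MvPolynomial S K) L) ∘ e.symm)
    exact (IsFractionRing.injective (MvPolynomial S K) L).comp e.symm.injective
  let D0 : MvPolynomial S K →+ F :=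
    { toFun := fun r => (φ0 r).snd, map_zero' := by simp, map_add' := by intro a b; simp }
  obtain ⟨E1, hE1, hE1'⟩ := exists_add_frac (A := MvPolynomial S K) (L := L) (F := F) D0 (by
    intro a b
    rw [hLF, hLF]
    simp [D0, hfst, mul_comm])
  obtain ⟨E, hE⟩ := exists_der_alg (L := L) (F := F) E1 hE1
  refine ⟨E, fun c => ?_, fun s => ?_⟩
  · have h1 : algebraMap K F c = algebraMap L F (algebraMap (MvPolynomial S K) L
        (MvPolynomial.C c)) := by
      rw [hLF]; simp
    rw [h1, hE, hE1']
    simp [D0, φ0, φ]
  · have h1 : x s = algebraMap L F (algebraMap (MvPolynomial S K) L (MvPolynomial.X s)) := by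
      rw [hLF]; simp
    rw [h1, hE, hE1']
    simp [D0, φ0]

end Pool.Agent.JB
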