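import Mathlib
import Pool.Agent.Work.MP_71fd89_ag.JBDer

/-! # Rings with several (non-commuting) derivations; solving one equation in one unknown -/

set_option autoImplicit false

namespace Pool.Agent.JB

open TrivSqZeroExt

/-- the action of a word in the derivations -/
def wd {A ι : Type} [CommRing A] (δ : ι → Der A) : List ι → A → A
  | [], x => x
  | (i :: w), x => δ i (wd δ w x)

section wdlemmas

variable {A B ι : Type} [CommRing A] [CommRing B] (δ : ι → Der A) (δ' : ι → Der B)

@[simp] lemma wd_nil (x : A) : wd δ [] x = x := rfl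

@[simp] lemma wd_cons (i : ι) (w : List ι) (x : A) : wd δ (i :: w) x = δ i (wd δ w x) := rfl

lemma wd_add (w : List ι) (x y : A) :
    wd δ w (x + y) = wd δ w x + wd δ w y := by
  induction w with
  | nil => rfl
  | cons i w ih => simp [ih]

lemma wd_zero (w : List ι) : wd δ w (0 : A) = 0 := by
  induction w with
  | nil => rfl
  | cons i w ih => simp [ih]

lemma wd_mul_const (w : List ι) (c x : A)
    (hc : ∀ i, δ i c = 0) : wd δ w (c * x) = c * wd δ w x := by
  induction w with
  | nil => rfl
  | cons i w ih => simp [ih, (δ i).mul, hc]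

lemma wd_map (f : A →+* B) (hf : ∀ i x, δ' i (f x) = f (δ i x)) (w : List ι)
    (x : A) : wd δ' w (f x) = f (wd δ w x) := by
  induction w with
  | nil => rfl
  | cons i w ih => simp [ih, hf]

end wdlemmas

/-- a derivation followed by a ring hom -/
def cD {B R : Type} [CommRing B] [CommRing R] (g : B →+* R) (d : Der B) : B →+ R where
  toFun b := g (d b)
  map_zero' := by simp
  map_add' := by intro a b; simp

@[simp] lemma cD_apply {B R : Type} [CommRing B] [CommRing R] (g : B →+* R)
    (d : Der B) (b : B) : cD g d b = g (d b) := rfl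

lemma cD_leib {B R : Type} [CommRing B] [CommRing R] (g : B →+* R) (d : Der B)
    (a b : B) : cD g d (a * b) = g a * cD g d b + g b * cD g d a := by
  simp [d.mul]

/-- the section of the dual numbers defining `mvDer` -/
noncomputable def mvHom {V B : Type} [CommRing B] (d : Der B)
    (g : V → MvPolynomial V B) :
    MvPolynomial V B →+* TrivSqZeroExt (MvPolynomial V B) (MvPolynomial V B) :=
  MvPolynomial.eval₂Hom (dualHom (MvPolynomial.C : B →+* MvPolynomial V B)
    (cD MvPolynomial.C d) (cD_leib _ _)) (fun v => inl (MvPolynomial.X v) + inr (g v))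

lemma mvHom_fst {V B : Type} [CommRing B] (d : Der B)
    (g : V → MvPolynomial V B) (r : MvPolynomial V B) : (mvHom d g r).fst = r := by
  have : (((fstHom ℤ (MvPolynomial V B) (MvPolynomial V B) :
      TrivSqZeroExt (MvPolynomial V B) (MvPolynomial V B) →ₐ[ℤ] (MvPolynomial V B)) :
      TrivSqZeroExt (MvPolynomial V B) (MvPolynomial V B) →+* (MvPolynomial V B)).comp
        (mvHom d g)) = RingHom.id _ := by
    apply MvPolynomial.ringHom_ext
    · intro r; simp [mvHom]
    · intro i; simp [mvHom]
  exact congrArg (fun f : MvPolynomial V B →+* MvPolynomial V B => f r) this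

/-- the derivation of `MvPolynomial V B` extending `d` with prescribed values on variables -/
noncomputable def mvDer {V B : Type} [CommRing B] (d : Der B)
    (g : V → MvPolynomial V B) : Der (MvPolynomial V B) :=
  derOfDual (mvHom d g) (mvHom_fst d g)

@[simp] lemma mvDer_C {V B : Type} [CommRing B] (d : Der B)
    (g : V → MvPolynomial V B) (b : B) :
    mvDer d g (MvPolynomial.C b) = MvPolynomial.C (d b) := by
  rw [mvDer, derOfDual_apply]
  simp [mvHom]

@[simp] lemma mvDer_X {V B : Type} [CommRing B] (d : Der B)
    (g : V → MvPolynomial V B) (v : V) :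
    mvDer d g (MvPolynomial.X v) = g v := by
  rw [mvDer, derOfDual_apply]
  simp [mvHom]

/-- the section of the dual numbers defining `polyDer` -/
noncomputable def polyHom {B : Type} [CommRing B] (d : Der B) :
    Polynomial B →+* TrivSqZeroExt (Polynomial B) (Polynomial B) :=
  Polynomial.eval₂RingHom (dualHom (Polynomial.C : B →+* Polynomial B)
    (cD Polynomial.C d) (cD_leib _ _)) (inl Polynomial.X)

lemma polyHom_fst {B : Type} [CommRing B] (d : Der B) (r : Polynomial B) :
    (polyHom d r).fst = r := by
  have : (((fstHom ℤ (Polynomial B) (Polynomial B) :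
      TrivSqZeroExt (Polynomial B) (Polynomial B) →ₐ[ℤ] (Polynomial B)) :
      TrivSqZeroExt (Polynomial B) (Polynomial B) →+* (Polynomial B)).comp (polyHom d)) =
      RingHom.id _ := by
    apply Polynomial.ringHom_ext
    · intro r; simp [polyHom]
    · simp [polyHom]
  exact congrArg (fun f : Polynomial B →+* Polynomial B => f r) this

/-- coefficientwise derivation of a polynomial ring -/
noncomputable def polyDer {B : Type} [CommRing B] (d : Der B) : Der (Polynomial B) :=
  derOfDual (polyHom d) (polyHom_fst d)

@[simp] lemma polyDer_C {B : Type} [CommRing B] (d : Der B) (b : B) :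
    polyDer d (Polynomial.C b) = Polynomial.C (d b) := by
  rw [polyDer, derOfDual_apply]
  simp [polyHom]

@[simp] lemma polyDer_X {B : Type} [CommRing B] (d : Der B) :
    polyDer d (Polynomial.X) = 0 := by
  rw [polyDer, derOfDual_apply]
  simp [polyHom]

/-- a ring hom intertwines derivations as soon as it does so on generators -/
lemma intertwine {V B A : Type} [CommRing B] [CommRing A]
    (ev : MvPolynomial V B →+* A) (δ : Der (MvPolynomial V B))
    (δ' : Der A) (hC : ∀ b, ev (δ (MvPolynomial.C b)) = δ' (ev (MvPolynomial.C b)))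
    (hX : ∀ v, ev (δ (MvPolynomial.X v)) = δ' (ev (MvPolynomial.X v))) (p : MvPolynomial V B) :
    ev (δ p) = δ' (ev p) := by
  induction p using MvPolynomial.induction_on with
  | C a => exact hC a
  | add p q hp hq => simp [hp, hq]
  | mul_X p v hp => simp [hp, hX, δ.mul, δ'.mul]

lemma intertwine_poly {B A : Type} [CommRing B] [CommRing A]
    (ev : Polynomial B →+* A) (δ : Der (Polynomial B))
    (δ' : Der A) (hC : ∀ b, ev (δ (Polynomial.C b)) = δ' (ev (Polynomial.C b)))
    (hX : ev (δ (Polynomial.X)) = δ' (ev (Polynomial.X))) (p : Polynomial B) :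
    ev (δ p) = δ' (ev p) := by
  induction p using Polynomial.induction_on with
  | C a => exact hC a
  | add p q hp hq => simp [hp, hq]
  | monomial n a hp =>
    rw [pow_succ, ← mul_assoc, δ.mul, ev.map_add, ev.map_mul Polynomial.X, hp,
      ev.map_mul _ (δ Polynomial.X), hX, ev.map_mul _ Polynomial.X, δ'.mul]

/-- One equation in one unknown over a field with several derivations (no commutation
relations) has a solution in an extension of the same kind. -/
theorem solve {E ι : Type} [Field E] [CharZero E] (δ : ι → Der E)
    (Ψ : MvPolynomial (List ι) E) (hΨ : Ψ.vars.Nonempty) :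
    ∃ (E' : Type) (_ : Field E') (_ : CharZero E') (δ' : ι → Der E') (f : E →+* E') (ω : E'),
      (∀ i x, δ' i (f x) = f (δ i x)) ∧
      Ψ.eval₂ f (fun w => wd δ' w ω) = 0 := by
  classical
  obtain ⟨β, hβ, hmax⟩ := Finset.exists_max_image Ψ.vars List.length hΨ
  let A := {w : List ι // ¬ β <:+ w}
  let RA := MvPolynomial A E
  let KA := FractionRing RA
  let F := AlgebraicClosure KA
  -- the polynomial as an image
  let j : Option A → List ι := fun o => Option.elim o β Subtype.val
  have hj : Function.Injective j := by
    intro a b hab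
    rcases a with _ | ⟨a, ha⟩ <;> rcases b with _ | ⟨b, hb⟩
    · rfl
    · exact absurd (show β <:+ b by simp [j] at hab; rw [hab]) hb
    · exact absurd (show β <:+ a by simp [j] at hab; rw [hab]) ha
    · simp [j] at hab; subst hab; rfl
  have hrange : (Ψ.vars : Set (List ι)) ⊆ Set.range j := by
    intro w hw
    by_cases h : β <:+ w
    · refine ⟨none, ?_⟩
      change β = w
      exact List.IsSuffix.eq_of_length_le h (hmax w hw)
    · exact ⟨some ⟨w, h⟩, rfl⟩
  obtain ⟨Ψ', hΨ'⟩ := MvPolynomial.exists_rename_eq_of_vars_subset_range Ψ j hj hrange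
  let ψ : Polynomial KA := (MvPolynomial.optionEquivLeft E A Ψ').map (algebraMap RA KA)
  have hdeg : ψ.degree ≠ 0 := by
    have h1 : ψ.natDegree = Ψ'.degreeOf none := by
      rw [Polynomial.natDegree_map_eq_of_injective (IsFractionRing.injective RA KA)]
      exact MvPolynomial.natDegree_optionEquivLeft (R := E) (σ := A) Ψ'
    have h2 : none ∈ Ψ'.vars := by
      have : β ∈ (MvPolynomial.rename j Ψ').vars := by rw [hΨ']; exact hβ
      obtain ⟨o, ho, hoβ⟩ := Finset.mem_image.1 (MvPolynomial.vars_rename j Ψ' this)
      have : o = none := hj hoβ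
      rw [← this]; exact ho
    have h3 : Ψ'.degreeOf none ≠ 0 := MvPolynomial.mem_vars_iff_degreeOf_ne_zero.1 h2
    intro h4
    exact h3 (by rw [← h1]; exact Polynomial.natDegree_eq_zero_iff_degree_le_zero.2 h4.le)
  obtain ⟨b, hb⟩ := IsAlgClosed.exists_aeval_eq_zero F ψ hdeg
  let x : A → F := fun a => algebraMap RA F (MvPolynomial.X a)
  have halg1 : Algebra.IsAlgebraic RA KA := IsLocalization.isAlgebraic _ (nonZeroDivisors RA)
  have halg2 : Algebra.IsAlgebraic KA F := inferInstance
  have halg3 : Algebra.IsAlgebraic RA F := Algebra.IsAlgebraic.trans RA KA F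
  have hfs : FaithfulSMul RA F := (faithfulSMul_iff_algebraMap_injective RA F).2 (by
    rw [IsScalarTower.algebraMap_eq RA KA F]
    exact (algebraMap KA F).injective.comp (IsFractionRing.injective RA KA))
  have hx : IsTranscendenceBasis E x :=
    (IsTranscendenceBasis.mvPolynomial A E).algebraMap_comp (A := F)
  let val : List ι → F := fun w => if h : β <:+ w then b else x ⟨w, h⟩
  have hder : ∀ i, ∃ D : Der F, (∀ c, D (algebraMap E F c) = algebraMap E F (δ i c)) ∧
      ∀ s, D (x s) = val (i :: s.1) := by
    intro i
    obtain ⟨D, h1, h2⟩ := exists_der_trans x hx (cD (algebraMap E F) (δ i)) (cD_leib _ _)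
      (fun s => val (i :: s.1))
    exact ⟨D, h1, h2⟩
  choose δ' hδ1 hδ2 using hder
  have hval : ∀ w, (¬ β <:+ w ∨ w = β) → wd δ' w (val []) = val w := by
    intro w
    induction w with
    | nil => intro _; rfl
    | cons i w ih =>
      intro hw
      have hw' : ¬ β <:+ w := by
        intro h
        rcases hw with hw | hw
        · exact hw (h.trans (List.suffix_cons i w))
        · have := h.length_le
          rw [← hw] at this
          simp at this
      rw [wd_cons, ih (Or.inl hw')]
      have : val w = x ⟨w, hw'⟩ := by simp [val, hw']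
      rw [this, hδ2]
  refine ⟨F, inferInstance, inferInstance, δ', algebraMap E F, val [], hδ1, ?_⟩
  rw [← hΨ', MvPolynomial.eval₂_rename]
  have hcomp : ((fun w => wd δ' w (val [])) ∘ j) = fun o => Option.elim o b x := by
    funext o
    rcases o with _ | ⟨a, ha⟩
    · change wd δ' β (val []) = b
      rw [hval β (Or.inr rfl)]
      simp [val]
    · change wd δ' a (val []) = x ⟨a, ha⟩
      rw [hval a (Or.inl ha)]
      simp [val, ha]
  rw [hcomp]
  have hhom : (MvPolynomial.eval₂Hom (algebraMap E F) (fun o => Option.elim o b x)) =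
      ((Polynomial.aeval b : Polynomial KA →ₐ[KA] F) : Polynomial KA →+* F).comp
      ((Polynomial.mapRingHom (algebraMap RA KA)).comp
        ((MvPolynomial.optionEquivLeft E A : _ ≃ₐ[E] _) : MvPolynomial (Option A) E →+*
          Polynomial RA)) := by
    apply MvPolynomial.ringHom_ext
    · intro r
      simp
      rfl
    · intro o
      rcases o with _ | a
      · simp
      · simp [x]
        rfl
  have := congrArg (fun g : MvPolynomial (Option A) E →+* F => g Ψ') hhom
  rw [MvPolynomial.coe_eval₂Hom] at this
  rw [this]
  exact hb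

end Pool.Agent.JB
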