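import Mathlib
import Pool.Agent.Work.MP_71fd89_ag.JBDer

/-! # Greedy transcendence bases of a sequence and dual derivations -/

set_option autoImplicit false

namespace Pool.Agent.JB

open Set Algebra

/-- an algebraic element is a simple zero of some polynomial -/
theorem sep_poly {R F : Type} [CommRing R] [IsDomain R] [Field F] [CharZero F] [Algebra R F]
    (hinj : Function.Injective (algebraMap R F)) (x : F) (h : IsAlgebraic R x) :
    ∃ p : Polynomial R, Polynomial.aeval x p = 0 ∧
      Polynomial.aeval x (Polynomial.derivative p) ≠ 0 := by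
  classical
  have hR : CharZero R := by
    refine ⟨fun a b hab => ?_⟩
    have : (algebraMap R F a) = algebraMap R F b := by rw [hab]
    simpa using this
  have hex : ∃ N, ∃ p : Polynomial R, p ≠ 0 ∧ Polynomial.aeval x p = 0 ∧ p.natDegree = N := by
    obtain ⟨p, hp, hp'⟩ := h
    exact ⟨_, p, hp, hp', rfl⟩
  obtain ⟨p, hp, hp', hN⟩ := Nat.find_spec hex
  refine ⟨p, hp', fun hd => ?_⟩
  have hdeg : p.natDegree ≠ 0 := by
    intro h0
    rw [Polynomial.eq_C_of_natDegree_eq_zero h0] at hp' hp
    simp only [Polynomial.aeval_C] at hp'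
    have : p.coeff 0 = 0 := hinj (by simpa using hp')
    exact hp (by rw [this]; simp)
  have hd0 : Polynomial.derivative p ≠ 0 := by
    intro h0
    exact hdeg (Polynomial.derivative_eq_zero.1 h0)
  have hlt : (Polynomial.derivative p).natDegree < Nat.find hex := by
    rw [← hN]
    exact Polynomial.natDegree_derivative_lt hdeg
  exact Nat.find_min hex hlt ⟨_, hd0, hd, rfl⟩

/-- a derivation which kills a subring kills the elements algebraic over it -/
theorem der_zero_of_alg {R F : Type} [CommRing R] [IsDomain R] [Field F] [CharZero F] [Algebra R F]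
    (hinj : Function.Injective (algebraMap R F)) (D : Der F)
    (hD : ∀ r : R, D (algebraMap R F r) = 0) (x : F) (h : IsAlgebraic R x) : D x = 0 := by
  obtain ⟨p, hp, hp'⟩ := sep_poly hinj x h
  have key : ∀ q : Polynomial R, D (Polynomial.aeval x q) =
      Polynomial.aeval x (Polynomial.derivative q) * D x := by
    intro q
    induction q using Polynomial.induction_on' with
    | add p q hp hq => simp [hp, hq, add_mul]
    | monomial n a =>
      rw [Polynomial.aeval_monomial, D.mul, hD, mul_zero, add_zero,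
        Polynomial.derivative_monomial, Polynomial.aeval_monomial]
      have hpow : ∀ n : ℕ, D (x ^ n) = n * x ^ (n - 1) * D x := by
        intro n
        induction n with
        | zero => simp
        | succ n ih =>
          rw [pow_succ, D.mul, ih]
          rcases n with _ | n
          · simp
          · simp only [Nat.add_sub_cancel]
            push_cast
            ring
      rw [hpow]
      simp only [map_mul, map_natCast]
      ring
  have h1 := key p
  rw [hp, map_zero] at h1
  rcases mul_eq_zero.1 h1.symm with h2 | h2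
  · exact absurd h2 hp'
  · exact h2

/-- the greedy transcendence basis of a sequence -/
theorem greedy {K F : Type} [Field K] [Field F] [Algebra K F] (y : ℕ → F)
    (halg : Algebra.IsAlgebraic (adjoin K (range y)) F)
    (hfin : Algebra.trdeg K F < Cardinal.aleph0) :
    ∃ S : Finset ℕ, IsTranscendenceBasis K (fun k : (S : Set ℕ) => y k) ∧
      (∀ m, IsAlgebraic (adjoin K (y '' {k | k ∈ S ∧ k ≤ m})) (y m)) := by
  classical
  let P : ℕ → Prop := fun k => Transcendental (adjoin K (y '' Set.Iio k)) (y k)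
  let S : Set ℕ := {k | P k}
  -- every element is algebraic over the earlier elements of `S`
  have hG : ∀ m, IsAlgebraic (adjoin K (y '' {k | k ∈ S ∧ k ≤ m})) (y m) := by
    intro m
    induction m using Nat.strong_induction_on with
    | _ m ih =>
    by_cases hm : m ∈ S
    · exact isAlgebraic_algebraMap (⟨y m, subset_adjoin ⟨m, ⟨hm, le_rfl⟩, rfl⟩⟩ :
        adjoin K (y '' {k | k ∈ S ∧ k ≤ m}))
    · have h1 : IsAlgebraic (adjoin K (y '' Set.Iio m)) (y m) := by
        by_contra h
        exact hm h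
      refine h1.adjoin_of_forall_isAlgebraic (fun x hx => ?_)
      obtain ⟨i, hi, rfl⟩ := hx.1
      have h2 := ih i hi
      refine h2.adjoin_of_forall_isAlgebraic (fun x' hx' => ?_)
      obtain ⟨j, hj, rfl⟩ := hx'.1
      exact isAlgebraic_algebraMap (⟨y j, subset_adjoin ⟨j, ⟨hj.1, hj.2.trans (le_of_lt hi)⟩, rfl⟩⟩ :
        adjoin K (y '' {k | k ∈ S ∧ k ≤ m}))
  -- independence
  have hI : ∀ m, AlgebraicIndepOn K y (S ∩ Set.Iio m) := by
    intro m
    induction m with
    | zero =>
      have : S ∩ Set.Iio 0 = ∅ := by ext k; simp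
      rw [this]
      exact (algebraicIndependent_empty_type_iff).2 (algebraMap K F).injective
    | succ m ih =>
      by_cases hm : m ∈ S
      · have h1 : S ∩ Set.Iio (m + 1) = insert m (S ∩ Set.Iio m) := by
          ext k
          simp only [Set.mem_inter_iff, Set.mem_Iio, Set.mem_insert_iff]
          constructor
          · rintro ⟨hk, hk'⟩
            rcases Nat.lt_succ_iff_lt_or_eq.1 hk' with h | h
            · exact Or.inr ⟨hk, h⟩
            · exact Or.inl h
          · rintro (h | ⟨hk, hk'⟩)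
            · rw [h]; exact ⟨hm, Nat.lt_succ_self m⟩
            · exact ⟨hk, Nat.lt_succ_of_lt hk'⟩
        rw [h1]
        refine ih.insert ?_
        intro halg'
        apply hm
        refine halg'.adjoin_of_forall_isAlgebraic (fun x hx => ?_)
        obtain ⟨i, hi, rfl⟩ := hx.1
        exact isAlgebraic_algebraMap (⟨y i, subset_adjoin ⟨i, hi.2, rfl⟩⟩ :
          adjoin K (y '' Set.Iio m))
      · have h1 : S ∩ Set.Iio (m + 1) = S ∩ Set.Iio m := by
          ext k
          simp only [Set.mem_inter_iff, Set.mem_Iio]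
          constructor
          · rintro ⟨hk, hk'⟩
            rcases Nat.lt_succ_iff_lt_or_eq.1 hk' with h | h
            · exact ⟨hk, h⟩
            · rw [h] at hk; exact absurd hk hm
          · rintro ⟨hk, hk'⟩
            exact ⟨hk, Nat.lt_succ_of_lt hk'⟩
        rw [h1]
        exact ih
  -- finiteness
  have hSfin : S.Finite := by
    by_contra hinf
    obtain ⟨N, hN⟩ := Cardinal.lt_aleph0.1 hfin
    obtain ⟨t, ht, htc⟩ := (show S.Infinite from hinf).exists_subset_card_eq (N + 1)
    obtain ⟨m, hm⟩ : ∃ m, ∀ k ∈ t, k < m := ⟨t.sup id + 1, fun k hk =>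
      Nat.lt_succ_of_le (Finset.le_sup (f := id) hk)⟩
    have h1 : AlgebraicIndepOn K y (t : Set ℕ) :=
      (hI m).mono (fun k hk => ⟨ht hk, hm k hk⟩)
    have h2 := AlgebraicIndependent.cardinalMk_le_trdeg h1
    rw [hN] at h2
    have h3 : Cardinal.mk (t : Set ℕ) = ((N + 1 : ℕ) : Cardinal) := by
      rw [← htc]; simp
    rw [h3] at h2
    have h4 : N + 1 ≤ N := by exact_mod_cast h2
    omega
  obtain ⟨m, hm⟩ : ∃ m, S ⊆ Set.Iio m := by
    obtain ⟨m, hm⟩ := hSfin.bddAbove
    exact ⟨m + 1, fun k hk => Nat.lt_succ_of_le (hm hk)⟩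
  have hI' : AlgebraicIndepOn K y S := by
    have := hI m
    rwa [Set.inter_eq_left.2 hm] at this
  refine ⟨hSfin.toFinset, ?_, ?_⟩
  · have hc : ((hSfin.toFinset : Finset ℕ) : Set ℕ) = S := hSfin.coe_toFinset
    rw [hc]
    refine (AlgebraicIndependent.isTranscendenceBasis_iff_isAlgebraic hI').2 ?_
    constructor
    intro a
    have h1 : IsAlgebraic (adjoin K (range y)) a := halg.isAlgebraic a
    refine h1.adjoin_of_forall_isAlgebraic (fun x hx => ?_)
    obtain ⟨i, rfl⟩ := hx.1
    refine (hG i).adjoin_of_forall_isAlgebraic (fun x' hx' => ?_)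
    obtain ⟨j, hj, rfl⟩ := hx'.1
    exact isAlgebraic_algebraMap (⟨y j, subset_adjoin ⟨⟨j, hj.1⟩, rfl⟩⟩ :
      adjoin K (range fun k : S => y k))
  · intro m
    have hset : {k | k ∈ hSfin.toFinset ∧ k ≤ m} = {k | k ∈ S ∧ k ≤ m} := by
      ext k; simp
    rw [hset]
    exact hG m

/-- dual derivations of the greedy basis -/
theorem exists_dual {K F : Type} [Field K] [Field F] [CharZero F] [Algebra K F] (y : ℕ → F)
    (S : Finset ℕ) (hS : IsTranscendenceBasis K (fun k : (S : Set ℕ) => y k))
    (hS' : ∀ m, IsAlgebraic (adjoin K (y '' {k | k ∈ S ∧ k ≤ m})) (y m)) (κ : ℕ) (hκ : κ ∈ S) :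
    ∃ Δ : Der F, (∀ c : K, Δ (algebraMap K F c) = 0) ∧ Δ (y κ) = 1 ∧
      (∀ k ∈ S, k ≠ κ → Δ (y k) = 0) ∧ (∀ m, m < κ → Δ (y m) = 0) := by
  classical
  obtain ⟨Δ, h1, h2⟩ := exists_der_trans (fun k : (S : Set ℕ) => y k) hS (0 : K →+ F)
    (by intro a b; simp) (fun k => if (k : ℕ) = κ then 1 else 0)
  have h3 : ∀ k ∈ S, k ≠ κ → Δ (y k) = 0 := by
    intro k hk hne
    have := h2 ⟨k, hk⟩
    simpa [hne] using this
  refine ⟨Δ, fun c => by simpa using h1 c, by simpa using h2 ⟨κ, hκ⟩, h3, fun m hm => ?_⟩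
  refine der_zero_of_alg (R := adjoin K (y '' {k | k ∈ S ∧ k ≤ m})) Subtype.val_injective Δ ?_ (y m)
    (hS' m)
  rintro ⟨r, hr⟩
  change Δ r = 0
  refine Algebra.adjoin_induction ?_ ?_ ?_ ?_ hr
  · rintro x ⟨k, hk, rfl⟩
    exact h3 k hk.1 (by have := hk.2; omega)
  · intro c
    simpa using h1 c
  · intro a b _ _ ha hb
    simp [ha, hb]
  · intro a b _ _ ha hb
    simp [Δ.mul, ha, hb]

end Pool.Agent.JB
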