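import Mathlib
import Pool.Agent.Work.MP_71fd89_ag.JBFree
import Pool.Agent.Work.MP_71fd89_ag.JBState

/-! # The contradiction from deformations of all orders -/

set_option autoImplicit false

namespace Pool.Agent.JB

lemma X_pow_dvd_iterate {E : Type} [Field E] (D : Der (Polynomial E)) (hD : D Polynomial.X = 0)
    (m k : ℕ) (p : Polynomial E) (h : Polynomial.X ^ m ∣ p) : Polynomial.X ^ m ∣ (D^[k]) p := by
  induction k with
  | zero => exact h
  | succ k ih =>
    rw [Function.iterate_succ_apply']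
    obtain ⟨c, hc⟩ := ih
    refine ⟨D c, ?_⟩
    rw [hc, D.mul, D.pow_zero_of _ hD]
    ring

theorem contra {K F : Type} [Field K] [Field F] [CharZero F] [Algebra K F] (n : ℕ) (y : ℕ → F)
    (D : Der (MvPolynomial ℕ K)) {I : Type} (u : I → MvPolynomial ℕ K) (S : Finset ℕ)
    (hS : IsTranscendenceBasis K (fun k : (S : Set ℕ) => y k)) (κ : ℕ)
    (hmin : ∀ G, MvPolynomial.aeval y G = 0 → ∃ h, MvPolynomial.aeval y h ≠ 0 ∧ ∃ N : ℕ,
      (h * G) ^ N ∈ Ideal.span {g : MvPolynomial ℕ K | ∃ (i : I) (k : ℕ), g = (D^[k]) (u i)})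
    (H : ∀ M : ℕ, ∃ (E : Type) (_ : Field E) (f : F →+* E) (DD : Der (Polynomial E)) (q : ℕ)
      (ρ : MvPolynomial ℕ K →+* Polynomial E), 0 < q ∧ DD Polynomial.X = 0 ∧
      (∀ p, ρ (D p) = DD (ρ p)) ∧
      (∀ c, ρ (MvPolynomial.C c) = Polynomial.C (f (algebraMap K F c))) ∧
      (∀ k ∈ S, ρ (MvPolynomial.X k) = Polynomial.C (f (y k))) ∧
      ρ (MvPolynomial.X (κ + n)) = Polynomial.C (f (y (κ + n))) + Polynomial.X ^ q ∧
      (∀ p, (ρ p).coeff 0 = f (MvPolynomial.aeval y p)) ∧
      (∀ i, Polynomial.X ^ (q * M) ∣ ρ (u i))) : False := by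
  classical
  -- a separable relation for `y (κ + n)` over the states
  let A0 := MvPolynomial (S : Set ℕ) K
  let _ : Algebra A0 F := (MvPolynomial.aeval (fun k : (S : Set ℕ) => y k)).toRingHom.toAlgebra
  have hmap : ∀ a : A0, algebraMap A0 F a = MvPolynomial.aeval (fun k : (S : Set ℕ) => y k) a :=
    fun a => rfl
  have hinj : Function.Injective (algebraMap A0 F) := hS.1
  have halg : IsAlgebraic A0 (y (κ + n)) := by
    have h1 : IsAlgebraic (Algebra.adjoin K (Set.range fun k : (S : Set ℕ) => y k)) (y (κ + n)) :=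
      hS.isAlgebraic.isAlgebraic _
    obtain ⟨p, hp, hp'⟩ := h1
    let e := hS.1.aevalEquiv
    refine ⟨p.map (e.symm : _ →+* A0), ?_, ?_⟩
    · intro h
      apply hp
      exact (Polynomial.map_eq_zero_iff (f := (e.symm : _ →+* A0)) e.symm.injective).1 h
    · rw [Polynomial.aeval_def, Polynomial.eval₂_map]
      rw [Polynomial.aeval_def] at hp'
      convert hp' using 2
      ext r
      change algebraMap A0 F (e.symm r) = (r : F)
      rw [hmap]
      obtain ⟨q, rfl⟩ := e.surjective r
      simp [e]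
  obtain ⟨p, hp, hp'⟩ := sep_poly hinj _ halg
  let j : A0 →+* MvPolynomial ℕ K := (MvPolynomial.rename (fun k : (S : Set ℕ) => (k : ℕ)) :
    A0 →ₐ[K] MvPolynomial ℕ K).toRingHom
  let G : MvPolynomial ℕ K := p.eval₂ j (MvPolynomial.X (κ + n))
  have hπj : ∀ a : A0, MvPolynomial.aeval y (j a) = algebraMap A0 F a := by
    intro a
    rw [hmap]
    change MvPolynomial.aeval y (MvPolynomial.rename _ a) = _
    rw [MvPolynomial.aeval_rename]
    rfl
  have hπG : MvPolynomial.aeval y G = 0 := by
    have h1 : (MvPolynomial.aeval y : MvPolynomial ℕ K →ₐ[K] F) G = p.eval₂ (((MvPolynomial.aeval y :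
        MvPolynomial ℕ K →ₐ[K] F) : MvPolynomial ℕ K →+* F).comp j)
        ((MvPolynomial.aeval y : MvPolynomial ℕ K →ₐ[K] F) (MvPolynomial.X (κ + n))) := by
      exact Polynomial.hom_eval₂ p j ((MvPolynomial.aeval y : MvPolynomial ℕ K →ₐ[K] F) :
        MvPolynomial ℕ K →+* F) (MvPolynomial.X (κ + n) : MvPolynomial ℕ K)
    rw [h1, MvPolynomial.aeval_X]
    have h2 : ((MvPolynomial.aeval y : MvPolynomial ℕ K →ₐ[K] F) :
        MvPolynomial ℕ K →+* F).comp j = algebraMap A0 F := RingHom.ext hπj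
    rw [h2]
    exact hp
  obtain ⟨h, hh, N, hN⟩ := hmin G hπG
  obtain ⟨E, _, f, DD, q, ρ, hq, hDX, hint, hC, hst, htop, hconst, hu⟩ := H (N + 1)
  -- everything in the ideal is divisible
  have hJ : ∀ g ∈ Ideal.span {g : MvPolynomial ℕ K | ∃ (i : I) (k : ℕ), g = (D^[k]) (u i)},
      Polynomial.X ^ (q * (N + 1)) ∣ ρ g := by
    intro g hg
    have hle : Ideal.span {g : MvPolynomial ℕ K | ∃ (i : I) (k : ℕ), g = (D^[k]) (u i)} ≤
        (Ideal.span {(Polynomial.X : Polynomial E) ^ (q * (N + 1))}).comap ρ := by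
      rw [Ideal.span_le]
      rintro g ⟨i, k, rfl⟩
      change ρ _ ∈ Ideal.span _
      rw [Ideal.mem_span_singleton]
      have h1 : ρ ((D^[k]) (u i)) = (DD^[k]) (ρ (u i)) := by
        clear hu hN
        induction k with
        | zero => rfl
        | succ k ih => rw [Function.iterate_succ_apply', Function.iterate_succ_apply', hint, ih]
      rw [h1]
      exact X_pow_dvd_iterate DD hDX _ k _ (hu i)
    have := hle hg
    rw [Ideal.mem_comap, Ideal.mem_span_singleton] at this
    exact this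
  have h1 := hJ _ hN
  rw [map_pow, map_mul] at h1
  -- the image of `G`
  obtain ⟨g, hg, hg0⟩ : ∃ g : Polynomial E, ρ G = Polynomial.X ^ q * g ∧ g.coeff 0 ≠ 0 := by
    have h2 : ρ G = (p.map ((Polynomial.C.comp f).comp (algebraMap A0 F))).eval
        (Polynomial.C (f (y (κ + n))) + Polynomial.X ^ q) := by
      have h3 : ρ G = p.eval₂ (ρ.comp j) (ρ (MvPolynomial.X (κ + n))) :=
        Polynomial.hom_eval₂ p j ρ (MvPolynomial.X (κ + n))
      rw [h3, htop, Polynomial.eval_map]
      congr 1
      apply MvPolynomial.ringHom_ext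
      · intro c
        simp only [RingHom.comp_apply]
        have : j (MvPolynomial.C c) = MvPolynomial.C c := by
          change MvPolynomial.rename _ (MvPolynomial.C c) = _
          simp
        rw [this, hC, hmap, MvPolynomial.aeval_C]
      · intro k
        simp only [RingHom.comp_apply]
        have : j (MvPolynomial.X k) = MvPolynomial.X (k : ℕ) := by
          change MvPolynomial.rename _ (MvPolynomial.X k) = _
          simp
        rw [this, hst _ k.2, hmap, MvPolynomial.aeval_X]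
    set P := p.map ((Polynomial.C.comp f).comp (algebraMap A0 F)) with hP
    obtain ⟨c, hc⟩ := P.binomExpansion (Polynomial.C (f (y (κ + n)))) (Polynomial.X ^ q)
    have e1 : ∀ r : Polynomial A0, (r.map ((Polynomial.C.comp f).comp (algebraMap A0 F))).eval
        (Polynomial.C (f (y (κ + n)))) = Polynomial.C (f (Polynomial.aeval (y (κ + n)) r)) := by
      intro r
      rw [Polynomial.eval_map, Polynomial.aeval_def]
      have := Polynomial.hom_eval₂ r (algebraMap A0 F) (Polynomial.C.comp f) (y (κ + n))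
      simp only [RingHom.comp_apply] at this
      rw [this]
    rw [e1 p, hp, map_zero, map_zero, zero_add, hP, Polynomial.derivative_map, e1] at hc
    refine ⟨Polynomial.C (f (Polynomial.aeval (y (κ + n)) (Polynomial.derivative p))) +
      c * Polynomial.X ^ q, ?_, ?_⟩
    · rw [h2, hP, hc]; ring
    · rw [Polynomial.coeff_add, Polynomial.coeff_C_zero, Polynomial.coeff_mul_X_pow']
      rw [if_neg (by omega), add_zero]
      intro h0
      exact hp' ((map_eq_zero f).1 h0)
  rw [hg] at h1
  have h4 : (ρ h * (Polynomial.X ^ q * g)) ^ N = Polynomial.X ^ (q * N) * (ρ h * g) ^ N := by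
    rw [pow_mul]; ring
  rw [h4] at h1
  have h5 : Polynomial.X ^ (q * N) * Polynomial.X ∣
      (Polynomial.X : Polynomial E) ^ (q * N) * (ρ h * g) ^ N := by
    rw [← pow_succ]
    refine (pow_dvd_pow _ ?_).trans h1
    rw [mul_add, mul_one]
    omega
  have h6 : (Polynomial.X : Polynomial E) ∣ (ρ h * g) ^ N :=
    (mul_dvd_mul_iff_left (pow_ne_zero _ Polynomial.X_ne_zero)).1 h5
  have h7 := Polynomial.prime_X.dvd_of_dvd_pow h6
  rw [Polynomial.X_dvd_iff, Polynomial.mul_coeff_zero, hconst] at h7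
  rcases mul_eq_zero.1 h7 with h8 | h8
  · exact hh ((map_eq_zero f).1 h8)
  · exact hg0 h8

end Pool.Agent.JB
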