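import Mathlib
import Pool.Agent.Work.MP_71fd89_ag.JBFree

/-! # Newton polygon for one equation in one unknown over `E[σ]`, `E` a field with several
derivations. -/

set_option autoImplicit false

namespace Pool.Agent.JB

/-- reduction modulo `σ` -/
noncomputable def red {V E : Type} [Field E] :
    MvPolynomial V (Polynomial E) →+* MvPolynomial V E :=
  MvPolynomial.map Polynomial.constantCoeff

lemma coeff_red {V E : Type} [Field E] (Φ : MvPolynomial V (Polynomial E)) (s : V →₀ ℕ) :
    MvPolynomial.coeff s (red Φ) = (MvPolynomial.coeff s Φ).coeff 0 := by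
  simp [red, MvPolynomial.coeff_map]

/-- the substitution `σ ↦ σ ^ q`, `y ↦ σ ^ μ y` -/
noncomputable def sc {V E : Type} [Field E] (q μ : ℕ) :
    MvPolynomial V (Polynomial E) →+* MvPolynomial V (Polynomial E) :=
  MvPolynomial.eval₂Hom (MvPolynomial.C.comp (Polynomial.expand E q).toRingHom)
    (fun w => MvPolynomial.C (Polynomial.X ^ μ) * MvPolynomial.X w)

lemma sc_monomial {V E : Type} [Field E] (q μ : ℕ) (s : V →₀ ℕ) (c : Polynomial E) :
    sc q μ (MvPolynomial.monomial s c) =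
      MvPolynomial.monomial s (Polynomial.X ^ (μ * s.degree) * Polynomial.expand E q c) := by
  classical
  rw [sc, MvPolynomial.coe_eval₂Hom, MvPolynomial.eval₂_monomial]
  rw [MvPolynomial.monomial_eq (s := s) (a := Polynomial.X ^ (μ * s.degree) *
    Polynomial.expand E q c)]
  simp only [Finsupp.prod, mul_pow, Finset.prod_mul_distrib]
  rw [Finset.prod_pow_eq_pow_sum, ← Finsupp.degree_apply, map_mul, ← map_pow, ← pow_mul]
  simp only [RingHom.comp_apply, AlgHom.toRingHom_eq_coe, RingHom.coe_coe]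
  ring

lemma coeff_sc {V E : Type} [Field E] (q μ : ℕ) (Φ : MvPolynomial V (Polynomial E))
    (s : V →₀ ℕ) : MvPolynomial.coeff s (sc q μ Φ) =
      Polynomial.X ^ (μ * s.degree) * Polynomial.expand E q (MvPolynomial.coeff s Φ) := by
  classical
  induction Φ using MvPolynomial.induction_on' with
  | monomial t c =>
    rw [sc_monomial, MvPolynomial.coeff_monomial, MvPolynomial.coeff_monomial]
    by_cases h : t = s
    · simp [h]
    · simp [h]
  | add p q hp hq =>
    rw [map_add, MvPolynomial.coeff_add, hp, hq, MvPolynomial.coeff_add, map_add, mul_add]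

lemma X_pow_dvd_expand {E : Type} [Field E] (q m : ℕ) (c : Polynomial E)
    (h : Polynomial.X ^ m ∣ c) : Polynomial.X ^ (q * m) ∣ Polynomial.expand E q c := by
  obtain ⟨d, rfl⟩ := h
  refine ⟨Polynomial.expand E q d, ?_⟩
  rw [map_mul, map_pow, Polynomial.expand_X, ← pow_mul]

lemma X_pow_dvd_of_le_natTrailingDegree {E : Type} [Field E] (m : ℕ) (c : Polynomial E)
    (h : m ≤ c.natTrailingDegree) : Polynomial.X ^ m ∣ c := by
  rw [Polynomial.X_pow_dvd_iff]
  intro d hd
  exact Polynomial.coeff_eq_zero_of_lt_natTrailingDegree (lt_of_lt_of_le hd h)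

/-- one step of the Newton polygon: the best slope -/
theorem newton_scale {V E : Type} [Field E] (Φ : MvPolynomial V (Polynomial E))
    (k M : ℕ) (h0 : (MvPolynomial.coeff 0 Φ).coeff 0 = 0)
    (hM : ¬ Polynomial.X ^ M ∣ MvPolynomial.coeff 0 Φ)
    (hk : ∃ m, MvPolynomial.coeff m (red Φ) ≠ 0 ∧ m ≠ 0 ∧ m.degree ≤ k) :
    ∃ (m0 q μ : ℕ) (Ψ : MvPolynomial V (Polynomial E)), 0 < m0 ∧ m0 < M ∧ 0 < q ∧ 0 < μ ∧
      MvPolynomial.C (Polynomial.X ^ (q * m0)) * Ψ = sc q μ Φ ∧
      MvPolynomial.coeff 0 (red Ψ) ≠ 0 ∧ (∃ m, m ≠ 0 ∧ MvPolynomial.coeff m (red Ψ) ≠ 0) ∧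
      (∀ m, MvPolynomial.coeff m (red Ψ) ≠ 0 → m.degree ≤ k) ∧
      (q = 1 ∨ ∀ m : V →₀ ℕ, m.degree = 1 → MvPolynomial.coeff m (red Ψ) = 0) := by
  classical
  set c0 := MvPolynomial.coeff 0 Φ with hc0
  have hc0ne : c0 ≠ 0 := by
    intro h
    apply hM
    rw [h]
    exact dvd_zero _
  set m0 := c0.natTrailingDegree with hm0
  have hm0M : m0 < M := by
    by_contra hcon
    exact hM (X_pow_dvd_of_le_natTrailingDegree M c0 (not_lt.1 hcon))
  have hm0c : c0.coeff m0 ≠ 0 := by
    have := Polynomial.trailingCoeff_nonzero_iff_nonzero.2 hc0ne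
    exact this
  have hm0pos : 0 < m0 := by
    rcases Nat.eq_zero_or_pos m0 with h | h
    · rw [h] at hm0c
      exact absurd h0 hm0c
    · exact h
  obtain ⟨s1, hs1, hs1ne, hs1k⟩ := hk
  rw [coeff_red] at hs1
  let ν : (V →₀ ℕ) → ℕ := fun s => (MvPolynomial.coeff s Φ).natTrailingDegree
  have hν1 : ν s1 = 0 := by
    by_contra h
    exact hs1 (Polynomial.coeff_eq_zero_of_lt_natTrailingDegree (Nat.pos_of_ne_zero h))
  have hdegpos : ∀ s : V →₀ ℕ, s ≠ 0 → 0 < s.degree := by
    intro s hs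
    rcases Nat.eq_zero_or_pos s.degree with h | h
    · exact absurd ((Finsupp.degree_eq_zero_iff s).1 h) hs
    · exact h
  let T := Φ.support.erase 0
  have hs1T : s1 ∈ T := by
    refine Finset.mem_erase.2 ⟨hs1ne, ?_⟩
    rw [MvPolynomial.mem_support_iff]
    intro h
    rw [h] at hs1
    exact hs1 (by simp)
  obtain ⟨t, htT, htmax⟩ := Finset.exists_max_image T
    (fun s => ((m0 : ℚ) - ν s) / s.degree) ⟨s1, hs1T⟩
  have htne : t ≠ 0 := (Finset.mem_erase.1 htT).1
  have htsupp : MvPolynomial.coeff t Φ ≠ 0 :=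
    MvPolynomial.mem_support_iff.1 (Finset.mem_erase.1 htT).2
  set a := t.degree with ha
  have hapos : 0 < a := hdegpos t htne
  have haQ : (0 : ℚ) < a := by exact_mod_cast hapos
  have hcross : ∀ s, s ≠ 0 → MvPolynomial.coeff s Φ ≠ 0 →
      ((m0 : ℚ) - ν s) * a ≤ ((m0 : ℚ) - ν t) * s.degree := by
    intro s hs hs'
    have h1 := htmax s (Finset.mem_erase.2 ⟨hs, MvPolynomial.mem_support_iff.2 hs'⟩)
    have h2 : (0 : ℚ) < s.degree := by exact_mod_cast hdegpos s hs
    have h1' : ((m0 : ℚ) - ν s) / s.degree ≤ ((m0 : ℚ) - ν t) / a := h1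
    rwa [div_le_div_iff₀ h2 haQ] at h1'
  have hs1supp : MvPolynomial.coeff s1 Φ ≠ 0 :=
    MvPolynomial.mem_support_iff.1 (Finset.mem_erase.1 hs1T).2
  have hνt : ν t < m0 := by
    have h1 := hcross s1 hs1ne hs1supp
    rw [hν1] at h1
    have h2 : (0 : ℚ) < s1.degree := by exact_mod_cast hdegpos s1 hs1ne
    have h3 : (0 : ℚ) < (m0 : ℚ) := by exact_mod_cast hm0pos
    have h4 : (0 : ℚ) < ((m0 : ℚ) - ν t) * s1.degree :=
      lt_of_lt_of_le (by simpa using mul_pos h3 haQ) h1
    have h5 : (0 : ℚ) < (m0 : ℚ) - ν t := by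
      by_contra hcon
      have := mul_nonpos_of_nonpos_of_nonneg (not_lt.1 hcon) h2.le
      linarith
    have h6 : (ν t : ℚ) < m0 := by linarith
    exact_mod_cast h6
  obtain ⟨p, hp⟩ : ∃ p, m0 = ν t + p := ⟨m0 - ν t, by omega⟩
  have hppos : 0 < p := by omega
  -- the maximality in natural numbers
  have hmx : ∀ s, s ≠ 0 → MvPolynomial.coeff s Φ ≠ 0 → m0 * a ≤ p * s.degree + ν s * a := by
    intro s hs hs'
    have h1 := hcross s hs hs'
    have h2 : ((m0 : ℚ) - ν t) = p := by
      rw [hp]; push_cast; ring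
    rw [h2] at h1
    have h3 : (m0 : ℚ) * a ≤ p * s.degree + ν s * a := by linarith
    exact_mod_cast h3
  have hak : a ≤ k := by
    have h1 := hmx s1 hs1ne hs1supp
    rw [hν1] at h1
    have h2 : m0 * a ≤ m0 * k := by
      calc m0 * a ≤ p * s1.degree + 0 * a := h1
        _ = p * s1.degree := by ring
        _ ≤ m0 * k := Nat.mul_le_mul (by omega) hs1k
    exact Nat.le_of_mul_le_mul_left h2 hm0pos
  have hbig : ∀ s : V →₀ ℕ, k < s.degree → m0 * a < p * s.degree := by
    intro s hs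
    have h1 := hmx s1 hs1ne hs1supp
    rw [hν1] at h1
    calc m0 * a ≤ p * s1.degree + 0 * a := h1
      _ = p * s1.degree := by ring
      _ ≤ p * k := Nat.mul_le_mul_left _ hs1k
      _ < p * s.degree := Nat.mul_lt_mul_of_pos_left hs hppos
  -- choose the ramification
  obtain ⟨q, μ, hq, hμ, haμ, hqa⟩ : ∃ q μ : ℕ, 0 < q ∧ 0 < μ ∧ a * μ = q * p ∧
      (q = 1 ∨ (q ∣ μ → False)) := by
    by_cases hdvd : a ∣ p
    · obtain ⟨μ, hμ⟩ := hdvd
      refine ⟨1, μ, one_pos, ?_, by omega, Or.inl rfl⟩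
      rcases Nat.eq_zero_or_pos μ with h | h
      · rw [h] at hμ; omega
      · exact h
    · exact ⟨a, p, hapos, hppos, rfl, Or.inr hdvd⟩
  -- divisibility
  have hdiv : ∀ s, Polynomial.X ^ (q * m0) ∣ MvPolynomial.coeff s (sc q μ Φ) := by
    intro s
    rw [coeff_sc]
    by_cases hs : s = 0
    · rw [hs]
      refine Dvd.dvd.mul_left ?_ _
      exact X_pow_dvd_expand q m0 _ (X_pow_dvd_of_le_natTrailingDegree m0 c0 le_rfl)
    · by_cases hs' : MvPolynomial.coeff s Φ = 0
      · rw [hs']; simp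
      · have h1 : Polynomial.X ^ (q * ν s) ∣ Polynomial.expand E q (MvPolynomial.coeff s Φ) :=
          X_pow_dvd_expand q (ν s) _ (X_pow_dvd_of_le_natTrailingDegree _ _ le_rfl)
        have h2 : q * m0 ≤ μ * s.degree + q * ν s := by
          have h3 := hmx s hs hs'
          have h4 : a * (q * m0) ≤ a * (μ * s.degree + q * ν s) := by
            calc a * (q * m0) = q * (m0 * a) := by ring
              _ ≤ q * (p * s.degree + ν s * a) := Nat.mul_le_mul_left _ h3
              _ = (q * p) * s.degree + a * (q * ν s) := by ring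
              _ = (a * μ) * s.degree + a * (q * ν s) := by rw [haμ]
              _ = a * (μ * s.degree + q * ν s) := by ring
          exact Nat.le_of_mul_le_mul_left h4 hapos
        refine (pow_dvd_pow _ h2).trans ?_
        rw [pow_add]
        exact mul_dvd_mul_left _ h1
  obtain ⟨Ψ, hΨ⟩ := (MvPolynomial.C_dvd_iff_dvd_coeff _ _).2 hdiv
  have hcoef : ∀ s, Polynomial.X ^ (q * m0) * MvPolynomial.coeff s Ψ =
      Polynomial.X ^ (μ * s.degree) * Polynomial.expand E q (MvPolynomial.coeff s Φ) := by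
    intro s
    rw [← coeff_sc, hΨ, MvPolynomial.coeff_C_mul]
  have hcoef0 : ∀ s, (MvPolynomial.coeff s Ψ).coeff 0 =
      (Polynomial.X ^ (μ * s.degree) * Polynomial.expand E q (MvPolynomial.coeff s Φ)).coeff
        (q * m0) := by
    intro s
    rw [← hcoef]
    have := Polynomial.coeff_X_pow_mul (MvPolynomial.coeff s Ψ) (q * m0) 0
    rw [← this, zero_add]
  refine ⟨m0, q, μ, Ψ, hm0pos, hm0M, hq, hμ, hΨ.symm, ?_, ?_, ?_, ?_⟩
  · rw [coeff_red, hcoef0]
    simp only [map_zero, mul_zero, pow_zero, one_mul]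
    rw [mul_comm q m0, Polynomial.coeff_expand_mul hq]
    exact hm0c
  · refine ⟨t, htne, ?_⟩
    rw [coeff_red, hcoef0]
    have h1 : q * m0 = q * ν t + μ * t.degree := by
      rw [hp, mul_add, ← haμ, ← ha]; ring
    rw [h1, Polynomial.coeff_X_pow_mul, mul_comm q, Polynomial.coeff_expand_mul hq]
    exact Polynomial.trailingCoeff_nonzero_iff_nonzero.2 htsupp
  · intro s hs
    by_contra hcon
    apply hs
    rw [coeff_red, hcoef0, Polynomial.coeff_X_pow_mul']
    have h1 := hbig s (not_le.1 hcon)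
    have h2 : ¬ μ * s.degree ≤ q * m0 := by
      intro h3
      have h4 : a * (μ * s.degree) ≤ a * (q * m0) := Nat.mul_le_mul_left _ h3
      have h5 : a * (μ * s.degree) = q * (p * s.degree) := by
        rw [← mul_assoc, haμ]; ring
      have h6 : a * (q * m0) = q * (m0 * a) := by ring
      rw [h5, h6] at h4
      have := Nat.le_of_mul_le_mul_left h4 hq
      omega
    rw [if_neg h2]
  · rcases hqa with h | h
    · exact Or.inl h
    · right
      intro s hs
      rw [coeff_red, hcoef0, Polynomial.coeff_X_pow_mul', hs, mul_one]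
      split_ifs with h2
      · rw [Polynomial.coeff_expand hq]
        split_ifs with h3
        · exfalso
          apply h
          have h4 : q ∣ q * m0 - (q * m0 - μ) := Nat.dvd_sub (Dvd.intro _ rfl) h3
          have h5 : q * m0 - (q * m0 - μ) = μ := by omega
          rwa [h5] at h4
        · rfl
      · rfl

end Pool.Agent.JB
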