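import Mathlib
import Pool.Agent.Work.MP_71fd89_ag.JBNewton

/-! # Translation of a polynomial to one of its zeros -/

set_option autoImplicit false

namespace Pool.Agent.JB

/-- translation -/
noncomputable def shift {V E E1 : Type} [Field E] [Field E1] (f : E →+* E1) (x : V → E1) :
    MvPolynomial V E →+* MvPolynomial V E1 :=
  MvPolynomial.eval₂Hom (MvPolynomial.C.comp f) (fun w => MvPolynomial.X w + MvPolynomial.C (x w))

lemma coeff_zero_shift {V E E1 : Type} [Field E] [Field E1] (f : E →+* E1) (x : V → E1)
    (p : MvPolynomial V E) : MvPolynomial.coeff 0 (shift f x p) = p.eval₂ f x := by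
  have h : (MvPolynomial.constantCoeff : MvPolynomial V E1 →+* E1).comp (shift f x) =
      MvPolynomial.eval₂Hom f x := by
    apply MvPolynomial.ringHom_ext
    · intro r; simp [shift]
    · intro i; simp [shift]
  have h2 := congrArg (fun g : MvPolynomial V E →+* E1 => g p) h
  simpa [MvPolynomial.constantCoeff_eq] using h2

lemma shift_ne_zero {V E E1 : Type} [Field E] [Field E1] (f : E →+* E1) (x : V → E1)
    (p : MvPolynomial V E) (hp : MvPolynomial.coeff 0 p ≠ 0) : shift f x p ≠ 0 := by
  intro h0
  have h : (MvPolynomial.eval₂Hom (RingHom.id E1) (fun w => - x w)).comp (shift f x) =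
      f.comp MvPolynomial.constantCoeff := by
    apply MvPolynomial.ringHom_ext
    · intro r; simp [shift]
    · intro i; simp [shift]
  have h2 := congrArg (fun g : MvPolynomial V E →+* E1 => g p) h
  simp only [RingHom.comp_apply, h0, map_zero, MvPolynomial.constantCoeff_eq] at h2
  exact hp ((map_eq_zero f).1 h2.symm)

lemma shift_degree {V E E1 : Type} [Field E] [Field E1] (f : E →+* E1) (x : V → E1)
    (p : MvPolynomial V E) (K : ℕ) (hp : ∀ m, MvPolynomial.coeff m p ≠ 0 → m.degree ≤ K) :
    (shift f x p).totalDegree ≤ K := by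
  classical
  rw [shift, MvPolynomial.coe_eval₂Hom, MvPolynomial.eval₂_eq]
  refine (MvPolynomial.totalDegree_finsetSum _ _).trans ?_
  refine Finset.sup_le (fun s hs => ?_)
  refine (MvPolynomial.totalDegree_mul _ _).trans ?_
  rw [RingHom.comp_apply, MvPolynomial.totalDegree_C, zero_add]
  refine (MvPolynomial.totalDegree_finsetProd _ _).trans ?_
  refine le_trans ?_ (hp s (MvPolynomial.mem_support_iff.1 hs))
  rw [Finsupp.degree_apply]
  refine Finset.sum_le_sum (fun w _ => ?_)
  refine (MvPolynomial.totalDegree_pow _ _).trans ?_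
  have h1 : (MvPolynomial.X w + MvPolynomial.C (x w) : MvPolynomial V E1).totalDegree ≤ 1 := by
    refine (MvPolynomial.totalDegree_add _ _).trans ?_
    rw [MvPolynomial.totalDegree_C]
    simp
  calc s w * _ ≤ s w * 1 := Nat.mul_le_mul_left _ h1
    _ = s w := mul_one _

lemma exists_monomial_shift {V E E1 : Type} [Field E] [Field E1] (f : E →+* E1) (x : V → E1)
    (p : MvPolynomial V E) (K : ℕ) (hp : ∀ m, MvPolynomial.coeff m p ≠ 0 → m.degree ≤ K)
    (h0 : MvPolynomial.coeff 0 p ≠ 0) (hx : p.eval₂ f x = 0) :
    ∃ m, MvPolynomial.coeff m (shift f x p) ≠ 0 ∧ m ≠ 0 ∧ m.degree ≤ K := by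
  classical
  obtain ⟨m, hm⟩ := MvPolynomial.ne_zero_iff.1 (shift_ne_zero f x p h0)
  refine ⟨m, hm, ?_, ?_⟩
  · rintro rfl
    rw [coeff_zero_shift] at hm
    exact hm hx
  · have h1 := MvPolynomial.le_totalDegree (MvPolynomial.mem_support_iff.2 hm)
    have h2 := shift_degree f x p K hp
    rw [Finsupp.degree_apply]
    exact h1.trans h2

lemma eval_line {V E E1 : Type} [Field E] [Field E1] (f : E →+* E1) (x : V → E1)
    (P : Polynomial E1) (p : MvPolynomial V E) :
    p.eval₂ (Polynomial.C.comp f) (fun w => P * Polynomial.C (x w)) =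
      ∑ s ∈ p.support, Polynomial.C (f (MvPolynomial.coeff s p) * ∏ i ∈ s.support, x i ^ s i) *
        P ^ s.degree := by
  classical
  rw [MvPolynomial.eval₂_eq]
  refine Finset.sum_congr rfl (fun s _ => ?_)
  simp only [mul_pow, Finset.prod_mul_distrib]
  rw [Finset.prod_pow_eq_pow_sum, ← Finsupp.degree_apply]
  simp only [RingHom.comp_apply, map_mul, map_prod, map_pow]
  ring

/-- if the translate of `p` at a zero is homogeneous of degree `K`, then `p` has a monomial
of degree one -/
theorem exists_degree_one {V E E1 : Type} [Field E] [Field E1] [CharZero E1] (f : E →+* E1)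
    (x : V → E1) (p : MvPolynomial V E) (K : ℕ) (hK : 0 < K)
    (hH : ∀ m, MvPolynomial.coeff m (shift f x p) ≠ 0 → m.degree = K)
    (h0 : MvPolynomial.coeff 0 p ≠ 0) :
    ∃ m : V →₀ ℕ, m.degree = 1 ∧ MvPolynomial.coeff m p ≠ 0 := by
  classical
  by_contra hcon
  push Not at hcon
  set H := shift f x p with hHdef
  -- two evaluations along the line
  have hcomp : (MvPolynomial.eval₂Hom (Polynomial.C.comp (RingHom.id E1))
      (fun w => (Polynomial.X - 1) * Polynomial.C (x w))).comp (shift f x) =
      MvPolynomial.eval₂Hom (Polynomial.C.comp f) (fun w => Polynomial.X * Polynomial.C (x w)) := by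
    apply MvPolynomial.ringHom_ext
    · intro r; simp [shift]
    · intro i
      simp [shift]
      ring
  have h2 := congrArg (fun g : MvPolynomial V E →+* Polynomial E1 => g p) hcomp
  simp only [RingHom.comp_apply, ← hHdef, MvPolynomial.coe_eval₂Hom] at h2
  rw [eval_line, eval_line] at h2
  set h : E1 := ∑ s ∈ H.support, (RingHom.id E1) (MvPolynomial.coeff s H) *
    ∏ i ∈ s.support, x i ^ s i with hh
  have h3 : ∑ s ∈ H.support, Polynomial.C ((RingHom.id E1) (MvPolynomial.coeff s H) *
      ∏ i ∈ s.support, x i ^ s i) * (Polynomial.X - 1 : Polynomial E1) ^ s.degree =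
      Polynomial.C h * (Polynomial.X - 1) ^ K := by
    rw [hh, map_sum, Finset.sum_mul]
    refine Finset.sum_congr rfl (fun s hs => ?_)
    rw [hH s (MvPolynomial.mem_support_iff.1 hs)]
  rw [h3] at h2
  -- the coefficient at 0
  have hc0 : (∑ s ∈ p.support, Polynomial.C (f (MvPolynomial.coeff s p) *
      ∏ i ∈ s.support, x i ^ s i) * (Polynomial.X : Polynomial E1) ^ s.degree).coeff 0 =
      f (MvPolynomial.coeff 0 p) := by
    rw [Polynomial.finsetSum_coeff, Finset.sum_eq_single 0]
    · simp
    · intro s _ hs
      have : s.degree ≠ 0 := fun h => hs ((Finsupp.degree_eq_zero_iff s).1 h)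
      simp [Polynomial.coeff_X_pow, this.symm]
    · intro h
      exact absurd (MvPolynomial.mem_support_iff.2 h0) h
  have hc1 : (∑ s ∈ p.support, Polynomial.C (f (MvPolynomial.coeff s p) *
      ∏ i ∈ s.support, x i ^ s i) * (Polynomial.X : Polynomial E1) ^ s.degree).coeff 1 = 0 := by
    rw [Polynomial.finsetSum_coeff]
    refine Finset.sum_eq_zero (fun s hs => ?_)
    have h4 : s.degree ≠ 1 := fun h => (MvPolynomial.mem_support_iff.1 hs) (hcon s h)
    rw [Polynomial.coeff_C_mul, Polynomial.coeff_X_pow, if_neg (Ne.symm h4), mul_zero]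
  rw [← h2] at hc0 hc1
  rw [Polynomial.coeff_C_mul] at hc0 hc1
  have e0 : ((Polynomial.X - 1 : Polynomial E1) ^ K).coeff 0 = (-1) ^ K := by
    rw [Polynomial.coeff_zero_eq_eval_zero]; simp
  have e1 : ((Polynomial.X - 1 : Polynomial E1) ^ K).coeff 1 = K * (-1) ^ (K - 1) := by
    have h5 : (Polynomial.derivative ((Polynomial.X - 1 : Polynomial E1) ^ K)).coeff 0 =
        ((Polynomial.X - 1 : Polynomial E1) ^ K).coeff 1 := by
      rw [Polynomial.coeff_derivative]; simp
    rw [← h5, Polynomial.coeff_zero_eq_eval_zero, Polynomial.derivative_pow]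
    simp
  rw [e0] at hc0
  rw [e1] at hc1
  have hh0 : h ≠ 0 := by
    intro h6
    rw [h6, zero_mul] at hc0
    exact h0 ((map_eq_zero f).1 hc0.symm)
  have hKne : (K : E1) ≠ 0 := by exact_mod_cast hK.ne'
  have : (-1 : E1) ^ (K - 1) ≠ 0 := pow_ne_zero _ (by norm_num)
  exact (mul_ne_zero hh0 (mul_ne_zero hKne this)) hc1

/-- coefficient map: apply `f` and substitute `σ ↦ σ ^ q` -/
noncomputable def cf {E E' : Type} [Field E] [Field E'] (f : E →+* E') (q : ℕ) :
    Polynomial E →+* Polynomial E' :=
  Polynomial.eval₂RingHom (Polynomial.C.comp f) (Polynomial.X ^ q)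

@[simp] lemma cf_C {E E' : Type} [Field E] [Field E'] (f : E →+* E') (q : ℕ) (c : E) :
    cf f q (Polynomial.C c) = Polynomial.C (f c) := by
  simp [cf]

@[simp] lemma cf_X {E E' : Type} [Field E] [Field E'] (f : E →+* E') (q : ℕ) :
    cf f q Polynomial.X = Polynomial.X ^ q := by
  simp [cf]

/-- evaluation at `z` -/
noncomputable def evz {E E' ι : Type} [Field E] [Field E'] (f : E →+* E') (q : ℕ)
    (δ' : ι → Der E') (z : Polynomial E') :
    MvPolynomial (List ι) (Polynomial E) →+* Polynomial E' :=
  MvPolynomial.eval₂Hom (cf f q) (fun w => wd (fun i => polyDer (δ' i)) w z)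

/-- approximate solutions to any order of one equation in one unknown -/
theorem newton {ι : Type} (k : ℕ) : ∀ (M : ℕ) (E : Type) [Field E] [CharZero E] (δ : ι → Der E)
    (Φ : MvPolynomial (List ι) (Polynomial E)),
    (MvPolynomial.coeff 0 Φ).coeff 0 = 0 →
    (∃ m, MvPolynomial.coeff m (red Φ) ≠ 0 ∧ m ≠ 0 ∧ m.degree ≤ k) →
    ∃ (E' : Type) (_ : Field E') (_ : CharZero E') (δ' : ι → Der E') (f : E →+* E') (q : ℕ)
      (z : Polynomial E'), (∀ i x, δ' i (f x) = f (δ i x)) ∧ 0 < q ∧ Polynomial.X ∣ z ∧
        Polynomial.X ^ (q * M) ∣ evz f q δ' z Φ := by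
  induction k with
  | zero =>
    intro M E _ _ δ Φ _ hk
    obtain ⟨m, _, hm, hm'⟩ := hk
    exact absurd ((Finsupp.degree_eq_zero_iff m).1 (Nat.le_zero.1 hm')) hm
  | succ k ihk =>
    intro M
    induction M using Nat.strong_induction_on with
    | _ M ihM =>
    intro E _ _ δ Φ h0 hk
    by_cases hM : Polynomial.X ^ M ∣ MvPolynomial.coeff 0 Φ
    · refine ⟨E, inferInstance, inferInstance, δ, RingHom.id E, 1, 0, fun i x => rfl, one_pos,
        dvd_zero _, ?_⟩
      have h1 : evz (RingHom.id E) 1 δ 0 Φ = MvPolynomial.coeff 0 Φ := by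
        have : evz (RingHom.id E) 1 δ 0 =
            (MvPolynomial.constantCoeff : MvPolynomial (List ι) (Polynomial E) →+* _) := by
          apply MvPolynomial.ringHom_ext
          · intro r
            simp only [evz, MvPolynomial.coe_eval₂Hom, MvPolynomial.eval₂_C,
              MvPolynomial.constantCoeff_C]
            have h2 : cf (RingHom.id E) 1 = RingHom.id _ := by
              apply Polynomial.ringHom_ext
              · intro a; simp
              · simp
            rw [h2]; rfl
          · intro w; simp [evz, wd_zero]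
        rw [this]; rfl
      rw [h1, one_mul]
      exact hM
    · obtain ⟨m0, q, μ, Ψ, hm0, hm0M, hq, hμ, hΨ, hΨ0, ⟨s, hs, hs'⟩, hΨk, hΨ1⟩ :=
        newton_scale Φ (k + 1) M h0 hM hk
      -- solve the reduced equation
      have hvars : (red Ψ).vars.Nonempty := by
        obtain ⟨w, hw⟩ := Finsupp.ne_iff.1 hs
        refine ⟨w, (MvPolynomial.mem_vars_iff_mem_support w).2 ⟨s, MvPolynomial.mem_support_iff.2 hs', ?_⟩⟩
        simpa using hw
      obtain ⟨E1, _, _, δ1, f1, ω, hf1, hω⟩ := solve δ (red Ψ) hvars
      -- the translated equation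
      let T : MvPolynomial (List ι) (Polynomial E) →+* MvPolynomial (List ι) (Polynomial E1) :=
        MvPolynomial.eval₂Hom (MvPolynomial.C.comp (Polynomial.mapRingHom f1))
          (fun w => MvPolynomial.X w + MvPolynomial.C (Polynomial.C (wd δ1 w ω)))
      have hTred : (red : MvPolynomial (List ι) (Polynomial E1) →+* _).comp T =
          (shift f1 (fun w => wd δ1 w ω)).comp red := by
        apply MvPolynomial.ringHom_ext
        · intro r; simp [T, red, shift]
        · intro w; simp [T, red, shift]
      have hTred' : red (T Ψ) = shift f1 (fun w => wd δ1 w ω) (red Ψ) :=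
        congrArg (fun g : MvPolynomial (List ι) (Polynomial E) →+* _ => g Ψ) hTred
      have h0' : (MvPolynomial.coeff 0 (T Ψ)).coeff 0 = 0 := by
        rw [← coeff_red, hTred', coeff_zero_shift]
        exact hω
      -- a solution of the translated equation
      obtain ⟨E2, _, _, δ2, f2, q2, y, hf2, hq2, hy, hdy⟩ : ∃ (E' : Type) (_ : Field E')
          (_ : CharZero E') (δ' : ι → Der E') (f : E1 →+* E') (q' : ℕ)
          (z : Polynomial E'), (∀ i x, δ' i (f x) = f (δ1 i x)) ∧ 0 < q' ∧ Polynomial.X ∣ z ∧
          Polynomial.X ^ (q' * (q * (M - m0))) ∣ evz f q' δ' z (T Ψ) := by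
        by_cases hlow : ∃ m, MvPolynomial.coeff m (red (T Ψ)) ≠ 0 ∧ m ≠ 0 ∧ m.degree ≤ k
        · exact ihk (q * (M - m0)) E1 δ1 (T Ψ) h0' hlow
        · push Not at hlow
          have hq1 : q = 1 := by
            rcases hΨ1 with h | h
            · exact h
            · exfalso
              have hH : ∀ m, MvPolynomial.coeff m (shift f1 (fun w => wd δ1 w ω) (red Ψ)) ≠ 0 →
                  m.degree = k + 1 := by
                intro m hm
                have h1 : m.degree ≤ k + 1 := by
                  have h2 := shift_degree f1 (fun w => wd δ1 w ω) (red Ψ) (k + 1) hΨk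
                  have h3 := MvPolynomial.le_totalDegree (MvPolynomial.mem_support_iff.2 hm)
                  rw [Finsupp.degree_apply]
                  exact h3.trans h2
                have h4 : k < m.degree := by
                  apply hlow m
                  · rw [hTred']; exact hm
                  · rintro rfl
                    rw [coeff_zero_shift] at hm
                    exact hm hω
                omega
              obtain ⟨m, hm, hm'⟩ := exists_degree_one f1 (fun w => wd δ1 w ω) (red Ψ) (k + 1)
                (Nat.succ_pos k) hH hΨ0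
              exact hm' (h m hm)
          subst hq1
          rw [one_mul]
          refine ihM (M - m0) (by omega) E1 δ1 (T Ψ) h0' ?_
          rw [hTred']
          exact exists_monomial_shift f1 _ (red Ψ) (k + 1) hΨk hΨ0 hω
      refine ⟨E2, inferInstance, inferInstance, δ2, f2.comp f1, q2 * q,
        Polynomial.X ^ (q2 * μ) * (Polynomial.C (f2 ω) + y), ?_, Nat.mul_pos hq2 hq, ?_, ?_⟩
      · intro i x
        simp [hf2, hf1]
      · exact Dvd.dvd.mul_right (dvd_pow_self _ (Nat.mul_pos hq2 hμ).ne') _
      · -- the identity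
        have hcomp : (evz (f2.comp f1) (q2 * q) δ2
            (Polynomial.X ^ (q2 * μ) * (Polynomial.C (f2 ω) + y))) =
            ((evz f2 q2 δ2 y).comp T).comp (sc q μ) := by
          apply MvPolynomial.ringHom_ext
          · intro r
            have h1 : cf (f2.comp f1) (q2 * q) =
                ((cf f2 q2).comp (Polynomial.mapRingHom f1)).comp
                  (Polynomial.expand E q).toRingHom := by
              apply Polynomial.ringHom_ext
              · intro a; simp
              · simp [pow_mul]
            have h2 := congrArg (fun g : Polynomial E →+* Polynomial E2 => g r) h1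
            simpa [evz, sc, T] using h2
          · intro w
            have hX : ∀ i, (fun i => polyDer (δ2 i)) i (Polynomial.X ^ (q2 * μ)) = 0 := fun i =>
              (polyDer (δ2 i)).pow_zero_of _ (polyDer_X _) _
            have h3 : wd (fun i => polyDer (δ2 i)) w (Polynomial.C (f2 ω)) =
                Polynomial.C (f2 (wd δ1 w ω)) := by
              have h4 := wd_map δ1 (fun i => polyDer (δ2 i)) (Polynomial.C.comp f2) (by
                intro i x; simp [hf2]) w ω
              simpa using h4
            simp only [evz, sc, T, MvPolynomial.coe_eval₂Hom, MvPolynomial.eval₂_X,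
              RingHom.comp_apply, map_mul, MvPolynomial.eval₂_mul, MvPolynomial.eval₂_C]
            rw [wd_mul_const _ w _ _ hX, wd_add, h3]
            simp [pow_mul, add_comm]
        have hval := congrArg (fun g : MvPolynomial (List ι) (Polynomial E) →+* Polynomial E2 =>
          g Φ) hcomp
        simp only [RingHom.comp_apply] at hval
        rw [hval, ← hΨ, map_mul, map_mul]
        have h5 : (evz f2 q2 δ2 y) (T (MvPolynomial.C (Polynomial.X ^ (q * m0)))) =
            Polynomial.X ^ (q2 * (q * m0)) := by
          simp [evz, T, pow_mul]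
        rw [h5]
        have h6 : q2 * q * M = q2 * (q * m0) + q2 * (q * (M - m0)) := by
          have : M = m0 + (M - m0) := by omega
          calc q2 * q * M = q2 * q * (m0 + (M - m0)) := by rw [← this]
            _ = _ := by ring
        rw [h6, pow_add]
        exact mul_dvd_mul_left _ hdy

end Pool.Agent.JB
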