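import Mathlib
import Pool.Agent.Work.MP_71fd89_ag.JBShift
import Pool.Agent.Work.MP_71fd89_ag.JBContra

/-! # Deforming the derivation in one or two directions -/

set_option autoImplicit false

namespace Pool.Agent.JB

instance {A : Type} [CommRing A] : Zero (Der A) := ⟨⟨0, by simp⟩⟩

@[simp] lemma Der.zero_apply {A : Type} [CommRing A] (a : A) : (0 : Der A) a = 0 := rfl

/-- the ring of differential polynomials in one unknown (free derivations) over `F[σ]` -/
abbrev RZ (F : Type) [Field F] := MvPolynomial (List (Fin 3)) (Polynomial F)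

/-- the extension of a derivation of `F` to `RZ F` with shift by the letter `i` -/
noncomputable def hd {F : Type} [Field F] (d : Der F) (i : Fin 3) : Der (RZ F) :=
  mvDer (polyDer d) (fun w => MvPolynomial.X (i :: w))

@[simp] lemma hd_C {F : Type} [Field F] (d : Der F) (i : Fin 3) (b : Polynomial F) :
    hd d i (MvPolynomial.C b) = MvPolynomial.C (polyDer d b) := by
  rw [hd, mvDer_C]

@[simp] lemma hd_X {F : Type} [Field F] (d : Der F) (i : Fin 3) (w : List (Fin 3)) :
    hd d i (MvPolynomial.X w) = MvPolynomial.X (i :: w) := by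
  rw [hd, mvDer_X]

/-- the universal deformed derivation -/
noncomputable def DZ {F : Type} [Field F] (δ : Fin 3 → Der F) : Der (RZ F) :=
  hd (δ 0) 0 + ((MvPolynomial.X [] : RZ F) • hd (δ 1) 1 +
    (MvPolynomial.C Polynomial.X : RZ F) • hd (δ 2) 2)

lemma DZ_apply {F : Type} [Field F] (δ : Fin 3 → Der F) (r : RZ F) :
    DZ δ r = hd (δ 0) 0 r + ((MvPolynomial.X [] : RZ F) * hd (δ 1) 1 r +
      (MvPolynomial.C Polynomial.X : RZ F) * hd (δ 2) 2 r) := rfl

lemma DZ_CC {F : Type} [Field F] (δ : Fin 3 → Der F) (b : F) :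
    DZ δ (MvPolynomial.C (Polynomial.C b)) = MvPolynomial.C (Polynomial.C (δ 0 b)) +
      ((MvPolynomial.X [] : RZ F) * MvPolynomial.C (Polynomial.C (δ 1 b)) +
      (MvPolynomial.C Polynomial.X : RZ F) * MvPolynomial.C (Polynomial.C (δ 2 b))) := by
  rw [DZ_apply]
  simp

/-- the universal deformation of a differential homomorphism -/
noncomputable def rho0 {K F : Type} [Field K] [Field F] [Algebra K F] (n : ℕ) (y : ℕ → F)
    (δ : Fin 3 → Der F) : MvPolynomial ℕ K →+* RZ F :=
  MvPolynomial.eval₂Hom ((MvPolynomial.C.comp Polynomial.C).comp (algebraMap K F))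
    (fun k => (DZ δ)^[k / n] (MvPolynomial.C (Polynomial.C (y (k % n)))))

section

variable {K F : Type} [Field K] [Field F] [Algebra K F] (n : ℕ) (y : ℕ → F)
    (δ : Fin 3 → Der F)

lemma rho0_C (c : K) : rho0 n y δ (MvPolynomial.C c) =
    MvPolynomial.C (Polynomial.C (algebraMap K F c)) := by
  simp [rho0]

lemma rho0_init (k : ℕ) (hk : k < n) : rho0 (K := K) n y δ (MvPolynomial.X k) =
    MvPolynomial.C (Polynomial.C (y k)) := by
  simp [rho0, Nat.div_eq_of_lt hk, Nat.mod_eq_of_lt hk]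

lemma rho0_step (hn : 0 < n) (k : ℕ) : rho0 (K := K) n y δ (MvPolynomial.X (k + n)) =
    DZ δ (rho0 (K := K) n y δ (MvPolynomial.X k)) := by
  simp only [rho0, MvPolynomial.coe_eval₂Hom, MvPolynomial.eval₂_X]
  rw [Nat.add_div_right _ hn, Nat.add_mod_right, Function.iterate_succ_apply']

lemma rho0_D (hn : 0 < n) (d : Der K) (D : Der (MvPolynomial ℕ K))
    (hDC : ∀ c, D (MvPolynomial.C c) = MvPolynomial.C (d c))
    (hDX : ∀ k, D (MvPolynomial.X k) = MvPolynomial.X (k + n))
    (h0 : ∀ c, δ 0 (algebraMap K F c) = algebraMap K F (d c))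
    (h1 : ∀ c, δ 1 (algebraMap K F c) = 0) (h2 : ∀ c, δ 2 (algebraMap K F c) = 0)
    (p : MvPolynomial ℕ K) : rho0 n y δ (D p) = DZ δ (rho0 n y δ p) := by
  apply intertwine
  · intro c
    rw [hDC, rho0_C, rho0_C, DZ_CC, h0, h1, h2]
    simp
  · intro k
    rw [hDX]
    exact rho0_step n y δ hn k

lemma rho0_top (hn : 0 < n) (hy : ∀ k, δ 0 (y k) = y (k + n)) (k : ℕ)
    (hk : rho0 (K := K) n y δ (MvPolynomial.X k) = MvPolynomial.C (Polynomial.C (y k))) :
    rho0 (K := K) n y δ (MvPolynomial.X (k + n)) = MvPolynomial.C (Polynomial.C (y (k + n))) +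
      ((MvPolynomial.X [] : RZ F) * MvPolynomial.C (Polynomial.C (δ 1 (y k))) +
      (MvPolynomial.C Polynomial.X : RZ F) * MvPolynomial.C (Polynomial.C (δ 2 (y k)))) := by
  rw [rho0_step n y δ hn k, hk, DZ_CC, hy]

lemma rho0_low (hn : 0 < n) (hy : ∀ k, δ 0 (y k) = y (k + n)) (b : ℕ)
    (hb : ∀ m, m < b → δ 1 (y m) = 0 ∧ δ 2 (y m) = 0) (k : ℕ) (hk : k < b + n) :
    rho0 (K := K) n y δ (MvPolynomial.X k) = MvPolynomial.C (Polynomial.C (y k)) := by
  induction k using Nat.strong_induction_on with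
  | _ k ih =>
  by_cases hkn : k < n
  · exact rho0_init n y δ k hkn
  · obtain ⟨k', rfl⟩ : ∃ k', k = k' + n := ⟨k - n, by omega⟩
    rw [rho0_top n y δ hn hy k' (ih k' (by omega) (by omega)), (hb k' (by omega)).1,
      (hb k' (by omega)).2]
    simp

lemma rho0_state (hn : 0 < n) (hy : ∀ k, δ 0 (y k) = y (k + n)) (S : Finset ℕ)
    (hS : ∀ k, k + n ∈ S → k ∈ S ∧ δ 1 (y k) = 0 ∧ δ 2 (y k) = 0) (k : ℕ) (hk : k ∈ S) :
    rho0 (K := K) n y δ (MvPolynomial.X k) = MvPolynomial.C (Polynomial.C (y k)) := by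
  induction k using Nat.strong_induction_on with
  | _ k ih =>
  by_cases hkn : k < n
  · exact rho0_init n y δ k hkn
  · obtain ⟨k', rfl⟩ : ∃ k', k = k' + n := ⟨k - n, by omega⟩
    obtain ⟨h1, h2, h3⟩ := hS k' hk
    rw [rho0_top n y δ hn hy k' (ih k' (by omega) h1), h2, h3]
    simp

lemma rho0_of_vars (p : MvPolynomial ℕ K)
    (hp : ∀ k ∈ p.vars, rho0 (K := K) n y δ (MvPolynomial.X k) =
      MvPolynomial.C (Polynomial.C (y k))) :
    rho0 n y δ p = MvPolynomial.C (Polynomial.C (MvPolynomial.aeval y p)) := by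
  have h := MvPolynomial.hom_congr_vars (f₁ := rho0 n y δ)
    (f₂ := ((MvPolynomial.C.comp Polynomial.C : F →+* RZ F)).comp
      ((MvPolynomial.aeval y : MvPolynomial ℕ K →ₐ[K] F) : MvPolynomial ℕ K →+* F))
    (p₁ := p) (p₂ := p) ?_ ?_ rfl
  · exact h
  · ext c
    simp [rho0_C]
  · intro k hk _
    rw [hp k hk]
    simp

/-- the double constant coefficient -/
noncomputable def cc (F : Type) [Field F] : RZ F →+* F :=
  Polynomial.constantCoeff.comp MvPolynomial.constantCoeff

omit [Algebra K F] [Field K] in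
lemma coeff_zero_polyDer (d : Der F) (q : Polynomial F) :
    (polyDer d q).coeff 0 = d (q.coeff 0) := by
  have := intertwine_poly Polynomial.constantCoeff (polyDer d) d (by intro b; simp) (by simp) q
  simpa using this

omit [Algebra K F] [Field K] in
lemma cc_hd (d : Der F) (i : Fin 3) (r : RZ F) : cc F (hd d i r) = d (cc F r) := by
  apply intertwine
  · intro b
    rw [hd_C]
    simp [cc, coeff_zero_polyDer]
  · intro w
    rw [hd_X]
    simp [cc]

omit [Algebra K F] [Field K] in
lemma cc_DZ (r : RZ F) : cc F (DZ δ r) = δ 0 (cc F r) := by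
  rw [DZ_apply, map_add, map_add, map_mul, map_mul, cc_hd]
  simp [cc]

lemma cc_rho0 (hn : 0 < n) (hy : ∀ k, δ 0 (y k) = y (k + n)) (p : MvPolynomial ℕ K) :
    cc F (rho0 n y δ p) = MvPolynomial.aeval y p := by
  have h : (cc F).comp (rho0 n y δ) =
      ((MvPolynomial.aeval y : MvPolynomial ℕ K →ₐ[K] F) : MvPolynomial ℕ K →+* F) := by
    apply MvPolynomial.ringHom_ext
    · intro c
      simp [rho0_C, cc]
    · intro k
      induction k using Nat.strong_induction_on with
      | _ k ih =>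
      by_cases hkn : k < n
      · simp [rho0_init n y δ k hkn, cc]
      · obtain ⟨k', rfl⟩ : ∃ k', k = k' + n := ⟨k - n, by omega⟩
        have := ih k' (by omega)
        simp only [RingHom.comp_apply, RingHom.coe_coe, MvPolynomial.aeval_X] at this ⊢
        rw [rho0_step n y δ hn, cc_DZ, this, hy]
  exact congrArg (fun g : MvPolynomial ℕ K →+* F => g p) h

/-- the evaluation `τ = 0`, `z = σ` -/
noncomputable def ev1 : RZ F →+* Polynomial F :=
  (MvPolynomial.eval₂Hom Polynomial.C
    (fun w => wd (fun i => polyDer (δ i)) w (Polynomial.X : Polynomial F))).comp red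

omit [Algebra K F] [Field K] in
lemma ev1_C (b : Polynomial F) : ev1 δ (MvPolynomial.C b) = Polynomial.C (b.coeff 0) := by
  simp [ev1, red]

omit [Algebra K F] [Field K] in
lemma ev1_X (w : List (Fin 3)) : ev1 δ (MvPolynomial.X w) =
    wd (fun i => polyDer (δ i)) w (Polynomial.X : Polynomial F) := by
  simp [ev1, red]

omit [Algebra K F] [Field K] in
lemma ev1_hd (i : Fin 3) (r : RZ F) : ev1 δ (hd (δ i) i r) = polyDer (δ i) (ev1 δ r) := by
  apply intertwine
  · intro b
    rw [hd_C, ev1_C, ev1_C, polyDer_C, coeff_zero_polyDer]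
  · intro w
    rw [hd_X, ev1_X, ev1_X]
    rfl

omit [Algebra K F] [Field K] in
lemma ev1_DZ (r : RZ F) : ev1 δ (DZ δ r) =
    (polyDer (δ 0) + (Polynomial.X : Polynomial F) • polyDer (δ 1)) (ev1 δ r) := by
  rw [DZ_apply, map_add, map_add, map_mul, map_mul, ev1_hd, ev1_hd, ev1_C, ev1_X]
  simp

omit [Algebra K F] [Field K] in
lemma wd_X_dvd {E : Type} [Field E] (δ' : Fin 3 → Der E) (z : Polynomial E)
    (hz : Polynomial.X ∣ z) (w : List (Fin 3)) :
    Polynomial.X ∣ wd (fun i => polyDer (δ' i)) w z := by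
  induction w with
  | nil => exact hz
  | cons i w ih =>
    obtain ⟨c, hc⟩ := ih
    rw [wd_cons, hc, (polyDer (δ' i)).mul, polyDer_X, mul_zero, add_zero]
    exact Dvd.intro _ rfl

omit [Algebra K F] [Field K] in
lemma ev1_coeff (r : RZ F) : (ev1 δ r).coeff 0 = cc F r := by
  have h : (Polynomial.constantCoeff).comp (ev1 δ) = cc F := by
    apply MvPolynomial.ringHom_ext
    · intro b
      simp [ev1_C, cc]
    · intro w
      simp only [RingHom.comp_apply, ev1_X]
      have := wd_X_dvd δ (Polynomial.X) dvd_rfl w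
      rw [Polynomial.X_dvd_iff] at this
      simp [cc, this]
  exact congrArg (fun g : RZ F →+* F => g r) h

variable {E : Type} [Field E] (f : F →+* E) (q : ℕ) (δ' : Fin 3 → Der E) (z : Polynomial E)

omit [Algebra K F] [Field K] in
lemma evz_C (b : Polynomial F) : evz f q δ' z (MvPolynomial.C b) = cf f q b := by
  simp [evz]

omit [Algebra K F] [Field K] in
lemma evz_X (w : List (Fin 3)) : evz f q δ' z (MvPolynomial.X w) =
    wd (fun i => polyDer (δ' i)) w z := by
  simp [evz]

omit [Algebra K F] [Field K] in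
lemma cf_polyDer (d : Der F) (d' : Der E) (hf : ∀ x, d' (f x) = f (d x)) (b : Polynomial F) :
    cf f q (polyDer d b) = polyDer d' (cf f q b) := by
  apply intertwine_poly
  · intro c
    simp [hf]
  · rw [polyDer_X, map_zero, cf_X, (polyDer d').pow_zero_of _ (polyDer_X d')]

omit [Algebra K F] [Field K] in
lemma evz_hd (hf : ∀ i x, δ' i (f x) = f (δ i x)) (i : Fin 3) (r : RZ F) :
    evz f q δ' z (hd (δ i) i r) = polyDer (δ' i) (evz f q δ' z r) := by
  apply intertwine
  · intro b
    rw [hd_C, evz_C, evz_C, cf_polyDer f q (δ i) (δ' i) (hf i)]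
  · intro w
    rw [hd_X, evz_X, evz_X]
    rfl

omit [Algebra K F] [Field K] in
lemma evz_DZ (hf : ∀ i x, δ' i (f x) = f (δ i x)) (r : RZ F) :
    evz f q δ' z (DZ δ r) = (polyDer (δ' 0) + (z • polyDer (δ' 1) +
      (Polynomial.X ^ q : Polynomial E) • polyDer (δ' 2))) (evz f q δ' z r) := by
  rw [DZ_apply, map_add, map_add, map_mul, map_mul, evz_hd δ f q δ' z hf, evz_hd δ f q δ' z hf,
    evz_hd δ f q δ' z hf, evz_C, evz_X, cf_X]
  rfl

omit [Algebra K F] [Field K] in
lemma evz_coeff (hq : 0 < q) (hz : Polynomial.X ∣ z) (r : RZ F) :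
    (evz f q δ' z r).coeff 0 = f (cc F r) := by
  have h : (Polynomial.constantCoeff).comp (evz f q δ' z) = f.comp (cc F) := by
    apply MvPolynomial.ringHom_ext
    · intro b
      simp only [RingHom.comp_apply, evz_C, cc, MvPolynomial.constantCoeff_C]
      have h1 : (Polynomial.constantCoeff).comp (cf f q) = f.comp Polynomial.constantCoeff := by
        apply Polynomial.ringHom_ext
        · intro a; simp
        · simp [hq.ne]
      exact congrArg (fun g : Polynomial F →+* E => g b) h1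
    · intro w
      simp only [RingHom.comp_apply, evz_X]
      have := wd_X_dvd δ' z hz w
      rw [Polynomial.X_dvd_iff] at this
      simp [cc, this]
  exact congrArg (fun g : RZ F →+* E => g r) h

end

end Pool.Agent.JB
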