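import Mathlib
import Pool.Agent.Work.MP_71fd89_ag.JBDeform

/-! # The row bound -/

set_option autoImplicit false

namespace Pool.Agent.JB

open Algebra

/-- The data: a differential field extension `F` of `K` generated (up to algebraic elements) by the
sequence `y` with `y k` ↦ `y (k + n)`, a system `u` of differential polynomials vanishing at `y`,
such that the kernel of `K{X} → F` is minimal over the differential ideal of `u`. -/
structure Sys (K F I : Type) [Field K] [Field F] [Algebra K F] where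
  n : ℕ
  hn : 0 < n
  y : ℕ → F
  d : Der K
  D : Der (MvPolynomial ℕ K)
  dF : Der F
  u : I → MvPolynomial ℕ K
  S : Finset ℕ
  hDC : ∀ c, D (MvPolynomial.C c) = MvPolynomial.C (d c)
  hDX : ∀ k, D (MvPolynomial.X k) = MvPolynomial.X (k + n)
  hdF : ∀ c, dF (algebraMap K F c) = algebraMap K F (d c)
  hy : ∀ k, dF (y k) = y (k + n)
  hu : ∀ i, MvPolynomial.aeval y (u i) = 0
  hS : IsTranscendenceBasis K (fun k : (S : Set ℕ) => y k)
  hS' : ∀ m, IsAlgebraic (adjoin K (y '' {k | k ∈ S ∧ k ≤ m})) (y m)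
  hmin : ∀ G, MvPolynomial.aeval y G = 0 → ∃ h, MvPolynomial.aeval y h ≠ 0 ∧ ∃ N : ℕ,
      (h * G) ^ N ∈ Ideal.span {g : MvPolynomial ℕ K | ∃ (i : I) (k : ℕ), g = (D^[k]) (u i)}

namespace Sys

variable {K F I : Type} [Field K] [Field F] [CharZero F] [Algebra K F] (A : Sys K F I)

/-- the states are closed downwards in arithmetic progressions -/
theorem desc (k : ℕ) (hk : k + A.n ∈ A.S) : k ∈ A.S := by
  classical
  by_contra hkS
  obtain ⟨Δ, h1, h2, h3, h4⟩ := exists_dual A.y A.S A.hS A.hS' (k + A.n) hk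
  -- the bracket
  let B : Der F :=
    { f := { toFun := fun x => Δ (A.dF x) - A.dF (Δ x)
             map_zero' := by simp
             map_add' := by intro a b; simp; ring }
      leib' := by
        intro a b
        simp only [AddMonoidHom.coe_mk, ZeroHom.coe_mk, A.dF.mul, Δ.mul, map_add]
        ring }
  have hB : ∀ x, B x = Δ (A.dF x) - A.dF (Δ x) := fun x => rfl
  have hBk : B (A.y k) = 0 := by
    refine der_zero_of_alg (R := adjoin K (A.y '' {j | j ∈ A.S ∧ j ≤ k})) Subtype.val_injective B ?_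
      (A.y k) (A.hS' k)
    rintro ⟨r, hr⟩
    change B r = 0
    refine Algebra.adjoin_induction ?_ ?_ ?_ ?_ hr
    · rintro x ⟨j, hj, rfl⟩
      have hjk : j < k := lt_of_le_of_ne hj.2 (fun h => hkS (h ▸ hj.1))
      rw [hB, A.hy, h4 (j + A.n) (by omega), h4 j (by omega)]
      simp
    · intro c
      rw [hB, A.hdF, h1, h1]
      simp
    · intro a b _ _ ha hb
      simp [ha, hb]
    · intro a b _ _ ha hb
      simp [B.mul, ha, hb]
  rw [hB, A.hy, h2, h4 k (by have := A.hn; omega)] at hBk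
  simp at hBk

/-- one direction -/
theorem rowA (κ : ℕ) (hκ : κ ∈ A.S) (hlast : κ + A.n ∉ A.S)
    (hvars : ∀ i, ∀ k ∈ (A.u i).vars, k < κ + A.n) : False := by
  classical
  obtain ⟨Δ, h1, h2, h3, h4⟩ := exists_dual A.y A.S A.hS A.hS' κ hκ
  let δ : Fin 3 → Der F := ![A.dF, Δ, 0]
  have hδ0 : δ 0 = A.dF := rfl
  have hδ1 : δ 1 = Δ := rfl
  have hδ2 : δ 2 = 0 := rfl
  have hy : ∀ k, δ 0 (A.y k) = A.y (k + A.n) := A.hy
  have hlow := rho0_low (K := K) A.n A.y δ A.hn hy κ (fun m hm => ⟨h4 m hm, rfl⟩)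
  have hstate := rho0_state (K := K) A.n A.y δ A.hn hy A.S (fun k hk =>
    ⟨A.desc k hk, h3 k (A.desc k hk) (by rintro rfl; exact hlast hk), rfl⟩)
  have hD := rho0_D A.n A.y δ A.hn A.d A.D A.hDC A.hDX A.hdF h1 (fun c => rfl)
  refine contra A.n A.y A.D A.u A.S A.hS κ A.hmin (fun M => ?_)
  refine ⟨F, inferInstance, RingHom.id F,
    polyDer (δ 0) + (Polynomial.X : Polynomial F) • polyDer (δ 1), 1,
    (ev1 δ).comp (rho0 A.n A.y δ), one_pos, by simp, ?_, ?_, ?_, ?_, ?_, ?_⟩
  · intro p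
    rw [RingHom.comp_apply, hD, ev1_DZ]
    rfl
  · intro c
    rw [RingHom.comp_apply, rho0_C, ev1_C]
    simp
  · intro k hk
    rw [RingHom.comp_apply, hstate k hk, ev1_C]
    simp
  · rw [RingHom.comp_apply, rho0_top A.n A.y δ A.hn hy κ (hstate κ hκ), hδ1, hδ2, h2]
    simp only [map_add, map_mul, ev1_C, ev1_X, wd_nil]
    simp
  · intro p
    rw [RingHom.comp_apply, ev1_coeff, cc_rho0 A.n A.y δ A.hn hy]
    rfl
  · intro i
    rw [RingHom.comp_apply, rho0_of_vars A.n A.y δ (A.u i) (fun k hk => hlow k (hvars i k hk)),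
      A.hu i]
    simp

/-- two directions and one equation -/
theorem rowB (κ l : ℕ) (hκ : κ ∈ A.S) (hlastκ : κ + A.n ∉ A.S) (hl : l ∈ A.S)
    (hlastl : l + A.n ∉ A.S) (hne : κ ≠ l) (i1 : I)
    (hvars : ∀ i, i ≠ i1 → ∀ k ∈ (A.u i).vars, k < κ + A.n ∧ k < l + A.n) : False := by
  classical
  obtain ⟨Δ1, h1, h2, h3, h4⟩ := exists_dual A.y A.S A.hS A.hS' κ hκ
  obtain ⟨Δ2, g1, g2, g3, g4⟩ := exists_dual A.y A.S A.hS A.hS' l hl
  let δ : Fin 3 → Der F := ![A.dF, Δ1, Δ2]
  have hδ0 : δ 0 = A.dF := rfl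
  have hδ1 : δ 1 = Δ1 := rfl
  have hδ2 : δ 2 = Δ2 := rfl
  have hy : ∀ k, δ 0 (A.y k) = A.y (k + A.n) := A.hy
  have hlow := rho0_low (K := K) A.n A.y δ A.hn hy (min κ l) (fun m hm =>
    ⟨h4 m (lt_of_lt_of_le hm (min_le_left _ _)), g4 m (lt_of_lt_of_le hm (min_le_right _ _))⟩)
  have hstate := rho0_state (K := K) A.n A.y δ A.hn hy A.S (fun k hk =>
    ⟨A.desc k hk, h3 k (A.desc k hk) (by rintro rfl; exact hlastκ hk),
      g3 k (A.desc k hk) (by rintro rfl; exact hlastl hk)⟩)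
  have hD := rho0_D A.n A.y δ A.hn A.d A.D A.hDC A.hDX A.hdF h1 g1
  have hzero : ∀ i, i ≠ i1 → rho0 A.n A.y δ (A.u i) = 0 := by
    intro i hi
    rw [rho0_of_vars A.n A.y δ (A.u i) (fun k hk => hlow k (by
      have := hvars i hi k hk; omega)), A.hu i]
    simp
  have htopκ : rho0 (K := K) A.n A.y δ (MvPolynomial.X (κ + A.n)) =
      MvPolynomial.C (Polynomial.C (A.y (κ + A.n))) + MvPolynomial.X [] := by
    rw [rho0_top A.n A.y δ A.hn hy κ (hstate κ hκ), hδ1, hδ2, h2, g3 κ hκ hne]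
    simp
  have htopl : rho0 (K := K) A.n A.y δ (MvPolynomial.X (l + A.n)) =
      MvPolynomial.C (Polynomial.C (A.y (l + A.n))) + MvPolynomial.C Polynomial.X := by
    rw [rho0_top A.n A.y δ A.hn hy l (hstate l hl), hδ1, hδ2, g2, h3 l hl hne.symm]
    simp
  by_cases hred : red (rho0 A.n A.y δ (A.u i1)) = 0
  · -- exact deformation in the direction κ
    refine contra A.n A.y A.D A.u A.S A.hS κ A.hmin (fun M => ?_)
    refine ⟨F, inferInstance, RingHom.id F,
      polyDer (δ 0) + (Polynomial.X : Polynomial F) • polyDer (δ 1), 1,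
      (ev1 δ).comp (rho0 A.n A.y δ), one_pos, by simp, ?_, ?_, ?_, ?_, ?_, ?_⟩
    · intro p
      rw [RingHom.comp_apply, hD, ev1_DZ]
      rfl
    · intro c
      rw [RingHom.comp_apply, rho0_C, ev1_C]
      simp
    · intro k hk
      rw [RingHom.comp_apply, hstate k hk, ev1_C]
      simp
    · rw [RingHom.comp_apply, htopκ, map_add, ev1_C, ev1_X]
      simp
    · intro p
      rw [RingHom.comp_apply, ev1_coeff, cc_rho0 A.n A.y δ A.hn hy]
      rfl
    · intro i
      by_cases hi : i = i1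
      · rw [hi, RingHom.comp_apply]
        have : ev1 δ (rho0 A.n A.y δ (A.u i1)) = 0 := by
          rw [ev1, RingHom.comp_apply, hred, map_zero]
        rw [this]
        exact dvd_zero _
      · rw [RingHom.comp_apply, hzero i hi, map_zero]
        exact dvd_zero _
  · -- Newton polygon
    obtain ⟨m, hm⟩ := MvPolynomial.ne_zero_iff.1 hred
    have hcc : (MvPolynomial.coeff 0 (rho0 A.n A.y δ (A.u i1))).coeff 0 = 0 := by
      have := cc_rho0 (K := K) A.n A.y δ A.hn hy (A.u i1)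
      rw [A.hu i1] at this
      simpa [cc, MvPolynomial.constantCoeff_eq] using this
    have hm0 : m ≠ 0 := by
      rintro rfl
      rw [coeff_red] at hm
      exact hm hcc
    refine contra A.n A.y A.D A.u A.S A.hS l A.hmin (fun M => ?_)
    obtain ⟨E, _, _, δ', f, q, z, hf, hq, hz, hdvd⟩ := newton m.degree M F δ
      (rho0 A.n A.y δ (A.u i1)) hcc ⟨m, hm, hm0, le_rfl⟩
    refine ⟨E, inferInstance, f, polyDer (δ' 0) + (z • polyDer (δ' 1) +
      (Polynomial.X ^ q : Polynomial E) • polyDer (δ' 2)), q,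
      (evz f q δ' z).comp (rho0 A.n A.y δ), hq, by simp, ?_, ?_, ?_, ?_, ?_, ?_⟩
    · intro p
      rw [RingHom.comp_apply, hD, evz_DZ δ f q δ' z hf]
      rfl
    · intro c
      rw [RingHom.comp_apply, rho0_C, evz_C, cf_C]
    · intro k hk
      rw [RingHom.comp_apply, hstate k hk, evz_C, cf_C]
    · rw [RingHom.comp_apply, htopl, map_add, evz_C, evz_C, cf_C, cf_X]
    · intro p
      rw [RingHom.comp_apply, evz_coeff f q δ' z hq hz, cc_rho0 A.n A.y δ A.hn hy]
    · intro i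
      by_cases hi : i = i1
      · rw [hi, RingHom.comp_apply]
        exact hdvd
      · rw [RingHom.comp_apply, hzero i hi, map_zero]
        exact dvd_zero _

end Sys

end Pool.Agent.JB
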