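import Mathlib
import Pool.Agent.Work.MP_71fd89_ag.JBRow

/-! # Counting the states -/

set_option autoImplicit false

namespace Pool.Agent.JB

open Algebra

namespace Sys

variable {K F I : Type} [Field K] [Field F] [CharZero F] [Algebra K F] (A : Sys K F I)

theorem bound (hn2 : 2 ≤ A.n) (i1 i3 : I) (e1 e2 e3 : ℕ) (h21 : e2 ≤ e1) (h32 : e3 ≤ e2)
    (h1 : ∀ k ∈ (A.u i1).vars, k < (e1 + 1) * A.n)
    (h2 : ∀ i, i ≠ i1 → ∀ k ∈ (A.u i).vars, k < (e2 + 1) * A.n)
    (h3 : ∀ k ∈ (A.u i3).vars, k < (e3 + 1) * A.n) (h3ne : A.u i3 ≠ 0) :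
    A.S.card ≤ e1 + (A.n - 2) * e2 + e3 := by
  classical
  have hn := A.hn
  have hex : ∀ j, ∃ s, s * A.n + j ∉ A.S := by
    intro j
    refine ⟨A.S.sup (fun x => x) + 1, fun h => ?_⟩
    have h4 : (A.S.sup (fun x => x) + 1) * A.n + j ≤ A.S.sup (fun x => x) :=
      Finset.le_sup (f := fun x => x) h
    have h5 : A.S.sup (fun x => x) + 1 ≤ (A.S.sup (fun x => x) + 1) * A.n :=
      Nat.le_mul_of_pos_right _ hn
    omega
  let r : ℕ → ℕ := fun j => Nat.find (hex j)
  have hr1 : ∀ j s, s < r j → s * A.n + j ∈ A.S := by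
    intro j s hs
    by_contra h
    exact Nat.find_min (hex j) hs h
  have hr2 : ∀ j s, r j ≤ s → s * A.n + j ∉ A.S := by
    intro j s hs
    induction s, hs using Nat.le_induction with
    | base => exact Nat.find_spec (hex j)
    | succ s _ ih =>
      intro h
      apply ih
      apply A.desc
      have : s * A.n + j + A.n = (s + 1) * A.n + j := by ring
      rw [this]; exact h
  -- counting
  have hcard : A.S.card ≤ ∑ j ∈ Finset.range A.n, r j := by
    have hsub : A.S ⊆ (Finset.range A.n).biUnion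
        (fun j => (Finset.range (r j)).image (fun s => s * A.n + j)) := by
      intro k hk
      rw [Finset.mem_biUnion]
      refine ⟨k % A.n, Finset.mem_range.2 (Nat.mod_lt _ hn), ?_⟩
      rw [Finset.mem_image]
      have hk' : k / A.n * A.n + k % A.n = k := Nat.div_add_mod' k A.n
      refine ⟨k / A.n, Finset.mem_range.2 ?_, hk'⟩
      by_contra hcon
      exact hr2 _ _ (not_lt.1 hcon) (by rw [hk']; exact hk)
    refine (Finset.card_le_card hsub).trans ?_
    refine Finset.card_biUnion_le.trans ?_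
    refine Finset.sum_le_sum (fun j _ => ?_)
    refine Finset.card_image_le.trans ?_
    rw [Finset.card_range]
  -- the last element of a class
  have hlast : ∀ j, 0 < r j → ((r j - 1) * A.n + j ∈ A.S ∧ (r j - 1) * A.n + j + A.n ∉ A.S ∧
      (r j - 1) * A.n + j + A.n = r j * A.n + j) := by
    intro j hj
    have h4 : (r j - 1) * A.n + j + A.n = r j * A.n + j := by
      obtain ⟨s, hs⟩ : ∃ s, r j = s + 1 := ⟨r j - 1, by omega⟩
      rw [hs]
      simp only [Nat.add_sub_cancel]
      ring
    refine ⟨hr1 j _ (by omega), ?_, h4⟩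
    rw [h4]
    exact hr2 j _ le_rfl
  have hA : ∀ j, r j ≤ e1 := by
    intro j
    by_contra hcon
    have hpos : 0 < r j := by omega
    obtain ⟨g1, g2, g3⟩ := hlast j hpos
    refine A.rowA _ g1 g2 (fun i k hk => ?_)
    rw [g3]
    have h4 : (e1 + 1) * A.n ≤ r j * A.n := Nat.mul_le_mul_right _ (by omega)
    have h5 : (e2 + 1) * A.n ≤ (e1 + 1) * A.n := Nat.mul_le_mul_right _ (by omega)
    by_cases hi : i = i1
    · rw [hi] at hk
      have := h1 k hk
      omega
    · have := h2 i hi k hk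
      omega
  have hB : ∀ j j', j < A.n → j' < A.n → j ≠ j' → e2 < r j → e2 < r j' → False := by
    intro j j' hjn hjn' hne hj hj'
    obtain ⟨g1, g2, g3⟩ := hlast j (by omega)
    obtain ⟨g1', g2', g3'⟩ := hlast j' (by omega)
    refine A.rowB _ _ g1 g2 g1' g2' ?_ i1 (fun i hi k hk => ?_)
    · intro heq
      have h4 : ((r j - 1) * A.n + j) % A.n = ((r j' - 1) * A.n + j') % A.n := by rw [heq]
      rw [Nat.mul_add_mod_self_right, Nat.mul_add_mod_self_right, Nat.mod_eq_of_lt hjn,
        Nat.mod_eq_of_lt hjn'] at h4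
      exact hne h4
    · rw [g3, g3']
      have h4 : (e2 + 1) * A.n ≤ r j * A.n := Nat.mul_le_mul_right _ (by omega)
      have h5 : (e2 + 1) * A.n ≤ r j' * A.n := Nat.mul_le_mul_right _ (by omega)
      have := h2 i hi k hk
      omega
  have hC : ∃ j0, j0 < A.n ∧ r j0 ≤ e3 := by
    by_contra hcon
    push Not at hcon
    apply h3ne
    have hsupp : ((A.u i3).vars : Set ℕ) ⊆ Set.range (fun k : (A.S : Set ℕ) => (k : ℕ)) := by
      intro k hk
      have hk1 := h3 k hk
      refine ⟨⟨k, ?_⟩, rfl⟩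
      have hk' : k / A.n * A.n + k % A.n = k := Nat.div_add_mod' k A.n
      have h4 : k / A.n < e3 + 1 := Nat.div_lt_of_lt_mul (by rw [mul_comm]; exact hk1)
      have h5 := hcon (k % A.n) (Nat.mod_lt _ hn)
      have h6 := hr1 (k % A.n) (k / A.n) (by omega)
      rw [hk'] at h6
      exact h6
    obtain ⟨q, hq⟩ := MvPolynomial.exists_rename_eq_of_vars_subset_range (A.u i3)
      (fun k : (A.S : Set ℕ) => (k : ℕ)) Subtype.val_injective hsupp
    have h4 := A.hu i3
    rw [← hq, MvPolynomial.aeval_rename] at h4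
    have h5 : q = 0 := by
      have hinj := A.hS.1
      rw [algebraicIndependent_iff_injective_aeval] at hinj
      apply hinj
      rw [map_zero]
      exact h4
    rw [← hq, h5, map_zero]
  obtain ⟨j0, hj0, hj0e⟩ := hC
  have hm0 : j0 ∈ Finset.range A.n := Finset.mem_range.2 hj0
  by_cases hbig : ∃ j1, j1 < A.n ∧ e2 < r j1
  · obtain ⟨j1, hj1, hj1e⟩ := hbig
    have hne : j0 ≠ j1 := by rintro rfl; omega
    have hm1 : j1 ∈ (Finset.range A.n).erase j0 :=
      Finset.mem_erase.2 ⟨hne.symm, Finset.mem_range.2 hj1⟩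
    rw [← Finset.add_sum_erase _ _ hm0, ← Finset.add_sum_erase _ _ hm1] at hcard
    have hrest : ∑ x ∈ ((Finset.range A.n).erase j0).erase j1, r x ≤ (A.n - 2) * e2 := by
      have hc : (((Finset.range A.n).erase j0).erase j1).card = A.n - 2 := by
        rw [Finset.card_erase_of_mem hm1, Finset.card_erase_of_mem hm0, Finset.card_range]
        omega
      rw [← hc, ← smul_eq_mul]
      refine Finset.sum_le_card_nsmul _ _ _ (fun x hx => ?_)
      obtain ⟨hx1, hx2⟩ := Finset.mem_erase.1 hx
      obtain ⟨hx3, hx4⟩ := Finset.mem_erase.1 hx2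
      by_contra hcon
      exact hB x j1 (Finset.mem_range.1 hx4) hj1 hx1 (not_le.1 hcon) hj1e
    have := hA j1
    omega
  · push Not at hbig
    rw [← Finset.add_sum_erase _ _ hm0] at hcard
    have hrest : ∑ x ∈ ((Finset.range A.n).erase j0), r x ≤ (A.n - 1) * e2 := by
      have hc : ((Finset.range A.n).erase j0).card = A.n - 1 := by
        rw [Finset.card_erase_of_mem hm0, Finset.card_range]
      rw [← hc, ← smul_eq_mul]
      refine Finset.sum_le_card_nsmul _ _ _ (fun x hx => ?_)
      exact hbig x (Finset.mem_range.1 (Finset.mem_erase.1 hx).2)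
    have h6 : (A.n - 1) * e2 = (A.n - 2) * e2 + e2 := by
      obtain ⟨t, ht⟩ : ∃ t, A.n = t + 2 := ⟨A.n - 2, by omega⟩
      rw [ht]
      have : t + 2 - 1 = t + 1 := by omega
      rw [this, Nat.add_sub_cancel]
      ring
    omega

end Sys

end Pool.Agent.JB
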