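import Mathlib
import Pool.Agent.Work.MP_71fd89_ag.JBDer

/-! # Minimal primes over differential ideals -/

set_option autoImplicit false

namespace Pool.Agent.JB

variable {R : Type} [CommRing R]

lemma iter_mul_mem (D : Der R) (P : Ideal R) (m : ℕ) : ∀ (x z : R),
    (∀ a, a ≤ m → (D^[a]) x ∈ P) → (D^[m]) (x * z) ∈ P := by
  induction m with
  | zero => intro x z h; exact P.mul_mem_right _ (h 0 le_rfl)
  | succ m ih =>
    intro x z h
    rw [Function.iterate_succ_apply, D.mul]
    have h1 : (D^[m]) (x * D z) ∈ P := ih x (D z) (fun a ha => h a (by omega))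
    have h2 : (D^[m]) (D x * z) ∈ P := ih (D x) z (fun a ha => by
      have := h (a + 1) (by omega)
      rwa [Function.iterate_succ_apply] at this)
    have hadd : ∀ (m : ℕ) (a b : R), (D^[m]) (a + b) = (D^[m]) a + (D^[m]) b := by
      intro m
      induction m with
      | zero => intro a b; rfl
      | succ m ih => intro a b; rw [Function.iterate_succ_apply, map_add, ih,
          Function.iterate_succ_apply, Function.iterate_succ_apply]
    rw [hadd, mul_comm z]
    exact P.add_mem h1 h2

lemma iter_mul_top (D : Der R) (P : Ideal R) (m : ℕ) : ∀ (i j : ℕ) (x y : R), i + j = m →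
    (∀ a, a < i → (D^[a]) x ∈ P) → (∀ b, b < j → (D^[b]) y ∈ P) →
    ∃ c : ℕ, 0 < c ∧ (D^[m]) (x * y) - (c : R) * ((D^[i]) x * (D^[j]) y) ∈ P := by
  have hadd : ∀ (m : ℕ) (a b : R), (D^[m]) (a + b) = (D^[m]) a + (D^[m]) b := by
    intro m
    induction m with
    | zero => intro a b; rfl
    | succ m ih => intro a b; rw [Function.iterate_succ_apply, map_add, ih,
        Function.iterate_succ_apply, Function.iterate_succ_apply]
  induction m with
  | zero =>
    intro i j x y hij _ _
    have hi : i = 0 := by omega
    have hj : j = 0 := by omega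
    subst hi hj
    exact ⟨1, one_pos, by simp⟩
  | succ m ih =>
    intro i j x y hij hx hy
    -- the term x * D y
    have h1 : ∃ c : ℕ, (0 < j → 0 < c) ∧
        (D^[m]) (x * D y) - (c : R) * ((D^[i]) x * (D^[j]) y) ∈ P := by
      rcases Nat.eq_zero_or_pos j with hj | hj
      · refine ⟨0, fun h => absurd h (by omega), ?_⟩
        simp only [Nat.cast_zero, zero_mul, sub_zero]
        exact iter_mul_mem D P m x (D y) (fun a ha => hx a (by omega))
      · obtain ⟨c, hc, hc'⟩ := ih i (j - 1) x (D y) (by omega) hx (fun b hb => by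
          have := hy (b + 1) (by omega)
          rwa [Function.iterate_succ_apply] at this)
        refine ⟨c, fun _ => hc, ?_⟩
        have hj' : (D^[j]) y = (D^[j - 1]) (D y) := by
          rw [← Function.iterate_succ_apply]
          congr 2
          omega
        rw [hj']
        exact hc'
    have h2 : ∃ c : ℕ, (0 < i → 0 < c) ∧
        (D^[m]) (y * D x) - (c : R) * ((D^[i]) x * (D^[j]) y) ∈ P := by
      rcases Nat.eq_zero_or_pos i with hi | hi
      · refine ⟨0, fun h => absurd h (by omega), ?_⟩
        simp only [Nat.cast_zero, zero_mul, sub_zero]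
        exact iter_mul_mem D P m y (D x) (fun a ha => hy a (by omega))
      · obtain ⟨c, hc, hc'⟩ := ih (i - 1) j (D x) y (by omega) (fun b hb => by
          have := hx (b + 1) (by omega)
          rwa [Function.iterate_succ_apply] at this) hy
        refine ⟨c, fun _ => hc, ?_⟩
        have hi' : (D^[i]) x = (D^[i - 1]) (D x) := by
          rw [← Function.iterate_succ_apply]
          congr 2
          omega
        rw [hi', mul_comm y]
        exact hc'
    obtain ⟨c1, hc1, hc1'⟩ := h1
    obtain ⟨c2, hc2, hc2'⟩ := h2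
    refine ⟨c1 + c2, ?_, ?_⟩
    · rcases Nat.eq_zero_or_pos i with hi | hi
      · have := hc1 (by omega); omega
      · have := hc2 hi; omega
    · rw [Function.iterate_succ_apply, D.mul, hadd]
      have := P.add_mem hc1' hc2'
      convert this using 1
      push_cast
      ring

/-- minimal primes over a differential ideal are differential (characteristic zero) -/
theorem min_stable [Algebra ℚ R] (D : Der R) (J P : Ideal R) (hJ : ∀ x ∈ J, D x ∈ J)
    (hP : P ∈ J.minimalPrimes) : ∀ x ∈ P, D x ∈ P := by
  classical
  have hPp : P.IsPrime := hP.1.1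
  have hadd : ∀ (m : ℕ) (a b : R), (D^[m]) (a + b) = (D^[m]) a + (D^[m]) b := by
    intro m
    induction m with
    | zero => intro a b; rfl
    | succ m ih => intro a b; rw [Function.iterate_succ_apply, map_add, ih,
        Function.iterate_succ_apply, Function.iterate_succ_apply]
  have hzero : ∀ (m : ℕ), (D^[m]) (0 : R) = 0 := by
    intro m
    induction m with
    | zero => rfl
    | succ m ih => rw [Function.iterate_succ_apply, map_zero, ih]
  let Q : Ideal R :=
    { carrier := {x | ∀ k, (D^[k]) x ∈ P}
      add_mem' := by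
        intro a b ha hb k
        rw [hadd]
        exact P.add_mem (ha k) (hb k)
      zero_mem' := by
        intro k
        rw [hzero]
        exact P.zero_mem
      smul_mem' := by
        intro r x hx k
        rw [smul_eq_mul, mul_comm]
        exact iter_mul_mem D P k x r (fun a _ => hx a) }
  have hQmem : ∀ x, x ∈ Q ↔ ∀ k, (D^[k]) x ∈ P := fun x => Iff.rfl
  have hQP : Q ≤ P := fun x hx => hx 0
  have hcast : ∀ c : ℕ, 0 < c → (c : R) ∉ P := by
    intro c hc h
    apply hPp.ne_top
    refine Ideal.eq_top_of_isUnit_mem _ h ?_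
    have h1 : (c : R) = algebraMap ℚ R (c : ℚ) := by simp
    rw [h1]
    exact (isUnit_iff_ne_zero.2 (by exact_mod_cast hc.ne')).map _
  have hQprime : Q.IsPrime := by
    constructor
    · intro h
      exact hPp.ne_top (top_le_iff.1 (h ▸ hQP))
    · intro x y hxy
      by_contra hcon
      push Not at hcon
      obtain ⟨hx, hy⟩ := hcon
      rw [hQmem] at hx hy
      push Not at hx hy
      have hi := Nat.find_spec hx
      have hj := Nat.find_spec hy
      obtain ⟨c, hc, hc'⟩ := iter_mul_top D P (Nat.find hx + Nat.find hy) (Nat.find hx)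
        (Nat.find hy) x y rfl (fun a ha => by
          by_contra h; exact Nat.find_min hx ha h) (fun b hb => by
          by_contra h; exact Nat.find_min hy hb h)
      have h1 := hxy (Nat.find hx + Nat.find hy)
      have h2 : (c : R) * ((D^[Nat.find hx]) x * (D^[Nat.find hy]) y) ∈ P := by
        have := P.sub_mem h1 hc'
        rwa [sub_sub_cancel] at this
      rcases hPp.mem_or_mem h2 with h3 | h3
      · exact hcast c hc h3
      · rcases hPp.mem_or_mem h3 with h4 | h4
        · exact hi h4
        · exact hj h4
  have hJQ : J ≤ Q := by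
    intro x hx k
    have : (D^[k]) x ∈ J := by
      induction k with
      | zero => exact hx
      | succ k ih => rw [Function.iterate_succ_apply']; exact hJ _ ih
    exact hP.1.2 this
  have hPQ : P ≤ Q := hP.2 ⟨hQprime, hJQ⟩ hQP
  intro x hx
  exact hPQ hx 1

/-- elements of a minimal prime are nilpotent modulo the ideal after localization -/
theorem exists_mul_mem_radical (J P : Ideal R) (hP : P ∈ J.minimalPrimes) (A : R) (hA : A ∈ P) :
    ∃ h, h ∉ P ∧ h * A ∈ J.radical := by
  classical
  have hPp : P.IsPrime := hP.1.1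
  let M : Submonoid R :=
    { carrier := {x | ∃ h, h ∉ P ∧ ∃ N : ℕ, x = h * A ^ N}
      one_mem' := ⟨1, fun h => hPp.ne_top ((Ideal.eq_top_iff_one _).2 h), 0, by simp⟩
      mul_mem' := by
        rintro a b ⟨h, hh, N, rfl⟩ ⟨h', hh', N', rfl⟩
        refine ⟨h * h', fun hm => ?_, N + N', by ring⟩
        rcases hPp.mem_or_mem hm with h1 | h1
        · exact hh h1
        · exact hh' h1 }
  have hnd : ¬ Disjoint (J : Set R) (M : Set R) := by
    intro hd
    obtain ⟨Q, hQ, hJQ, hQM⟩ := Ideal.exists_le_prime_disjoint J M hd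
    have hQP : Q ≤ P := by
      intro x hx
      by_contra hxP
      exact Set.disjoint_left.1 hQM hx ⟨x, hxP, 0, by simp⟩
    have hPQ : P ≤ Q := hP.2 ⟨hQ, hJQ⟩ hQP
    exact Set.disjoint_left.1 hQM (hPQ hA) ⟨1, fun h => hPp.ne_top ((Ideal.eq_top_iff_one _).2 h),
      1, by simp⟩
  rw [Set.not_disjoint_iff] at hnd
  obtain ⟨x, hx, h, hh, N, rfl⟩ := hnd
  refine ⟨h, hh, N + 1, ?_⟩
  have : (h * A) ^ (N + 1) = (h ^ N * A) * (h * A ^ N) := by ring
  rw [this]
  exact J.mul_mem_left _ hx

end Pool.Agent.JB
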