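import Mathlib
import Pool.Agent.Work.MP_71fd89_ag.JBCount
import Pool.Agent.Work.MP_71fd89_ag.JBMin

/-! # Virtual states -/

set_option autoImplicit false

namespace Pool.Agent.JB

open Algebra

/-- the induced derivation on the fraction field of `R ⧸ P` -/
theorem exists_quot_der {R : Type} [CommRing R] (D : Der R) (P : Ideal R) [P.IsPrime]
    (hPD : ∀ x ∈ P, D x ∈ P) :
    ∃ E : Der (FractionRing (R ⧸ P)), ∀ p : R,
      E (algebraMap (R ⧸ P) (FractionRing (R ⧸ P)) (Ideal.Quotient.mk P p)) =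
        algebraMap (R ⧸ P) (FractionRing (R ⧸ P)) (Ideal.Quotient.mk P (D p)) := by
  let F0 := FractionRing (R ⧸ P)
  let π0 : R →+* F0 := (algebraMap (R ⧸ P) F0).comp (Ideal.Quotient.mk P)
  let φ := dualHom π0 (cD π0 D) (cD_leib π0 D)
  have hφ : ∀ a, a ∈ P → φ a = 0 := by
    intro a ha
    have h1 : π0 a = 0 := by
      simp only [π0, RingHom.comp_apply, Ideal.Quotient.eq_zero_iff_mem.2 ha, map_zero]
    have h2 : π0 (D a) = 0 := by
      simp only [π0, RingHom.comp_apply, Ideal.Quotient.eq_zero_iff_mem.2 (hPD a ha), map_zero]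
    ext
    · simp [φ, h1]
    · simp [φ, h2]
  let ψ : (R ⧸ P) →+* TrivSqZeroExt F0 F0 := Ideal.Quotient.lift P φ hφ
  have hψ : ∀ a, ψ (Ideal.Quotient.mk P a) = φ a := fun a => Ideal.Quotient.lift_mk P φ hφ
  obtain ⟨E, hE⟩ := exists_der_frac (A := R ⧸ P) (F := F0)
    { toFun := fun x => (ψ x).snd, map_zero' := by simp, map_add' := by intro a b; simp } (by
      intro a b
      obtain ⟨a, rfl⟩ := Ideal.Quotient.mk_surjective a
      obtain ⟨b, rfl⟩ := Ideal.Quotient.mk_surjective b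
      simp only [AddMonoidHom.coe_mk, ZeroHom.coe_mk, map_mul, hψ]
      rw [TrivSqZeroExt.snd_mul]
      simp [φ, π0, mul_comm])
  refine ⟨E, fun p => ?_⟩
  rw [hE]
  simp only [AddMonoidHom.coe_mk, ZeroHom.coe_mk, hψ]
  simp [φ, π0]
  rfl

/-- position of the derivative `x_j^{(s)}` in the sequence with `c j` virtual states -/
def ee {n : ℕ} (c : Fin n → ℕ) (p : Fin n × ℕ) : ℕ := (p.2 + c p.1) * n + p.1

lemma ee_mod {n : ℕ} (c : Fin n → ℕ) (p : Fin n × ℕ) : ee c p % n = p.1 := by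
  rw [ee, Nat.mul_add_mod_self_right, Nat.mod_eq_of_lt p.1.2]

lemma ee_div {n : ℕ} (hn : 0 < n) (c : Fin n → ℕ) (p : Fin n × ℕ) : ee c p / n = p.2 + c p.1 := by
  rw [ee, mul_comm, Nat.mul_add_div hn, Nat.div_eq_of_lt p.1.2, add_zero]

lemma ee_inj {n : ℕ} (hn : 0 < n) (c : Fin n → ℕ) : Function.Injective (ee c) := by
  intro p q h
  have h1 : (p.1 : ℕ) = q.1 := by rw [← ee_mod c p, ← ee_mod c q, h]
  have h1' : p.1 = q.1 := Fin.ext h1
  have h2 : p.2 + c p.1 = q.2 + c q.1 := by rw [← ee_div hn c p, ← ee_div hn c q, h]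
  rw [h1'] at h2
  exact Prod.ext h1' (by omega)

/-- the virtual states -/
abbrev VV {n : ℕ} (c : Fin n → ℕ) : Type := Σ j : Fin n, Fin (c j)

section

variable {K F0 : Type} [Field K] [Field F0] [Algebra K F0] {n : ℕ} (hn : 0 < n)
  (d0 : Der F0) (π0 : MvPolynomial (Fin n × ℕ) K →ₐ[K] F0) (c : Fin n → ℕ)

/-- the residue class -/
def md (k : ℕ) : Fin n := ⟨k % n, Nat.mod_lt _ hn⟩

/-- the derivation on the polynomial ring in the virtual states -/
noncomputable def dB : Der (MvPolynomial (VV c) F0) :=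
  mvDer d0 (fun v => if h : (v.2 : ℕ) + 1 < c v.1 then MvPolynomial.X ⟨v.1, ⟨(v.2 : ℕ) + 1, h⟩⟩
    else MvPolynomial.C (π0 (MvPolynomial.X (v.1, 0))))

/-- the double sequence, in the polynomial ring -/
noncomputable def yy (j : Fin n) (s : ℕ) : MvPolynomial (VV c) F0 :=
  if h : s < c j then MvPolynomial.X ⟨j, ⟨s, h⟩⟩
    else MvPolynomial.C (π0 (MvPolynomial.X (j, s - c j)))

/-- the sequence, in the polynomial ring -/
noncomputable def yB (k : ℕ) : MvPolynomial (VV c) F0 := yy π0 c (md hn k) (k / n)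

lemma md_add (k : ℕ) : md hn (k + n) = md hn k := by
  apply Fin.ext
  simp [md]

lemma dB_yy (D : Der (MvPolynomial (Fin n × ℕ) K))
    (hDX : ∀ j s, D (MvPolynomial.X (j, s)) = MvPolynomial.X (j, s + 1))
    (h0 : ∀ p, d0 (π0 p) = π0 (D p)) (j : Fin n) (s : ℕ) :
    dB d0 π0 c (yy π0 c j s) = yy π0 c j (s + 1) := by
  by_cases h : s < c j
  · have h1 : yy π0 c j s = MvPolynomial.X ⟨j, ⟨s, h⟩⟩ := by
      simp only [yy, dif_pos h]
    rw [h1, dB, mvDer_X]
    simp only [yy]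
    by_cases h2 : s + 1 < c j
    · rw [dif_pos h2, dif_pos h2]
    · rw [dif_neg h2, dif_neg h2]
      have h3 : s + 1 - c j = 0 := by omega
      rw [h3]
  · have h1 : yy π0 c j s = MvPolynomial.C (π0 (MvPolynomial.X (j, s - c j))) := by
      simp only [yy, dif_neg h]
    rw [h1, dB, mvDer_C, h0, hDX]
    simp only [yy]
    rw [dif_neg (by omega)]
    have h3 : s + 1 - c j = s - c j + 1 := by omega
    rw [h3]

lemma dB_yB (D : Der (MvPolynomial (Fin n × ℕ) K))
    (hDX : ∀ j s, D (MvPolynomial.X (j, s)) = MvPolynomial.X (j, s + 1))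
    (h0 : ∀ p, d0 (π0 p) = π0 (D p)) (k : ℕ) :
    dB d0 π0 c (yB hn π0 c k) = yB hn π0 c (k + n) := by
  have hdiv : (k + n) / n = k / n + 1 := Nat.add_div_right _ hn
  rw [yB, yB, dB_yy d0 π0 c D hDX h0, md_add, hdiv]

lemma yB_ee (p : Fin n × ℕ) : yB hn π0 c (ee c p) = MvPolynomial.C (π0 (MvPolynomial.X p)) := by
  have h1 : md hn (ee c p) = p.1 := Fin.ext (ee_mod c p)
  have h2 : ee c p / n = p.2 + c p.1 := ee_div hn c p
  rw [yB, h1, h2, yy]
  rw [dif_neg (by omega), Nat.add_sub_cancel]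

lemma yB_virt (v : VV c) : yB hn π0 c ((v.2 : ℕ) * n + v.1) = MvPolynomial.X v := by
  have h1 : md hn ((v.2 : ℕ) * n + v.1) = v.1 := by
    apply Fin.ext
    simp only [md]
    rw [Nat.mul_add_mod_self_right, Nat.mod_eq_of_lt v.1.2]
  have h2 : ((v.2 : ℕ) * n + v.1) / n = v.2 := by
    rw [mul_comm, Nat.mul_add_div hn, Nat.div_eq_of_lt v.1.2, add_zero]
  rw [yB, h1, h2, yy, dif_pos v.2.2]

include hn in
/-- every index is real or virtual -/
lemma real_or_virt (k : ℕ) : (∃ p : Fin n × ℕ, ee c p = k) ∨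
    (∃ v : VV c, (v.2 : ℕ) * n + v.1 = k) := by
  have hk : k / n * n + k % n = k := Nat.div_add_mod' k n
  by_cases h : k / n < c (md hn k)
  · exact Or.inr ⟨⟨md hn k, ⟨k / n, h⟩⟩, hk⟩
  · left
    refine ⟨(md hn k, k / n - c (md hn k)), ?_⟩
    simp only [ee]
    rw [Nat.sub_add_cancel (not_lt.1 h)]
    exact hk

/-- the hom from polynomials in the virtual states over `R` -/
noncomputable def theta : MvPolynomial (VV c) (MvPolynomial (Fin n × ℕ) K) →+* MvPolynomial ℕ K :=
  MvPolynomial.eval₂Hom ((MvPolynomial.rename (ee c) :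
    MvPolynomial (Fin n × ℕ) K →ₐ[K] MvPolynomial ℕ K) : _ →+* _)
    (fun v => MvPolynomial.X ((v.2 : ℕ) * n + v.1))

include hn in
lemma theta_surj : Function.Surjective (theta (K := K) c) := by
  intro G
  induction G using MvPolynomial.induction_on with
  | C a => exact ⟨MvPolynomial.C (MvPolynomial.C a), by simp [theta]⟩
  | add p q hp hq =>
    obtain ⟨p', rfl⟩ := hp
    obtain ⟨q', rfl⟩ := hq
    exact ⟨p' + q', map_add _ _ _⟩
  | mul_X p k hp =>
    obtain ⟨p', rfl⟩ := hp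
    have hk : ∃ q, theta (K := K) c q = MvPolynomial.X k := by
      rcases real_or_virt hn c k with ⟨p, hp⟩ | ⟨v, hv⟩
      · exact ⟨MvPolynomial.C (MvPolynomial.X p), by simp [theta, hp]⟩
      · exact ⟨MvPolynomial.X v, by simp [theta, hv]⟩
    obtain ⟨q, hq⟩ := hk
    exact ⟨p' * q, by rw [map_mul, hq]⟩

lemma aeval_theta (G : MvPolynomial (VV c) (MvPolynomial (Fin n × ℕ) K)) :
    MvPolynomial.aeval (yB hn π0 c) (theta c G) =
      MvPolynomial.map (π0 : MvPolynomial (Fin n × ℕ) K →+* F0) G := by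
  have h : ((MvPolynomial.aeval (yB hn π0 c) : MvPolynomial ℕ K →ₐ[K] MvPolynomial (VV c) F0) :
      MvPolynomial ℕ K →+* MvPolynomial (VV c) F0).comp (theta c) =
      MvPolynomial.map (π0 : MvPolynomial (Fin n × ℕ) K →+* F0) := by
    apply MvPolynomial.ringHom_ext
    · intro r
      simp only [RingHom.comp_apply, theta, MvPolynomial.coe_eval₂Hom, MvPolynomial.eval₂_C,
        MvPolynomial.map_C, RingHom.coe_coe]
      have h2 : ((MvPolynomial.aeval (yB hn π0 c) : MvPolynomial ℕ K →ₐ[K]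
          MvPolynomial (VV c) F0)).comp (MvPolynomial.rename (ee c)) =
          ((Algebra.ofId F0 (MvPolynomial (VV c) F0)).restrictScalars K).comp π0 := by
        apply MvPolynomial.algHom_ext
        intro p
        simp only [AlgHom.comp_apply, MvPolynomial.rename_X, MvPolynomial.aeval_X, yB_ee]
        rfl
      exact congrArg (fun g : MvPolynomial (Fin n × ℕ) K →ₐ[K] MvPolynomial (VV c) F0 => g r) h2
    · intro v
      simp only [RingHom.comp_apply, theta, MvPolynomial.coe_eval₂Hom, MvPolynomial.eval₂_X,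
        RingHom.coe_coe, MvPolynomial.aeval_X, MvPolynomial.map_X, yB_virt]
  exact congrArg (fun g : MvPolynomial (VV c) (MvPolynomial (Fin n × ℕ) K) →+* _ => g G) h

end

end Pool.Agent.JB
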