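import Mathlib
import Pool.Agent.Work.MP_71fd89_ag.JBVirt

/-! # From a component to the data `Sys` -/

set_option autoImplicit false

namespace Pool.Agent.JB

open Algebra

theorem isAlgebraic_seq {K F0 F : Type} [Field K] [Field F0] [Algebra K F0] {n : ℕ} (hn : 0 < n)
    (π0 : MvPolynomial (Fin n × ℕ) K →ₐ[K] F0) (c : Fin n → ℕ)
    (hfrac : ∀ x : F0, ∃ p q, π0 q ≠ 0 ∧ x = π0 p / π0 q) [Field F] [Algebra K F]
    [Algebra (MvPolynomial (VV c) F0) F] [IsFractionRing (MvPolynomial (VV c) F0) F]
    [IsScalarTower K (MvPolynomial (VV c) F0) F] :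
    Algebra.IsAlgebraic (adjoin K (Set.range fun k =>
      algebraMap (MvPolynomial (VV c) F0) F (yB hn π0 c k))) F := by
  set A := adjoin K (Set.range fun k => algebraMap (MvPolynomial (VV c) F0) F (yB hn π0 c k))
    with hA
  have hin : ∀ x ∈ A, IsAlgebraic A x := fun x hx => isAlgebraic_algebraMap (⟨x, hx⟩ : A)
  have hy : ∀ k, algebraMap (MvPolynomial (VV c) F0) F (yB hn π0 c k) ∈ A := fun k =>
    subset_adjoin ⟨k, rfl⟩
  have hπ : ∀ p, algebraMap (MvPolynomial (VV c) F0) F (MvPolynomial.C (π0 p)) ∈ A := by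
    intro p
    induction p using MvPolynomial.induction_on with
    | C a =>
      have h1 : algebraMap (MvPolynomial (VV c) F0) F (MvPolynomial.C (π0 (MvPolynomial.C a))) =
          algebraMap K F a := by
        rw [IsScalarTower.algebraMap_apply K (MvPolynomial (VV c) F0) F]
        congr 1
        have h2 : (MvPolynomial.C a : MvPolynomial (Fin n × ℕ) K) = algebraMap K _ a := rfl
        rw [h2, AlgHom.commutes, IsScalarTower.algebraMap_apply K F0 (MvPolynomial (VV c) F0)]
        rfl
      rw [h1]
      exact A.algebraMap_mem a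
    | add p q hp hq => rw [map_add, map_add, map_add]; exact A.add_mem hp hq
    | mul_X p k hp =>
      rw [map_mul, map_mul, map_mul]
      refine A.mul_mem hp ?_
      rw [← yB_ee hn π0 c k]
      exact hy _
  have hB : ∀ b, IsAlgebraic A (algebraMap (MvPolynomial (VV c) F0) F b) := by
    intro b
    induction b using MvPolynomial.induction_on with
    | C f =>
      obtain ⟨p, q, hq, rfl⟩ := hfrac f
      have h1 : algebraMap (MvPolynomial (VV c) F0) F (MvPolynomial.C (π0 p / π0 q)) =
          algebraMap (MvPolynomial (VV c) F0) F (MvPolynomial.C (π0 p)) *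
          (algebraMap (MvPolynomial (VV c) F0) F (MvPolynomial.C (π0 q)))⁻¹ := by
        have hne : algebraMap (MvPolynomial (VV c) F0) F (MvPolynomial.C (π0 q)) ≠ 0 := by
          intro h0
          have h2 := (IsFractionRing.injective (MvPolynomial (VV c) F0) F) (h0.trans
            (map_zero _).symm)
          exact hq (MvPolynomial.C_injective _ _ (h2.trans (map_zero _).symm))
        rw [eq_mul_inv_iff_mul_eq₀ hne, ← map_mul, ← map_mul, div_mul_cancel₀ _ hq]
      rw [h1]
      exact (hin _ (hπ p)).mul (hin _ (hπ q)).inv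
    | add p q hp hq => rw [map_add]; exact hp.add hq
    | mul_X p v hp =>
      rw [map_mul]
      refine hp.mul (hin _ ?_)
      rw [← yB_virt hn π0 c v]
      exact hy _
  constructor
  intro x
  obtain ⟨b1, b2, _, rfl⟩ := IsFractionRing.div_surjective (A := MvPolynomial (VV c) F0) x
  rw [div_eq_mul_inv]
  exact (hB b1).mul (hB b2).inv

/-- From a component of finite dimension to the data `Sys`, with `c j` virtual states
for the `j`-th unknown. -/
theorem exists_sys' {K : Type} [Field K] [CharZero K] {n : ℕ} (hn : 0 < n) (d : Der K)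
    (D : Der (MvPolynomial (Fin n × ℕ) K))
    (hDC : ∀ c : K, D (MvPolynomial.C c) = MvPolynomial.C (d c))
    (hDX : ∀ (j : Fin n) (s : ℕ), D (MvPolynomial.X (j, s)) = MvPolynomial.X (j, s + 1))
    (u : Fin n → MvPolynomial (Fin n × ℕ) K) (P : Ideal (MvPolynomial (Fin n × ℕ) K))
    (hP : P ∈ (Ideal.span {g : MvPolynomial (Fin n × ℕ) K |
      ∃ (i : Fin n) (k : ℕ), g = (D^[k]) (u i)}).minimalPrimes)
    (hfin : Algebra.trdeg K (MvPolynomial (Fin n × ℕ) K ⧸ P) < Cardinal.aleph0)
    (c : Fin n → ℕ) :
    ∃ (F : Type) (_ : Field F) (_ : CharZero F) (_ : Algebra K F) (A : Sys K F (Fin n)),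
      A.n = n ∧ (∀ i, A.u i = MvPolynomial.rename (ee c) (u i)) ∧
      (∀ p, A.D (MvPolynomial.rename (ee c) p) = MvPolynomial.rename (ee c) (D p)) ∧
      (∃ j : (MvPolynomial (Fin n × ℕ) K ⧸ P) →+* F, Function.Injective j ∧
        ∀ p : MvPolynomial (Fin n × ℕ) K, MvPolynomial.aeval A.y (MvPolynomial.rename (ee c) p) =
          j (Ideal.Quotient.mk P p)) ∧
      ∃ t : ℕ, Algebra.trdeg K (MvPolynomial (Fin n × ℕ) K ⧸ P) = t ∧
        t + ∑ j, c j = A.S.card := by
  classical
  have hPp : P.IsPrime := hP.1.1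
  set J := Ideal.span {g : MvPolynomial (Fin n × ℕ) K | ∃ (i : Fin n) (k : ℕ), g = (D^[k]) (u i)}
    with hJdef
  have hJD : ∀ x ∈ J, D x ∈ J := by
    intro x hx
    refine Submodule.span_induction ?_ ?_ ?_ ?_ hx
    · rintro g ⟨i, k, rfl⟩
      refine Ideal.subset_span ⟨i, k + 1, ?_⟩
      rw [Function.iterate_succ_apply']
    · rw [map_zero]; exact J.zero_mem
    · intro a b _ _ ha hb
      rw [map_add]; exact J.add_mem ha hb
    · intro a b hb hb'
      rw [smul_eq_mul, D.mul]
      exact J.add_mem (J.mul_mem_left _ hb') (J.mul_mem_right _ hb)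
  have hPD := min_stable D J P hJD hP
  obtain ⟨d0, hd0⟩ := exists_quot_der D P hPD
  let F0 := FractionRing (MvPolynomial (Fin n × ℕ) K ⧸ P)
  let π0 : MvPolynomial (Fin n × ℕ) K →ₐ[K] F0 :=
    (IsScalarTower.toAlgHom K (MvPolynomial (Fin n × ℕ) K ⧸ P) F0).comp (Ideal.Quotient.mkₐ K P)
  have hπ0 : ∀ p, π0 p = algebraMap (MvPolynomial (Fin n × ℕ) K ⧸ P) F0
    (Ideal.Quotient.mk P p) := fun p => rfl
  have h0 : ∀ p, d0 (π0 p) = π0 (D p) := fun p => hd0 p
  have hker : ∀ p, π0 p = 0 ↔ p ∈ P := by
    intro p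
    rw [hπ0, map_eq_zero_iff _ (IsFractionRing.injective _ _), Ideal.Quotient.eq_zero_iff_mem]
  have hfrac : ∀ x : F0, ∃ p q, π0 q ≠ 0 ∧ x = π0 p / π0 q := by
    intro x
    obtain ⟨a, b, hb, rfl⟩ := IsFractionRing.div_surjective
      (A := MvPolynomial (Fin n × ℕ) K ⧸ P) x
    obtain ⟨p, rfl⟩ := Ideal.Quotient.mk_surjective a
    obtain ⟨q, rfl⟩ := Ideal.Quotient.mk_surjective b
    refine ⟨p, q, ?_, rfl⟩
    rw [hπ0, map_ne_zero_iff _ (IsFractionRing.injective _ _)]
    exact nonZeroDivisors.ne_zero hb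
  have hF00 : CharZero F0 := charZero_of_injective_algebraMap (algebraMap K F0).injective
  let B := MvPolynomial (VV c) F0
  let F := FractionRing B
  have hF0 : CharZero F := charZero_of_injective_algebraMap (algebraMap F0 F).injective
  obtain ⟨dF, hdF⟩ := exists_der_frac (A := B) (F := F) (cD (algebraMap B F) (dB d0 π0 c))
    (cD_leib _ _)
  have hdF' : ∀ b, dF (algebraMap B F b) = algebraMap B F (dB d0 π0 c b) := hdF
  let y : ℕ → F := fun k => algebraMap B F (yB hn π0 c k)
  have halg : Algebra.IsAlgebraic (adjoin K (Set.range y)) F :=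
    isAlgebraic_seq hn π0 c hfrac (F := F)
  -- transcendence degrees
  obtain ⟨t, ht⟩ := Cardinal.lt_aleph0.1 hfin
  have hinjF0 : Function.Injective (algebraMap (MvPolynomial (Fin n × ℕ) K ⧸ P) F0) :=
    IsFractionRing.injective _ _
  have hfs1 : FaithfulSMul (MvPolynomial (Fin n × ℕ) K ⧸ P) F0 :=
    (faithfulSMul_iff_algebraMap_injective _ _).2 hinjF0
  have hfs0 : FaithfulSMul K (MvPolynomial (Fin n × ℕ) K ⧸ P) :=
    (faithfulSMul_iff_algebraMap_injective K (MvPolynomial (Fin n × ℕ) K ⧸ P)).2
      (algebraMap K (MvPolynomial (Fin n × ℕ) K ⧸ P)).injective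
  have ht0 : Algebra.trdeg K F0 = t := by
    rw [← trdeg_add_eq K (MvPolynomial (Fin n × ℕ) K ⧸ P) (A := F0), ht]
    have h1 : Algebra.IsAlgebraic (MvPolynomial (Fin n × ℕ) K ⧸ P) F0 :=
      IsLocalization.isAlgebraic _ (nonZeroDivisors (MvPolynomial (Fin n × ℕ) K ⧸ P))
    rw [trdeg_eq_zero, add_zero]
  have htF : Algebra.trdeg K F = ((t + ∑ j, c j : ℕ) : Cardinal) := by
    rw [← trdeg_add_eq K F0 (A := F), ht0]
    have h1 : Algebra.trdeg F0 F = Algebra.trdeg F0 B := by
      have hfs2 : FaithfulSMul B F := (faithfulSMul_iff_algebraMap_injective _ _).2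
        (IsFractionRing.injective _ _)
      rw [← trdeg_add_eq F0 B (A := F)]
      have h2 : Algebra.IsAlgebraic B F := IsLocalization.isAlgebraic _ (nonZeroDivisors B)
      rw [trdeg_eq_zero (R := B) (A := F), add_zero]
    rw [h1, MvPolynomial.trdeg_of_isDomain]
    simp
  have hfinF : Algebra.trdeg K F < Cardinal.aleph0 := by
    rw [htF]; exact Cardinal.natCast_lt_aleph0
  obtain ⟨S, hS, hS'⟩ := greedy (K := K) y halg hfinF
  -- the derivation on the sequence ring
  let D' : Der (MvPolynomial ℕ K) := mvDer d (fun k => MvPolynomial.X (k + n))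
  have hren : ∀ p, MvPolynomial.rename (ee c) (D p) = D' (MvPolynomial.rename (ee c) p) := by
    intro p
    apply intertwine ((MvPolynomial.rename (ee c) : MvPolynomial (Fin n × ℕ) K →ₐ[K]
      MvPolynomial ℕ K) : MvPolynomial (Fin n × ℕ) K →+* MvPolynomial ℕ K)
    · intro b
      rw [hDC]
      simp [D']
    · rintro ⟨j, s⟩
      rw [hDX]
      simp only [RingHom.coe_coe, MvPolynomial.rename_X, D', mvDer_X]
      congr 1
      simp only [ee]
      ring
  have hrenk : ∀ k p, MvPolynomial.rename (ee c) ((D^[k]) p) =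
      (D'^[k]) (MvPolynomial.rename (ee c) p) := by
    intro k
    induction k with
    | zero => intro p; rfl
    | succ k ih => intro p; rw [Function.iterate_succ_apply, Function.iterate_succ_apply, ih, hren]
  -- evaluation
  have hy2 : ∀ G : MvPolynomial ℕ K, MvPolynomial.aeval y G =
      algebraMap B F (MvPolynomial.aeval (yB hn π0 c) G) := by
    intro G
    have := MvPolynomial.aeval_algebraMap_apply F (yB hn π0 c) G
    exact this
  have hthetaeval : ∀ G' : MvPolynomial (VV c) (MvPolynomial (Fin n × ℕ) K),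
      MvPolynomial.aeval y (theta c G') =
      algebraMap B F (MvPolynomial.map (π0 : MvPolynomial (Fin n × ℕ) K →+* F0) G') := by
    intro G'
    rw [hy2, aeval_theta]
  have hren0 : ∀ p : MvPolynomial (Fin n × ℕ) K,
      MvPolynomial.aeval y (MvPolynomial.rename (ee c) p) =
      algebraMap B F (MvPolynomial.C (π0 p)) := by
    intro p
    have h1 : MvPolynomial.rename (ee c) p = theta c (MvPolynomial.C p) := by
      simp [theta]
    rw [h1, hthetaeval, MvPolynomial.map_C]
    rfl
  let A : Sys K F (Fin n) :=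
    { n := n
      hn := hn
      y := y
      d := d
      D := D'
      dF := dF
      u := fun i => MvPolynomial.rename (ee c) (u i)
      S := S
      hDC := by intro c; simp [D']
      hDX := by intro k; simp [D']
      hdF := by
        intro a
        have h1 : algebraMap K F a = algebraMap B F (MvPolynomial.C (π0 (MvPolynomial.C a))) := by
          rw [← hren0]; simp
        rw [h1, hdF', dB, mvDer_C, h0, hDC, ← hren0]
        simp
      hy := by
        intro k
        change dF (algebraMap B F _) = algebraMap B F _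
        rw [hdF', dB_yB hn d0 π0 c D hDX h0]
      hu := by
        intro i
        rw [hren0]
        have h1 : π0 (u i) = 0 := (hker _).2 (hP.1.2 (Ideal.subset_span ⟨i, 0, rfl⟩))
        rw [h1, map_zero, map_zero]
      hS := hS
      hS' := hS'
      hmin := by
        intro G hG
        obtain ⟨G', rfl⟩ := theta_surj (K := K) hn c G
        rw [hthetaeval, map_eq_zero_iff _ (IsFractionRing.injective B F)] at hG
        have hcoef : ∀ m, MvPolynomial.coeff m G' ∈ P := by
          intro m
          rw [← hker]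
          have := congrArg (MvPolynomial.coeff m) hG
          simpa [MvPolynomial.coeff_map] using this
        choose h hh hh' using fun m => exists_mul_mem_radical J P hP _ (hcoef m)
        let H := ∏ m ∈ G'.support, h m
        have hHP : H ∉ P := by
          intro hH
          obtain ⟨m, _, hm⟩ := (hPp.prod_mem_iff).1 hH
          exact hh m hm
        have hHm : ∀ m ∈ G'.support, H * MvPolynomial.coeff m G' ∈ J.radical := by
          intro m hm
          have h1 : H = (∏ x ∈ G'.support.erase m, h x) * h m := by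
            rw [Finset.prod_erase_mul _ _ hm]
          rw [h1, mul_assoc]
          exact Ideal.mul_mem_left _ _ (hh' m)
        set J' := Ideal.span {g : MvPolynomial ℕ K | ∃ (i : Fin n) (k : ℕ),
          g = (D'^[k]) (MvPolynomial.rename (ee c) (u i))} with hJ'
        have hJJ' : ∀ x ∈ J, MvPolynomial.rename (ee c) x ∈ J' := by
          intro x hx
          have hle : J ≤ J'.comap ((MvPolynomial.rename (ee c) : MvPolynomial (Fin n × ℕ) K →ₐ[K]
              MvPolynomial ℕ K) : MvPolynomial (Fin n × ℕ) K →+* MvPolynomial ℕ K) := by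
            rw [hJdef, Ideal.span_le]
            rintro g ⟨i, k, rfl⟩
            refine Ideal.subset_span ⟨i, k, ?_⟩
            exact hrenk k (u i)
          exact hle hx
        have hJJr : ∀ x ∈ J.radical, MvPolynomial.rename (ee c) x ∈ J'.radical := by
          rintro x ⟨N, hN⟩
          refine ⟨N, ?_⟩
          rw [← map_pow]
          exact hJJ' _ hN
        refine ⟨theta c (MvPolynomial.C H), ?_, ?_⟩
        · rw [hthetaeval, MvPolynomial.map_C, map_ne_zero_iff _ (IsFractionRing.injective B F)]
          intro h1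
          have h2 : π0 H = 0 := MvPolynomial.C_injective _ _ (h1.trans (map_zero _).symm)
          exact hHP ((hker H).1 h2)
        · change theta c (MvPolynomial.C H) * theta c G' ∈ J'.radical
          rw [← map_mul]
          have h1 : MvPolynomial.C H * G' = ∑ m ∈ G'.support,
              MvPolynomial.C (H * MvPolynomial.coeff m G') * MvPolynomial.monomial m 1 := by
            conv_lhs => rw [G'.as_sum, Finset.mul_sum]
            refine Finset.sum_congr rfl (fun m _ => ?_)
            simp only [MvPolynomial.C_mul_monomial, mul_one]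
          rw [h1, map_sum]
          refine Ideal.sum_mem _ (fun m hm => ?_)
          rw [map_mul]
          refine Ideal.mul_mem_right _ _ ?_
          have h2 : theta c (MvPolynomial.C (H * MvPolynomial.coeff m G')) =
              MvPolynomial.rename (ee c) (H * MvPolynomial.coeff m G') := by
            simp [theta]
          rw [h2]
          exact hJJr _ (hHm m hm) }
  let jj : (MvPolynomial (Fin n × ℕ) K ⧸ P) →+* F :=
    ((algebraMap B F).comp MvPolynomial.C).comp
      (algebraMap (MvPolynomial (Fin n × ℕ) K ⧸ P) F0)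
  have hjj : Function.Injective jj := by
    intro a b hab
    exact hinjF0 (MvPolynomial.C_injective _ _ (IsFractionRing.injective B F hab))
  refine ⟨F, inferInstance, hF0, inferInstance, A, rfl, fun i => rfl, fun p => (hren p).symm,
    ⟨jj, hjj, fun p => hren0 p⟩, t, ht, ?_⟩
  have h1 := hS.cardinalMk_eq_trdeg
  rw [htF] at h1
  have h2 : Cardinal.mk (S : Set ℕ) = (S.card : Cardinal) := by simp
  have h3 : ((S.card : ℕ) : Cardinal) = ((t + ∑ j, c j : ℕ) : Cardinal) := by
    rw [← h2, ← h1]
  exact (Nat.cast_injective h3).symm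

/-- From a component of finite dimension to the data `Sys`, with `c j` virtual states
for the `j`-th unknown. -/
theorem exists_sys {K : Type} [Field K] [CharZero K] {n : ℕ} (hn : 0 < n) (d : Der K)
    (D : Der (MvPolynomial (Fin n × ℕ) K))
    (hDC : ∀ c : K, D (MvPolynomial.C c) = MvPolynomial.C (d c))
    (hDX : ∀ (j : Fin n) (s : ℕ), D (MvPolynomial.X (j, s)) = MvPolynomial.X (j, s + 1))
    (u : Fin n → MvPolynomial (Fin n × ℕ) K) (P : Ideal (MvPolynomial (Fin n × ℕ) K))
    (hP : P ∈ (Ideal.span {g : MvPolynomial (Fin n × ℕ) K |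
      ∃ (i : Fin n) (k : ℕ), g = (D^[k]) (u i)}).minimalPrimes)
    (hfin : Algebra.trdeg K (MvPolynomial (Fin n × ℕ) K ⧸ P) < Cardinal.aleph0)
    (c : Fin n → ℕ) :
    ∃ (F : Type) (_ : Field F) (_ : CharZero F) (_ : Algebra K F) (A : Sys K F (Fin n)),
      A.n = n ∧ (∀ i, A.u i = MvPolynomial.rename (ee c) (u i)) ∧
      ∃ t : ℕ, Algebra.trdeg K (MvPolynomial (Fin n × ℕ) K ⧸ P) = t ∧
        t + ∑ j, c j = A.S.card := by
  obtain ⟨F, h1, h2, h3, A, h4, h5, _, _, h6⟩ := exists_sys' hn d D hDC hDX u P hP hfin c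
  exact ⟨F, h1, h2, h3, A, h4, h5, h6⟩

end Pool.Agent.JB
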