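import Mathlib
import Pool.Agent.Work.MP_71fd89_ag.JBSys
import Pool.Agent.Work.MP_71fd89_ag.JBCount

/-! # Potentials and matchings; the bound for a component -/

set_option autoImplicit false

namespace Pool.Agent.JB

/-- Egervary duality for order matrices with absent entries. -/
theorem egervary {n : ℕ} (V : Fin n → Finset (Fin n × ℕ)) (t : ℤ)
    (h : ∀ α β : Fin n → ℤ, (∀ i, ∀ v ∈ V i, (v.2 : ℤ) ≤ α i + β v.1) →
      t ≤ ∑ i, α i + ∑ j, β j) :
    ∃ (ρ : Equiv.Perm (Fin n)) (s : Fin n → ℕ), (∀ i, (ρ i, s i) ∈ V i) ∧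
      t ≤ ∑ i, (s i : ℤ) := by
  classical
  have hQ : ∃ m : ℕ, ∃ α β : Fin n → ℤ, (∀ i, ∀ v ∈ V i, (v.2 : ℤ) ≤ α i + β v.1) ∧
      ∑ i, α i + ∑ j, β j = t + m := by
    let M : ℕ := Finset.univ.sup (fun i => (V i).sup (fun v => v.2))
    have hfeas : ∀ i, ∀ v ∈ V i, (v.2 : ℤ) ≤ (fun _ : Fin n => (M : ℤ)) i +
        (fun _ : Fin n => (0 : ℤ)) v.1 := by
      intro i v hv
      have h1 : v.2 ≤ M := (Finset.le_sup (f := fun v : Fin n × ℕ => v.2) hv).trans
        (Finset.le_sup (f := fun i => (V i).sup (fun v => v.2)) (Finset.mem_univ i))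
      simpa using h1
    have h1 := h (fun _ : Fin n => (M : ℤ)) (fun _ : Fin n => (0 : ℤ)) hfeas
    obtain ⟨m, hm⟩ := Int.eq_ofNat_of_zero_le (sub_nonneg.2 h1)
    exact ⟨m, fun _ : Fin n => (M : ℤ), fun _ : Fin n => (0 : ℤ), hfeas, by rw [← hm]; ring⟩
  obtain ⟨α, β, hf, hs⟩ := Nat.find_spec hQ
  let E : Fin n → Finset (Fin n) := fun i =>
    Finset.univ.filter (fun j => ∃ s : ℕ, (j, s) ∈ V i ∧ (s : ℤ) = α i + β j)
  have hall : ∀ X : Finset (Fin n), X.card ≤ (X.biUnion E).card := by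
    intro X
    by_contra hX
    push Not at hX
    let α' : Fin n → ℤ := fun i => α i - if i ∈ X then 1 else 0
    let β' : Fin n → ℤ := fun j => β j + if j ∈ X.biUnion E then 1 else 0
    have hf' : ∀ i, ∀ v ∈ V i, (v.2 : ℤ) ≤ α' i + β' v.1 := by
      intro i v hv
      have h1 := hf i v hv
      by_cases hi : i ∈ X
      · by_cases hj : v.1 ∈ X.biUnion E
        · simp only [α', β', hi, hj, if_true]
          linarith
        · have h2 : (v.2 : ℤ) ≠ α i + β v.1 := by
            intro h3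
            apply hj
            rw [Finset.mem_biUnion]
            exact ⟨i, hi, Finset.mem_filter.2 ⟨Finset.mem_univ _, v.2, hv, h3⟩⟩
          simp only [α', β', hi, hj, if_true, if_false]
          have h4 : (v.2 : ℤ) < α i + β v.1 := lt_of_le_of_ne h1 h2
          linarith [Int.add_one_le_iff.2 h4]
      · have h2 : (0 : ℤ) ≤ if v.1 ∈ X.biUnion E then 1 else 0 := by split_ifs <;> norm_num
        simp only [α', β', hi, if_false]
        linarith
    have h1 := h _ _ hf'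
    have h2 : ∑ i, α' i + ∑ j, β' j = t + (Nat.find hQ : ℤ) - X.card + (X.biUnion E).card := by
      rw [← hs]
      simp only [α', β', Finset.sum_sub_distrib, Finset.sum_add_distrib]
      rw [Finset.sum_ite_mem, Finset.sum_ite_mem]
      simp only [Finset.univ_inter, Finset.sum_const, nsmul_eq_mul, mul_one]
      ring
    have h3 : ∃ m : ℕ, (m : ℤ) = (Nat.find hQ : ℤ) - X.card + (X.biUnion E).card := by
      refine ⟨((Nat.find hQ : ℤ) - X.card + (X.biUnion E).card).toNat, ?_⟩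
      rw [Int.toNat_of_nonneg]
      linarith
    obtain ⟨m, hm⟩ := h3
    have hlt : m < Nat.find hQ := by
      have : (X.biUnion E).card < X.card := hX
      zify at this ⊢
      linarith
    exact Nat.find_min hQ hlt ⟨α', β', hf', by rw [h2, hm]; ring⟩
  obtain ⟨f, hfi, hfE⟩ := (Finset.all_card_le_biUnion_card_iff_exists_injective E).1 hall
  have hbij : Function.Bijective f := Finite.injective_iff_bijective.1 hfi
  have h1 : ∀ i, ∃ s : ℕ, (f i, s) ∈ V i ∧ (s : ℤ) = α i + β (f i) := fun i =>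
    (Finset.mem_filter.1 (hfE i)).2
  choose s hs1 hs2 using h1
  refine ⟨Equiv.ofBijective f hbij, s, hs1, ?_⟩
  have h2 : ∑ i, (s i : ℤ) = ∑ i, α i + ∑ j, β j := by
    rw [← Equiv.sum_comp (Equiv.ofBijective f hbij) β, ← Finset.sum_add_distrib]
    exact Finset.sum_congr rfl (fun i _ => hs2 i)
  rw [h2, hs]
  linarith [Int.natCast_nonneg (Nat.find hQ)]

/-- The bound for a component of finite dimension in terms of potentials. -/
theorem red_bound {K : Type} [Field K] [CharZero K] {n : ℕ} (hn : 2 ≤ n) (d : Der K)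
    (D : Der (MvPolynomial (Fin n × ℕ) K))
    (hDC : ∀ c : K, D (MvPolynomial.C c) = MvPolynomial.C (d c))
    (hDX : ∀ (j : Fin n) (s : ℕ), D (MvPolynomial.X (j, s)) = MvPolynomial.X (j, s + 1))
    (u : Fin n → MvPolynomial (Fin n × ℕ) K) (P : Ideal (MvPolynomial (Fin n × ℕ) K))
    (hP : P ∈ (Ideal.span {g : MvPolynomial (Fin n × ℕ) K |
      ∃ (i : Fin n) (k : ℕ), g = (D^[k]) (u i)}).minimalPrimes)
    (t : ℕ) (ht : Algebra.trdeg K (MvPolynomial (Fin n × ℕ) K ⧸ P) = t)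
    (α β : Fin n → ℤ) (hf : ∀ i, ∀ v ∈ (u i).vars, (v.2 : ℤ) ≤ α i + β v.1)
    (i1 i3 : Fin n) (h13 : i3 ≠ i1) (a b : ℤ) (ha : ∀ i, i ≠ i1 → α i ≤ a) (hab : a ≤ b)
    (hb : α i1 ≤ b) (hu3 : u i3 ≠ 0) :
    (t : ℤ) ≤ ∑ j, β j + b + ((n : ℤ) - 2) * a + α i3 := by
  classical
  have hn0 : 0 < n := by omega
  have hPp : P.IsPrime := hP.1.1
  have hu3P : u i3 ∈ P := hP.1.2 (Ideal.subset_span ⟨i3, 0, rfl⟩)
  have hvne : (u i3).vars.Nonempty := by
    rw [Finset.nonempty_iff_ne_empty]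
    intro h0
    have h1 : u i3 = MvPolynomial.C (MvPolynomial.coeff 0 (u i3)) := by
      rw [← MvPolynomial.totalDegree_eq_zero_iff_eq_C]
      rw [MvPolynomial.totalDegree_eq_zero_iff]
      intro m hm x
      by_contra hx
      have : x ∈ (u i3).vars := (MvPolynomial.mem_vars_iff_mem_support x).2
        ⟨m, hm, Finsupp.mem_support_iff.2 hx⟩
      rw [h0] at this
      simp at this
    have h2 : MvPolynomial.coeff 0 (u i3) ≠ 0 := by
      intro h3
      rw [h3, map_zero] at h1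
      exact hu3 h1
    apply hPp.ne_top
    rw [Ideal.eq_top_iff_one]
    have h3 : (1 : MvPolynomial (Fin n × ℕ) K) =
        MvPolynomial.C (MvPolynomial.coeff 0 (u i3))⁻¹ * u i3 := by
      conv_rhs => rw [h1]
      rw [← map_mul, MvPolynomial.coeff_C, if_pos rfl, inv_mul_cancel₀ h2, map_one]
    rw [h3]
    exact P.mul_mem_left _ hu3P
  obtain ⟨v0, hv0⟩ := hvne
  obtain ⟨B, hB⟩ : ∃ B : ℤ, ∀ j, β j ≤ B := by
    obtain ⟨B, hB⟩ := (Set.finite_range β).bddAbove
    exact ⟨B, fun j => hB ⟨j, rfl⟩⟩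
  have hc : ∀ j, (((B - β j).toNat : ℕ) : ℤ) = B - β j := fun j =>
    Int.toNat_of_nonneg (sub_nonneg.2 (hB j))
  have h3 : 0 ≤ α i3 + B := by
    have h4 := hf i3 v0 hv0
    have h5 := hB v0.1
    have h6 : (0 : ℤ) ≤ v0.2 := Int.natCast_nonneg _
    linarith
  have ha3 := ha i3 h13
  have he3 : (((α i3 + B).toNat : ℕ) : ℤ) = α i3 + B := Int.toNat_of_nonneg h3
  have he2 : (((a + B).toNat : ℕ) : ℤ) = a + B := Int.toNat_of_nonneg (by linarith)
  have he1 : (((b + B).toNat : ℕ) : ℤ) = b + B := Int.toNat_of_nonneg (by linarith)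
  obtain ⟨F, hF1, hF2, hF3, A, hAn, hAu, t', ht', hcard⟩ := exists_sys hn0 d D hDC hDX u P hP
    (by rw [ht]; exact Cardinal.natCast_lt_aleph0) (fun j => (B - β j).toNat)
  have htt : t' = t := by
    rw [ht] at ht'
    exact (Nat.cast_injective ht').symm
  rw [htt] at hcard
  have hvars : ∀ i (e : ℕ), (∀ v ∈ (u i).vars, (v.2 : ℤ) + (B - β v.1) ≤ e) →
      ∀ k ∈ (A.u i).vars, k < (e + 1) * A.n := by
    intro i e he k hk
    rw [hAu] at hk
    have h4 := MvPolynomial.vars_rename _ _ hk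
    rw [Finset.mem_image] at h4
    obtain ⟨v, hv, rfl⟩ := h4
    have h5 := he v hv
    rw [← hc] at h5
    have h6 : v.2 + (B - β v.1).toNat ≤ e := by exact_mod_cast h5
    rw [hAn]
    simp only [ee]
    have h7 : (v.2 + (B - β v.1).toNat) * n ≤ e * n := Nat.mul_le_mul_right _ h6
    have h8 := v.1.2
    linarith [add_mul e 1 n]
  have hb2 := Sys.bound A (by rw [hAn]; exact hn) i1 i3 (b + B).toNat (a + B).toNat
    (α i3 + B).toNat (by omega) (by omega)
    (hvars i1 _ (fun v hv => by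
      have := hf i1 v hv
      rw [he1]; linarith))
    (fun i hi => hvars i _ (fun v hv => by
      have := hf i v hv
      have := ha i hi
      rw [he2]; linarith))
    (hvars i3 _ (fun v hv => by
      have := hf i3 v hv
      rw [he3]; linarith))
    (by
      rw [hAu]
      intro h0
      exact hu3 ((MvPolynomial.rename_injective _ (ee_inj hn0 _)) (h0.trans (map_zero _).symm)))
  rw [← hcard, hAn] at hb2
  obtain ⟨n', rfl⟩ : ∃ n', n = n' + 2 := ⟨n - 2, by omega⟩
  rw [Nat.add_sub_cancel] at hb2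
  have hb3 : (t : ℤ) + ∑ j, (B - β j) ≤ (b + B) + (n' : ℤ) * (a + B) + (α i3 + B) := by
    have h4 : ((t + ∑ j, (B - β j).toNat : ℕ) : ℤ) ≤
        (((b + B).toNat + n' * (a + B).toNat + (α i3 + B).toNat : ℕ) : ℤ) := by
      exact_mod_cast hb2
    push_cast at h4
    rw [Finset.sum_congr rfl (fun j _ => hc j)] at h4
    rw [he1, he2, he3] at h4
    exact h4
  rw [Finset.sum_sub_distrib, Finset.sum_const, Finset.card_univ, Fintype.card_fin,
    nsmul_eq_mul] at hb3
  push_cast at hb3 ⊢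
  linarith

end Pool.Agent.JB
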