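import Mathlib
import Pool.Agent.Work.MP_71fd89_ag.JBDual

/-! # The bound for Mathlib derivations; sorting; from potentials to the tropical determinant -/

set_option autoImplicit false

namespace Pool.Agent.JB

/-- A Mathlib derivation as a `Der`. -/
def ofDerivation {A : Type} [CommRing A] (D : Derivation ℤ A A) : Der A :=
  ⟨(D : A →ₗ[ℤ] A).toAddMonoidHom, by
    intro a b
    exact D.leibniz a b⟩

lemma coe_ofDerivation {A : Type} [CommRing A] (D : Derivation ℤ A A) :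
    (⇑(ofDerivation D) : A → A) = ⇑D := rfl

/-- If every feasible pair of potentials bounds `t`, so does the tropical determinant of the
order matrix. -/
theorem tdet_of_potentials {K : Type} [Field K] {n : ℕ}
    (u : Fin n → MvPolynomial (Fin n × ℕ) K) (t : ℕ)
    (h : ∀ α β : Fin n → ℤ, (∀ i, ∀ v ∈ (u i).vars, (v.2 : ℤ) ≤ α i + β v.1) →
      (t : ℤ) ≤ ∑ i, α i + ∑ j, β j) :
    ∃ m : ℕ,
      (Finset.univ.sup (fun ρ : Equiv.Perm (Fin n) =>
          ∑ i : Fin n, (u i).vars.sup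
            (fun v => if v.1 = ρ i then (v.2 : WithBot ℕ) else (⊥ : WithBot ℕ)))) =
              (m : WithBot ℕ) ∧ t ≤ m := by
  classical
  obtain ⟨ρ, s, hs, hts⟩ := egervary (fun i => (u i).vars) t h
  set T := Finset.univ.sup (fun ρ : Equiv.Perm (Fin n) =>
          ∑ i : Fin n, (u i).vars.sup
            (fun v => if v.1 = ρ i then (v.2 : WithBot ℕ) else (⊥ : WithBot ℕ))) with hT
  have h1 : ((∑ i, s i : ℕ) : WithBot ℕ) ≤ T := by
    have h2 : ((∑ i, s i : ℕ) : WithBot ℕ) ≤ ∑ i : Fin n, (u i).vars.sup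
            (fun v => if v.1 = ρ i then (v.2 : WithBot ℕ) else (⊥ : WithBot ℕ)) := by
      rw [Nat.cast_sum]
      refine Finset.sum_le_sum (fun i _ => ?_)
      have h3 := Finset.le_sup
        (f := fun v : Fin n × ℕ => if v.1 = ρ i then (v.2 : WithBot ℕ) else (⊥ : WithBot ℕ))
        (hs i)
      simpa using h3
    exact h2.trans (Finset.le_sup (f := fun ρ : Equiv.Perm (Fin n) =>
          ∑ i : Fin n, (u i).vars.sup
            (fun v => if v.1 = ρ i then (v.2 : WithBot ℕ) else (⊥ : WithBot ℕ)))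
            (Finset.mem_univ ρ))
  have hne : T ≠ ⊥ := by
    intro h0
    rw [h0, le_bot_iff] at h1
    exact WithBot.coe_ne_bot h1
  obtain ⟨m, hm⟩ := WithBot.ne_bot_iff_exists.1 hne
  refine ⟨m, hm.symm, ?_⟩
  rw [← hm] at h1
  have h2 : ∑ i, s i ≤ m := WithBot.coe_le_coe.1 h1
  have h3 : (t : ℤ) ≤ ((∑ i, s i : ℕ) : ℤ) := by
    rw [Nat.cast_sum]; exact hts
  have h4 : t ≤ ∑ i, s i := by exact_mod_cast h3
  exact h4.trans h2

/-- Three potentials can be sorted. -/
theorem sort_three (α : Fin 3 → ℤ) : ∃ i1 i2 i3 : Fin 3, i3 ≠ i1 ∧ α i2 ≤ α i1 ∧ α i3 ≤ α i2 ∧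
    (∀ i, i ≠ i1 → α i ≤ α i2) ∧ ∑ i, α i = α i1 + α i2 + α i3 := by
  let σ := Tuple.sort α
  have hm : Monotone (α ∘ σ) := Tuple.monotone_sort α
  have h01 : α (σ 0) ≤ α (σ 1) := hm (by decide)
  have h12 : α (σ 1) ≤ α (σ 2) := hm (by decide)
  refine ⟨σ 2, σ 1, σ 0, ?_, h12, h01, ?_, ?_⟩
  · intro h
    exact absurd (σ.injective h) (by decide)
  · intro i hi
    obtain ⟨k, rfl⟩ := σ.surjective i
    fin_cases k
    · exact h01
    · exact le_rfl
    · exact absurd rfl hi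
  · rw [← Equiv.sum_comp σ α, Fin.sum_univ_three]
    ring

end Pool.Agent.JB
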