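import Mathlib
import Pool.Agent.Work.MP_71fd89_ag.JBDer

/-! # Modules with a derivation: families of iterated derivatives, rank -/

set_option autoImplicit false

namespace Pool.Agent.JB

open Finset

/-- the family of iterated derivatives -/
def fam {M ι : Type} [AddCommGroup M] (dM : M →+ M) (v : ι → M) : ι × ℕ → M :=
  fun p => (dM^[p.2]) (v p.1)

section rank

variable {F M : Type} [Field F] [AddCommGroup M] [Module F M] (δ : Der F) (dM : M →+ M)
  (hd : ∀ (a : F) (m : M), dM (a • m) = δ a • m + a • dM m)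

include hd

/-- At most as many independent elements as generators. -/
theorem rank_le {ι Λ : Type} [Fintype ι] [Fintype Λ] (v : ι → M) (w : Λ → M)
    (hw : ∀ l, w l ∈ Submodule.span F (Set.range (fam dM v)))
    (hind : LinearIndependent F (fam dM w)) : Fintype.card Λ ≤ Fintype.card ι := by
  classical
  let U : ℕ → Submodule F M := fun m => Submodule.span F (fam dM v '' {p | p.2 ≤ m})
  have hUmono : ∀ m m', m ≤ m' → U m ≤ U m' := by
    intro m m' h
    exact Submodule.span_mono (Set.image_mono (fun p hp => le_trans hp h))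
  have hUd : ∀ m x, x ∈ U m → dM x ∈ U (m + 1) := by
    intro m x hx
    refine Submodule.span_induction ?_ ?_ ?_ ?_ hx
    · rintro _ ⟨p, hp, rfl⟩
      refine Submodule.subset_span ⟨(p.1, p.2 + 1), ?_, ?_⟩
      · exact Nat.succ_le_succ hp
      · simp only [fam]
        rw [Function.iterate_succ_apply']
    · rw [map_zero]; exact (U (m + 1)).zero_mem
    · intro a b _ _ ha hb
      rw [map_add]; exact (U (m + 1)).add_mem ha hb
    · intro a b hb hb'
      rw [hd]
      exact (U (m + 1)).add_mem ((U (m + 1)).smul_mem _ (hUmono m (m + 1) (Nat.le_succ m) hb))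
        ((U (m + 1)).smul_mem _ hb')
  have hUds : ∀ s m x, x ∈ U m → (dM^[s]) x ∈ U (m + s) := by
    intro s
    induction s with
    | zero => intro m x hx; exact hx
    | succ s ih =>
      intro m x hx
      rw [Function.iterate_succ_apply']
      exact hUd (m + s) _ (ih m x hx)
  have hex : ∀ l, ∃ c, w l ∈ U c := by
    intro l
    have h1 := hw l
    refine Submodule.span_induction ?_ ?_ ?_ ?_ h1
    · rintro _ ⟨p, rfl⟩
      exact ⟨p.2, Submodule.subset_span ⟨p, (le_rfl : p.2 ≤ p.2), rfl⟩⟩
    · exact ⟨0, (U 0).zero_mem⟩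
    · rintro a b _ _ ⟨c, hc⟩ ⟨c', hc'⟩
      exact ⟨max c c', (U _).add_mem (hUmono _ _ (le_max_left _ _) hc)
        (hUmono _ _ (le_max_right _ _) hc')⟩
    · rintro a b _ ⟨c, hc⟩
      exact ⟨c, (U c).smul_mem _ hc⟩
  choose c hc using hex
  let C := Finset.univ.sup c
  have hC : ∀ l, w l ∈ U C := fun l => hUmono _ _ (Finset.le_sup (Finset.mem_univ l)) (hc l)
  by_contra hcon
  push Not at hcon
  -- dimensions
  let m := Fintype.card ι * C
  let g : Λ × Fin (m + 1) → M := fun p => fam dM w (p.1, (p.2 : ℕ))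
  have hg : LinearIndependent F g := by
    have h1 : Function.Injective (fun p : Λ × Fin (m + 1) => ((p.1, (p.2 : ℕ)) : Λ × ℕ)) := by
      rintro ⟨a, b⟩ ⟨a', b'⟩ h
      simp only [Prod.mk.injEq] at h
      exact Prod.ext h.1 (Fin.ext h.2)
    exact hind.comp _ h1
  let T : Set M := Set.range (fun p : ι × Fin (C + m + 1) => fam dM v (p.1, (p.2 : ℕ)))
  have hUT : U (C + m) ≤ Submodule.span F T := by
    refine Submodule.span_mono ?_
    rintro _ ⟨p, hp, rfl⟩
    exact ⟨(p.1, ⟨p.2, Nat.lt_succ_of_le hp⟩), rfl⟩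
  have hgT : Submodule.span F (Set.range g) ≤ Submodule.span F T := by
    rw [Submodule.span_le]
    rintro _ ⟨p, rfl⟩
    apply hUT
    refine hUmono (C + p.2) _ (by have := p.2.2; omega) ?_
    exact hUds _ _ _ (hC p.1)
  have hTfin : T.Finite := Set.finite_range _
  have : FiniteDimensional F (Submodule.span F T) := FiniteDimensional.span_of_finite F hTfin
  have h1 := Submodule.finrank_mono hgT
  rw [finrank_span_eq_card hg] at h1
  have h2 : Module.finrank F (Submodule.span F T) ≤ Fintype.card (ι × Fin (C + m + 1)) :=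
    finrank_range_le_card (R := F) (fun p : ι × Fin (C + m + 1) => fam dM v (p.1, (p.2 : ℕ)))
  have h3 := h1.trans h2
  rw [Fintype.card_prod, Fintype.card_prod, Fintype.card_fin, Fintype.card_fin] at h3
  have h4 : (Fintype.card ι + 1) * (m + 1) ≤ Fintype.card ι * (C + m + 1) :=
    (Nat.mul_le_mul_right _ hcon).trans h3
  have h5 : Fintype.card ι * C = m := rfl
  nlinarith

end rank

/-! ### The free module -/

section free

variable {F : Type} [Field F] (δ : Der F)

/-- the free module on `ι` over the differential operators -/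
abbrev Fr (F ι : Type) [Field F] := (ι × ℕ) →₀ F

/-- the derivation of the free module -/
noncomputable def dV (ι : Type) : Fr F ι →+ Fr F ι :=
  Finsupp.mapRange.addMonoidHom (δ : F →+ F) +
    Finsupp.mapDomain.addMonoidHom (fun p : ι × ℕ => (p.1, p.2 + 1))

lemma dV_single {ι : Type} (p : ι × ℕ) (a : F) :
    dV δ ι (Finsupp.single p a) = Finsupp.single p (δ a) + Finsupp.single (p.1, p.2 + 1) a := by
  simp [dV, Finsupp.mapDomain_single]

lemma dV_smul {ι : Type} (c : F) (a : Fr F ι) : dV δ ι (c • a) = δ c • a + c • dV δ ι a := by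
  induction a using Finsupp.induction_linear with
  | zero => simp
  | add f g hf hg => rw [smul_add, map_add, hf, hg, map_add, smul_add, smul_add]; abel
  | single p x =>
    rw [Finsupp.smul_single, dV_single, dV_single, smul_eq_mul, δ.mul]
    simp only [smul_add, Finsupp.smul_single, smul_eq_mul, Finsupp.single_add]
    rw [mul_comm (δ c) x]
    abel

lemma dV_succ {ι : Type} (a : Fr F ι) (i : ι) (s : ℕ) :
    dV δ ι a (i, s + 1) = δ (a (i, s + 1)) + a (i, s) := by
  classical
  induction a using Finsupp.induction_linear with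
  | zero => simp
  | add f g hf hg => rw [map_add, Finsupp.add_apply, hf, hg, Finsupp.add_apply,
      Finsupp.add_apply, map_add]; abel
  | single p x =>
    rw [dV_single, Finsupp.add_apply]
    obtain ⟨j, r⟩ := p
    congr 1
    · rw [Finsupp.single_apply, Finsupp.single_apply]
      split_ifs <;> simp
    · rw [Finsupp.single_apply, Finsupp.single_apply]
      simp only [Prod.mk.injEq, Nat.succ_inj]

lemma dV_zero {ι : Type} (a : Fr F ι) (i : ι) :
    dV δ ι a (i, 0) = δ (a (i, 0)) := by
  classical
  induction a using Finsupp.induction_linear with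
  | zero => simp
  | add f g hf hg => rw [map_add, Finsupp.add_apply, hf, hg, Finsupp.add_apply, map_add]
  | single p x =>
    rw [dV_single, Finsupp.add_apply]
    obtain ⟨j, r⟩ := p
    rw [Finsupp.single_apply, Finsupp.single_apply, Finsupp.single_apply]
    simp only [Prod.mk.injEq, Nat.succ_ne_zero, and_false, if_false, add_zero]
    split_ifs <;> simp

lemma dV_col {ι : Type} (a : Fr F ι) (i : ι) (h : ∀ s, a (i, s) = 0) (s : ℕ) :
    dV δ ι a (i, s) = 0 := by
  cases s with
  | zero => rw [dV_zero, h, map_zero]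
  | succ s => rw [dV_succ, h, h, map_zero, add_zero]

lemma dVk_col {ι : Type} (a : Fr F ι) (i : ι) (h : ∀ s, a (i, s) = 0) (k s : ℕ) :
    ((dV δ ι)^[k]) a (i, s) = 0 := by
  induction k generalizing s with
  | zero => exact h s
  | succ k ih => rw [Function.iterate_succ_apply']; exact dV_col δ _ i ih s

lemma dVk_above {ι : Type} (a : Fr F ι) (i : ι) (s0 : ℕ) (h : ∀ s, s0 < s → a (i, s) = 0)
    (k s : ℕ) (hs : s0 + k < s) : ((dV δ ι)^[k]) a (i, s) = 0 := by
  induction k generalizing s with
  | zero => exact h s (by omega)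
  | succ k ih =>
    rw [Function.iterate_succ_apply']
    obtain ⟨s', rfl⟩ : ∃ s', s = s' + 1 := ⟨s - 1, by omega⟩
    rw [dV_succ, ih _ (by omega), ih _ (by omega), map_zero, add_zero]

lemma dVk_top {ι : Type} (a : Fr F ι) (i : ι) (s0 : ℕ) (h : ∀ s, s0 < s → a (i, s) = 0)
    (k : ℕ) : ((dV δ ι)^[k]) a (i, s0 + k) = a (i, s0) := by
  induction k with
  | zero => rfl
  | succ k ih =>
    rw [Function.iterate_succ_apply', ← add_assoc, dV_succ, ih,
      dVk_above δ a i s0 h k _ (by omega), map_zero, zero_add]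

/-- evaluation of an element of the free module at a tuple of a module with derivation -/
noncomputable def lc {M ι : Type} [AddCommGroup M] [Module F M] (dM : M →+ M) (v : ι → M) :
    Fr F ι →ₗ[F] M := Finsupp.linearCombination F (fam dM v)

lemma lc_dV {M ι : Type} [AddCommGroup M] [Module F M] (dM : M →+ M)
    (hd : ∀ (a : F) (m : M), dM (a • m) = δ a • m + a • dM m) (v : ι → M) (a : Fr F ι) :
    lc dM v (dV δ ι a) = dM (lc dM v a) := by
  induction a using Finsupp.induction_linear with
  | zero => simp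
  | add f g hf hg => rw [map_add, map_add, map_add, map_add, hf, hg]
  | single p x =>
    rw [dV_single, map_add]
    simp only [lc, Finsupp.linearCombination_single]
    rw [hd]
    simp only [fam]
    rw [Function.iterate_succ_apply']

lemma lc_dVk {M ι : Type} [AddCommGroup M] [Module F M] (dM : M →+ M)
    (hd : ∀ (a : F) (m : M), dM (a • m) = δ a • m + a • dM m) (v : ι → M) (a : Fr F ι) (k : ℕ) :
    lc dM v ((dV δ ι)^[k] a) = (dM^[k]) (lc dM v a) := by
  induction k with
  | zero => rfl
  | succ k ih => rw [Function.iterate_succ_apply', Function.iterate_succ_apply', lc_dV δ dM hd, ih]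

lemma lc_single {M ι : Type} [AddCommGroup M] [Module F M] (dM : M →+ M) (v : ι → M)
    (i : ι) : lc dM v (Finsupp.single (i, 0) (1 : F)) = v i := by
  simp [lc, fam]

/-- the generators of the free module and their derivatives -/
lemma dVk_single {ι : Type} (i : ι) (k : ℕ) : ((dV δ ι)^[k]) (Finsupp.single (i, 0) (1 : F)) =
    Finsupp.single (i, k) (1 : F) := by
  induction k with
  | zero => rfl
  | succ k ih =>
    rw [Function.iterate_succ_apply', ih, dV_single]
    simp

/-- the elements of `indep_replace` in the free module -/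
noncomputable def repl {ι : Type} (T : Set ι) (a : Fr F ι) (o : Option {i // i ∉ T}) : Fr F ι :=
  match o with
  | none => a
  | some i => Finsupp.single ((i : ι), 0) (1 : F)

lemma fam_repl_some {ι : Type} (T : Set ι) (a : Fr F ι) (i : {i // i ∉ T}) (s : ℕ) :
    fam (dV δ ι) (repl T a) (some i, s) = Finsupp.single ((i : ι), s) (1 : F) :=
  dVk_single δ (i : ι) s

lemma indep_repl_none {ι : Type} (T : Set ι) (a : Fr F ι) (p0 : ι × ℕ) (hp0' : a p0 ≠ 0)
    (hi0 : p0.1 ∈ T) (habove : ∀ s, p0.2 < s → a (p0.1, s) = 0)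
    (c : Option {i // i ∉ T} × ℕ →₀ F)
    (hval : ∀ q : ι × ℕ, ∑ p ∈ c.support, c p * (fam (dV δ ι) (repl T a) p) q = 0) (s : ℕ) :
    c (none, s) = 0 := by
  classical
  by_contra hcon
  let N : Finset ℕ := (c.support.filter (fun p => p.1 = none)).image (fun p => p.2)
  have hN : N.Nonempty := ⟨s, Finset.mem_image.2 ⟨(none, s), Finset.mem_filter.2
      ⟨Finsupp.mem_support_iff.2 hcon, rfl⟩, rfl⟩⟩
  obtain ⟨m, hm, hm'⟩ : ∃ m, c (none, m) ≠ 0 ∧ ∀ s, m < s → c (none, s) = 0 := by
    refine ⟨N.max' hN, ?_, ?_⟩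
    · obtain ⟨p, hp, hpm⟩ := Finset.mem_image.1 (N.max'_mem hN)
      obtain ⟨hp1, hp2⟩ := Finset.mem_filter.1 hp
      have : p = (none, N.max' hN) := Prod.ext hp2 hpm
      rw [← this]
      exact Finsupp.mem_support_iff.1 hp1
    · intro s hs
      by_contra h
      have : s ≤ N.max' hN := N.le_max' s (Finset.mem_image.2 ⟨(none, s), Finset.mem_filter.2
        ⟨Finsupp.mem_support_iff.2 h, rfl⟩, rfl⟩)
      omega
  have h1 := hval (p0.1, p0.2 + m)
  rw [Finset.sum_eq_single ((none, m) : Option {i // i ∉ T} × ℕ)] at h1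
  · have h2 : fam (dV δ ι) (repl T a) (none, m) (p0.1, p0.2 + m) = a p0 :=
      dVk_top δ a p0.1 p0.2 habove m
    rw [h2] at h1
    exact (mul_ne_zero hm hp0') h1
  · rintro ⟨_ | i, s⟩ hp hne
    · rcases lt_trichotomy s m with h | h | h
      · have h2 : fam (dV δ ι) (repl T a) (none, s) (p0.1, p0.2 + m) = 0 :=
          dVk_above δ a p0.1 p0.2 habove s _ (by omega)
        rw [h2, mul_zero]
      · exact absurd (by rw [h]) hne
      · rw [hm' s h, zero_mul]
    · rw [fam_repl_some, Finsupp.single_apply, if_neg, mul_zero]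
      intro h
      have : (i : ι) = p0.1 := congrArg Prod.fst h
      exact i.2 (this ▸ hi0)
  · intro h
    rw [Finsupp.notMem_support_iff.1 h, zero_mul]

lemma indep_repl_some {ι : Type} (T : Set ι) (a : Fr F ι)
    (c : Option {i // i ∉ T} × ℕ →₀ F) (hnone : ∀ s, c (none, s) = 0)
    (hval : ∀ q : ι × ℕ, ∑ p ∈ c.support, c p * (fam (dV δ ι) (repl T a) p) q = 0)
    (i : {i // i ∉ T}) (s : ℕ) : c (some i, s) = 0 := by
  classical
  have h1 := hval ((i : ι), s)
  rw [Finset.sum_eq_single ((some i, s) : Option {i // i ∉ T} × ℕ)] at h1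
  · rw [fam_repl_some, Finsupp.single_apply, if_pos rfl, mul_one] at h1
    exact h1
  · rintro ⟨_ | j, r⟩ hp hne
    · rw [hnone, zero_mul]
    · rw [fam_repl_some, Finsupp.single_apply, if_neg, mul_zero]
      intro h
      apply hne
      have h3 : (j : ι) = i := congrArg Prod.fst h
      have h4 : r = s := congrArg Prod.snd h
      rw [Subtype.ext h3, h4]
  · intro h
    rw [Finsupp.notMem_support_iff.1 h, zero_mul]

lemma indep_repl {ι : Type} (T : Set ι) (a : Fr F ι)
    (ha : ∀ p, p.1 ∉ T → a p = 0) (ha0 : a ≠ 0) :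
    LinearIndependent F (fam (dV δ ι) (repl T a)) := by
  classical
  obtain ⟨p0, hp0, hmax⟩ := Finset.exists_max_image a.support (fun p => p.2)
    (Finsupp.support_nonempty_iff.2 ha0)
  have hp0' : a p0 ≠ 0 := Finsupp.mem_support_iff.1 hp0
  have hi0 : p0.1 ∈ T := by
    by_contra h
    exact hp0' (ha p0 h)
  have habove : ∀ s, p0.2 < s → a (p0.1, s) = 0 := by
    intro s hs
    by_contra h
    have := hmax (p0.1, s) (Finsupp.mem_support_iff.2 h)
    exact absurd this (not_le.2 hs)
  rw [linearIndependent_iff]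
  intro c hc
  have hval : ∀ q : ι × ℕ, ∑ p ∈ c.support, c p * (fam (dV δ ι) (repl T a) p) q = 0 := by
    intro q
    have h1 := DFunLike.congr_fun hc q
    rw [Finsupp.linearCombination_apply, Finsupp.sum, Finsupp.finsetSum_apply] at h1
    simpa using h1
  have hnone := indep_repl_none δ T a p0 hp0' hi0 habove c hval
  ext ⟨o, s⟩
  rcases o with _ | i
  · exact hnone s
  · exact indep_repl_some δ T a c hnone hval i s

/-- replacing some independent elements by one nonzero combination of them -/
theorem indep_replace {M ι : Type} [AddCommGroup M] [Module F M] (dM : M →+ M)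
    (hd : ∀ (a : F) (m : M), dM (a • m) = δ a • m + a • dM m) (v : ι → M)
    (hv : LinearIndependent F (fam dM v)) (T : Set ι) (a : Fr F ι)
    (ha : ∀ p, p.1 ∉ T → a p = 0) (ha0 : a ≠ 0) :
    LinearIndependent F (fam dM (fun o : Option {i // i ∉ T} => lc dM v (repl T a o))) := by
  have hfac : fam dM (fun o : Option {i // i ∉ T} => lc dM v (repl T a o)) =
      (lc dM v) ∘ fam (dV δ ι) (repl T a) := by
    funext p
    simp only [fam, Function.comp_apply]
    rw [lc_dVk δ dM hd]
  rw [hfac]
  have hker : LinearMap.ker (lc dM v) = ⊥ := LinearMap.ker_eq_bot.2 hv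
  exact (indep_repl δ T a ha ha0).map' (lc dM v) hker

end free

end Pool.Agent.JB
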