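import Mathlib
import Pool.Agent.Work.MP_71fd89_ag.JLin
import Pool.Agent.Work.MP_71fd89_ag.JBFree

/-! # Linear systems over the differential operators: solutions in extensions -/

set_option autoImplicit false

namespace Pool.Agent.JB

/-- the value of an element of the free module at a tuple -/
noncomputable def evl {F E J : Type} [Field F] [Field E] (δ : Der E) (f : F →+* E) (ζ : J → E) :
    Fr F J →+ E :=
  Finsupp.liftAddHom (fun p : J × ℕ =>
    (AddMonoidHom.mulRight ((δ^[p.2]) (ζ p.1))).comp (f : F →+ E))

section

variable {F E J : Type} [Field F] [Field E] (δF : Der F) (δ : Der E) (f : F →+* E) (ζ : J → E)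

@[simp] lemma evl_single (p : J × ℕ) (x : F) :
    evl δ f ζ (Finsupp.single p x) = f x * (δ^[p.2]) (ζ p.1) := by
  simp [evl]

lemma evl_smul (x : F) (a : Fr F J) : evl δ f ζ (x • a) = f x * evl δ f ζ a := by
  induction a using Finsupp.induction_linear with
  | zero => simp
  | add g h hg hh => rw [smul_add, map_add, hg, hh, map_add, mul_add]
  | single p y =>
    rw [Finsupp.smul_single, evl_single, evl_single, smul_eq_mul, map_mul, mul_assoc]

lemma evl_dV (hf : ∀ x, δ (f x) = f (δF x)) (a : Fr F J) :
    evl δ f ζ (dV δF J a) = δ (evl δ f ζ a) := by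
  induction a using Finsupp.induction_linear with
  | zero => simp
  | add g h hg hh => rw [map_add, map_add, map_add, map_add, hg, hh]
  | single p y =>
    rw [dV_single, map_add, evl_single, evl_single, evl_single, δ.mul, hf,
      Function.iterate_succ_apply']
    ring

lemma evl_dVk (hf : ∀ x, δ (f x) = f (δF x)) (a : Fr F J) (k : ℕ) :
    evl δ f ζ (((dV δF J)^[k]) a) = (δ^[k]) (evl δ f ζ a) := by
  induction k with
  | zero => rfl
  | succ k ih => rw [Function.iterate_succ_apply', Function.iterate_succ_apply',
      evl_dV δF δ f ζ hf, ih]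

lemma iter_zero (k : ℕ) : (δ^[k]) (0 : E) = 0 := by
  induction k with
  | zero => rfl
  | succ k ih => rw [Function.iterate_succ_apply', ih, map_zero]

lemma iter_add (k : ℕ) (x y : E) : (δ^[k]) (x + y) = (δ^[k]) x + (δ^[k]) y := by
  induction k with
  | zero => rfl
  | succ k ih => rw [Function.iterate_succ_apply', Function.iterate_succ_apply',
      Function.iterate_succ_apply', ih, map_add]

lemma evl_add_arg (ζ' : J → E) (a : Fr F J) :
    evl δ f (ζ + ζ') a = evl δ f ζ a + evl δ f ζ' a := by
  induction a using Finsupp.induction_linear with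
  | zero => simp
  | add g h hg hh => rw [map_add, map_add, map_add, hg, hh]; ring
  | single p y =>
    rw [evl_single, evl_single, evl_single, Pi.add_apply, iter_add, mul_add]

lemma evl_congr (ζ' : J → E) (a : Fr F J) (h : ∀ j s, a (j, s) ≠ 0 → ζ j = ζ' j) :
    evl δ f ζ a = evl δ f ζ' a := by
  simp only [evl, Finsupp.liftAddHom_apply]
  refine Finsupp.sum_congr (fun p hp => ?_)
  have h1 := h p.1 p.2 (Finsupp.mem_support_iff.1 hp)
  simp [h1]

lemma iter_map {E' : Type} [Field E'] (δ' : Der E') (g : E →+* E')
    (hg : ∀ x, δ' (g x) = g (δ x)) (k : ℕ) (x : E) : (δ'^[k]) (g x) = g ((δ^[k]) x) := by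
  induction k with
  | zero => rfl
  | succ k ih => rw [Function.iterate_succ_apply', Function.iterate_succ_apply', ih, hg]

lemma evl_map {E' : Type} [Field E'] (δ' : Der E') (g : E →+* E')
    (hg : ∀ x, δ' (g x) = g (δ x)) (a : Fr F J) :
    evl δ' (g.comp f) (fun j => g (ζ j)) a = g (evl δ f ζ a) := by
  induction a using Finsupp.induction_linear with
  | zero => simp
  | add u v hu hv => rw [map_add, map_add, map_add, hu, hv]
  | single p y =>
    rw [evl_single, evl_single, iter_map δ δ' g hg, map_mul]
    rfl

end

lemma wd_replicate {A ι : Type} [CommRing A] (δ : ι → Der A) (o : ι) (s : ℕ) (x : A) :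
    wd δ (List.replicate s o) x = ((δ o)^[s]) x := by
  induction s with
  | zero => rfl
  | succ s ih => rw [List.replicate_succ, wd_cons, ih, Function.iterate_succ_apply']

/-- one linear equation in one unknown -/
theorem solve_one {E ι : Type} [Field E] [CharZero E] (δ : ι → Der E) (o : ι) (m : ℕ)
    (a : ℕ → E) (ha : a m ≠ 0) (b : E) :
    ∃ (E' : Type) (_ : Field E') (_ : CharZero E') (δ' : ι → Der E') (g : E →+* E') (ω : E'),
      (∀ i x, δ' i (g x) = g (δ i x)) ∧
      ∑ s ∈ Finset.range (m + 1), g (a s) * ((δ' o)^[s]) ω = g b := by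
  classical
  let Ψ : MvPolynomial (List ι) E := (∑ s ∈ Finset.range (m + 1),
    MvPolynomial.C (a s) * MvPolynomial.X (List.replicate s o)) - MvPolynomial.C b
  have hinj : ∀ s s' : ℕ, List.replicate s o = List.replicate s' o → s = s' := by
    intro s s' h
    have := congrArg List.length h
    simpa using this
  have hcoef : MvPolynomial.coeff (Finsupp.single (List.replicate m o) 1) Ψ = a m := by
    simp only [Ψ, MvPolynomial.coeff_sub, MvPolynomial.coeff_sum, MvPolynomial.coeff_C_mul,
      MvPolynomial.coeff_C]
    rw [if_neg, sub_zero, Finset.sum_eq_single m]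
    · simp [MvPolynomial.coeff_X]
    · intro s _ hs
      rw [MvPolynomial.coeff_X, if_neg, mul_zero]
      intro h
      apply hs
      apply hinj
      exact Finsupp.single_left_injective one_ne_zero h
    · intro h
      exact absurd (Finset.mem_range.2 (Nat.lt_succ_self m)) h
    · intro h
      have h1 := DFunLike.congr_fun h (List.replicate m o)
      simp at h1
  have hvars : Ψ.vars.Nonempty := by
    refine ⟨List.replicate m o, (MvPolynomial.mem_vars_iff_mem_support _).2
      ⟨Finsupp.single (List.replicate m o) 1, MvPolynomial.mem_support_iff.2 ?_, ?_⟩⟩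
    · rw [hcoef]; exact ha
    · simp
  obtain ⟨E', _, _, δ', g, ω, hg, hω⟩ := solve δ Ψ hvars
  refine ⟨E', inferInstance, inferInstance, δ', g, ω, hg, ?_⟩
  simp only [Ψ, MvPolynomial.eval₂_sub, MvPolynomial.eval₂_sum, MvPolynomial.eval₂_mul,
    MvPolynomial.eval₂_C, MvPolynomial.eval₂_X, wd_replicate] at hω
  exact sub_eq_zero.1 hω

/-- A map from a stable submodule of the free module extends to the whole module, after
extension of the target field. -/
theorem ext_lin {F J ι : Type} [Field F] (δF : Der F) (o : ι) (T : Finset J) :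
    ∀ (E : Type) [Field E] [CharZero E] (δ : ι → Der E) (f : F →+* E)
      (_ : ∀ x, δ o (f x) = f (δF x)) (N : Submodule F (Fr F J))
      (hN : ∀ a ∈ N, dV δF J a ∈ N) (_ : ∀ a ∈ N, ∀ p, p.1 ∉ T → a p = 0)
      (γ : N →+ E) (_ : ∀ (x : F) (a : N), γ (x • a) = f x * γ a)
      (_ : ∀ a : N, γ ⟨dV δF J a, hN a a.2⟩ = δ o (γ a)),
    ∃ (E' : Type) (_ : Field E') (_ : CharZero E') (δ' : ι → Der E') (g : E →+* E') (ζ : J → E'),
      (∀ i x, δ' i (g x) = g (δ i x)) ∧ ∀ a : N, g (γ a) = evl (δ' o) (g.comp f) ζ a := by
  classical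
  induction T using Finset.induction_on with
  | empty =>
    intro E _ _ δ f hf N hN hT γ h1 h2
    refine ⟨E, inferInstance, inferInstance, δ, RingHom.id E, 0, fun i x => rfl, fun a => ?_⟩
    have ha : a = 0 := by
      apply Subtype.ext
      ext p
      exact hT a a.2 p (Finset.notMem_empty _)
    rw [ha]
    simp
  | insert j0 T hj0 ih =>
    intro E _ _ δ f hf N hN hT γ h1 h2
    let N0 : Submodule F (Fr F J) :=
      { carrier := {a | a ∈ N ∧ ∀ s, a (j0, s) = 0}
        add_mem' := by
          rintro a b ⟨ha, ha'⟩ ⟨hb, hb'⟩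
          exact ⟨N.add_mem ha hb, fun s => by rw [Finsupp.add_apply, ha', hb', add_zero]⟩
        zero_mem' := ⟨N.zero_mem, fun s => rfl⟩
        smul_mem' := by
          rintro c a ⟨ha, ha'⟩
          exact ⟨N.smul_mem c ha, fun s => by rw [Finsupp.smul_apply, ha', smul_zero]⟩ }
    have hle : N0 ≤ N := fun a ha => ha.1
    have hN0 : ∀ a ∈ N0, dV δF J a ∈ N0 := fun a ha =>
      ⟨hN a ha.1, fun s => dV_col δF a j0 ha.2 s⟩
    obtain ⟨E1, _, _, δ1, g1, ζ1, hg1, hζ1⟩ := ih E δ f hf N0 hN0 (by
      intro a ha p hp
      by_cases hpj : p.1 = j0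
      · have := ha.2 p.2
        rw [← hpj] at this
        exact this
      · exact hT a ha.1 p (by rw [Finset.mem_insert]; tauto))
      (γ.comp (Submodule.inclusion hle).toAddMonoidHom)
      (fun x a => h1 x (Submodule.inclusion hle a))
      (fun a => h2 (Submodule.inclusion hle a))
    by_cases hall : ∀ a ∈ N, ∀ s, a (j0, s) = 0
    · refine ⟨E1, inferInstance, inferInstance, δ1, g1, ζ1, hg1, fun a => ?_⟩
      exact hζ1 ⟨a, a.2, hall a a.2⟩
    · push Not at hall
      have hQ : ∃ m, ∃ a ∈ N, a (j0, m) ≠ 0 ∧ ∀ s, m < s → a (j0, s) = 0 := by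
        obtain ⟨a, ha, s, hs⟩ := hall
        let M : Finset ℕ := (a.support.filter (fun p => p.1 = j0)).image (fun p => p.2)
        have hM : M.Nonempty := ⟨s, Finset.mem_image.2 ⟨(j0, s), Finset.mem_filter.2
          ⟨Finsupp.mem_support_iff.2 hs, rfl⟩, rfl⟩⟩
        refine ⟨M.max' hM, a, ha, ?_, ?_⟩
        · obtain ⟨p, hp, hpm⟩ := Finset.mem_image.1 (M.max'_mem hM)
          obtain ⟨hp1, hp2⟩ := Finset.mem_filter.1 hp
          have : p = (j0, M.max' hM) := Prod.ext hp2 hpm
          rw [← this]
          exact Finsupp.mem_support_iff.1 hp1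
        · intro r hr
          by_contra h
          have : r ≤ M.max' hM := M.le_max' r (Finset.mem_image.2 ⟨(j0, r), Finset.mem_filter.2
            ⟨Finsupp.mem_support_iff.2 h, rfl⟩, rfl⟩)
          omega
      obtain ⟨n0, hn0, hn0m, hn0a⟩ := Nat.find_spec hQ
      set m0 := Nat.find hQ with hm0
      have hmin : ∀ m, ∀ a ∈ N, a (j0, m) ≠ 0 → (∀ s, m < s → a (j0, s) = 0) → m0 ≤ m := by
        intro m a ha h3 h4
        exact Nat.find_min' hQ ⟨a, ha, h3, h4⟩
      let ζ1' : J → E1 := Function.update ζ1 j0 0
      obtain ⟨E2, _, _, δ2, g2, ω, hg2, hω⟩ := solve_one δ1 o m0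
        (fun s => g1 (f (n0 (j0, s)))) (by
          simp only [ne_eq, map_eq_zero]
          exact hn0m)
        (g1 (γ ⟨n0, hn0⟩) - evl (δ1 o) (g1.comp f) ζ1' n0)
      let ζ : J → E2 := Function.update (fun j => g2 (ζ1 j)) j0 ω
      have hgo : ∀ i x, δ2 i ((g2.comp g1) x) = (g2.comp g1) (δ i x) := by
        intro i x
        simp [hg2, hg1]
      have hfo : ∀ x, δ2 o (((g2.comp g1).comp f) x) = ((g2.comp g1).comp f) (δF x) := by
        intro x
        rw [RingHom.comp_apply, hgo, hf]
        rfl
      have hbase : g2 (g1 (γ ⟨n0, hn0⟩)) = evl (δ2 o) ((g2.comp g1).comp f) ζ n0 := by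
        have hsplit : ζ = (fun j => g2 (ζ1' j)) + Function.update (0 : J → E2) j0 ω := by
          funext j
          by_cases hj : j = j0
          · subst hj; simp [ζ, ζ1']
          · simp [ζ, ζ1', hj]
        rw [hsplit, evl_add_arg, RingHom.comp_assoc, evl_map (δ1 o) (g1.comp f) ζ1' (δ2 o) g2
          (hg2 o)]
        have hcol : evl (δ2 o) (g2.comp (g1.comp f)) (Function.update (0 : J → E2) j0 ω) n0 =
            ∑ s ∈ Finset.range (m0 + 1), g2 (g1 (f (n0 (j0, s)))) * ((δ2 o)^[s]) ω := by
          simp only [evl, Finsupp.liftAddHom_apply, Finsupp.sum]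
          have hterm : ∀ p : J × ℕ, ((AddMonoidHom.mulRight (((δ2 o)^[p.2])
              ((Function.update (0 : J → E2) j0 ω) p.1))).comp
              ((g2.comp (g1.comp f) : F →+* E2) : F →+ E2)) (n0 p) =
              if p.1 = j0 then g2 (g1 (f (n0 p))) * ((δ2 o)^[p.2]) ω else 0 := by
            intro p
            split_ifs with hp
            · subst hp; simp
            · simp [hp]
          rw [Finset.sum_congr rfl (fun p _ => hterm p)]
          rw [← Finset.sum_filter]
          refine Finset.sum_of_injOn (fun p => p.2) ?_ ?_ ?_ ?_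
          · intro a ha b hb h
            exact Prod.ext ((Finset.mem_filter.1 ha).2.trans (Finset.mem_filter.1 hb).2.symm) h
          · intro p hp
            obtain ⟨hp1, hp2⟩ := Finset.mem_filter.1 hp
            rw [Finset.mem_coe, Finset.mem_range]
            by_contra h
            apply Finsupp.mem_support_iff.1 hp1
            have h3 := hn0a p.2 (by simp only at h; omega)
            rw [← hp2] at h3
            exact h3
          · intro s _ hs
            have h3 : n0 (j0, s) = 0 := by
              by_contra h
              exact hs ⟨(j0, s), Finset.mem_coe.2 (Finset.mem_filter.2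
                ⟨Finsupp.mem_support_iff.2 h, rfl⟩), rfl⟩
            rw [h3]
            simp
          · intro p hp
            obtain ⟨hp1, hp2⟩ := Finset.mem_filter.1 hp
            rw [← hp2]
        rw [hcol, hω, map_sub]
        ring
      refine ⟨E2, inferInstance, inferInstance, δ2, g2.comp g1, ζ, hgo, ?_⟩
      have key : ∀ m (a : Fr F J) (ha : a ∈ N), (∀ s, m ≤ s → a (j0, s) = 0) →
          (g2.comp g1) (γ ⟨a, ha⟩) = evl (δ2 o) ((g2.comp g1).comp f) ζ a := by
        intro m
        induction m with
        | zero =>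
          intro a ha h3
          have h4 := hζ1 ⟨a, ha, fun s => h3 s (Nat.zero_le s)⟩
          have h5 : g1 (γ ⟨a, ha⟩) = evl (δ1 o) (g1.comp f) ζ1 a := h4
          rw [RingHom.comp_apply, h5, ← evl_map (δ1 o) (g1.comp f) ζ1 (δ2 o) g2 (hg2 o),
            RingHom.comp_assoc]
          refine evl_congr _ _ _ _ _ (fun j s hjs => ?_)
          have hj : j ≠ j0 := by
            rintro rfl
            exact hjs (h3 s (Nat.zero_le s))
          simp [ζ, hj]
        | succ m ihm =>
          intro a ha h3
          by_cases h4 : a (j0, m) = 0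
          · refine ihm a ha (fun s hs => ?_)
            rcases Nat.lt_or_ge m s with h | h
            · exact h3 s h
            · have : s = m := by omega
              rw [this]; exact h4
          · have hmm : m0 ≤ m := hmin m a ha h4 (fun s hs => h3 s hs)
            have hstab : ∀ k, ((dV δF J)^[k]) n0 ∈ N := by
              intro k
              induction k with
              | zero => exact hn0
              | succ k ih' => rw [Function.iterate_succ_apply']; exact hN _ ih'
            have hγk : ∀ k, γ ⟨((dV δF J)^[k]) n0, hstab k⟩ = ((δ o)^[k]) (γ ⟨n0, hn0⟩) := by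
              intro k
              induction k with
              | zero => rfl
              | succ k ih' =>
                rw [Function.iterate_succ_apply' (δ o), ← ih', ← h2]
                congr 1
                apply Subtype.ext
                exact Function.iterate_succ_apply' _ _ _
            let c : F := a (j0, m) / n0 (j0, m0)
            let b : Fr F J := c • ((dV δF J)^[m - m0]) n0
            have hb : b ∈ N := N.smul_mem c (hstab _)
            have hab := ihm (a - b) (N.sub_mem ha hb) (by
              intro s hs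
              rw [Finsupp.sub_apply, Finsupp.smul_apply]
              rcases Nat.lt_or_ge m s with h | h
              · rw [h3 s h, dVk_above δF n0 j0 m0 hn0a (m - m0) s (by omega), smul_zero, sub_zero]
              · have hs' : s = m := by omega
                have h5 := dVk_top δF n0 j0 m0 hn0a (m - m0)
                rw [Nat.add_sub_cancel' hmm] at h5
                rw [hs', h5, smul_eq_mul, div_mul_cancel₀ _ hn0m, sub_self])
            have hγb : γ ⟨b, hb⟩ = f c * ((δ o)^[m - m0]) (γ ⟨n0, hn0⟩) := by
              rw [← hγk]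
              exact h1 c ⟨_, hstab _⟩
            have hga : γ ⟨a, ha⟩ = γ ⟨a - b, N.sub_mem ha hb⟩ + γ ⟨b, hb⟩ := by
              rw [← map_add]
              congr 1
              apply Subtype.ext
              simp
            have hea : evl (δ2 o) ((g2.comp g1).comp f) ζ a =
                evl (δ2 o) ((g2.comp g1).comp f) ζ (a - b) +
                evl (δ2 o) ((g2.comp g1).comp f) ζ b := by
              rw [← map_add, sub_add_cancel]
            rw [hga, map_add, hab, hea, hγb, map_mul]
            congr 1
            rw [evl_smul, evl_dVk δF (δ2 o) _ ζ hfo, ← hbase,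
              ← iter_map (δ o) (δ2 o) (g2.comp g1) (hgo o)]
            rfl
      intro a
      refine key ((a : Fr F J).support.sup (fun p => p.2) + 1) a a.2 (fun s hs => ?_)
      by_contra h
      have := Finset.le_sup (f := fun p : J × ℕ => p.2) (Finsupp.mem_support_iff.2 h)
      simp only at this
      omega

end Pool.Agent.JB
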