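import Mathlib
import Pool.Agent.Work.MP_71fd89_ag.JLin
import Pool.Agent.Work.MP_71fd89_ag.JBRow

/-! # Gradients and their linearized deformations -/

set_option autoImplicit false

namespace Pool.Agent.JB

open Algebra

section grad

variable {K F : Type} [Field K] [Field F] [Algebra K F] (y : ℕ → F)

/-- the gradient of a polynomial at the sequence `y` -/
noncomputable def gr (p : MvPolynomial ℕ K) : ℕ →₀ F :=
  Finsupp.onFinset p.vars (fun k => MvPolynomial.aeval y (MvPolynomial.pderiv k p)) (by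
    intro k hk
    by_contra h
    apply hk
    rw [MvPolynomial.pderiv_eq_zero_of_notMem_vars h, map_zero])

lemma gr_apply (p : MvPolynomial ℕ K) (k : ℕ) :
    gr y p k = MvPolynomial.aeval y (MvPolynomial.pderiv k p) := rfl

lemma gr_add (p q : MvPolynomial ℕ K) : gr y (p + q) = gr y p + gr y q := by
  ext k
  simp [gr_apply]

lemma gr_mul (p q : MvPolynomial ℕ K) : gr y (p * q) =
    MvPolynomial.aeval y p • gr y q + MvPolynomial.aeval y q • gr y p := by
  ext k
  simp only [gr_apply, Derivation.leibniz, smul_eq_mul, map_add, map_mul, Finsupp.add_apply,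
    Finsupp.smul_apply]

@[simp] lemma gr_C (c : K) : gr y (MvPolynomial.C c) = 0 := by
  ext k
  simp [gr_apply]

@[simp] lemma gr_X (k : ℕ) : gr (K := K) y (MvPolynomial.X k) = Finsupp.single k 1 := by
  classical
  ext l
  rw [gr_apply, MvPolynomial.pderiv_X, Finsupp.single_apply]
  by_cases h : k = l
  · subst h; simp
  · simp [h]

end grad

/-- the shift derivation of the module of gradients -/
noncomputable def dN {F : Type} [Field F] (δ : Der F) (n : ℕ) : (ℕ →₀ F) →+ (ℕ →₀ F) :=
  Finsupp.mapRange.addMonoidHom (δ : F →+ F) +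
    Finsupp.mapDomain.addMonoidHom (fun k : ℕ => k + n)

lemma dN_single {F : Type} [Field F] (δ : Der F) (n k : ℕ) (x : F) :
    dN δ n (Finsupp.single k x) = Finsupp.single k (δ x) + Finsupp.single (k + n) x := by
  simp [dN, Finsupp.mapDomain_single]

lemma dN_smul {F : Type} [Field F] (δ : Der F) (n : ℕ) (c : F) (a : ℕ →₀ F) :
    dN δ n (c • a) = δ c • a + c • dN δ n a := by
  induction a using Finsupp.induction_linear with
  | zero => simp
  | add f g hf hg => rw [smul_add, map_add, hf, hg, map_add, smul_add, smul_add]; abel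
  | single p x =>
    rw [Finsupp.smul_single, dN_single, dN_single, smul_eq_mul, δ.mul]
    simp only [smul_add, Finsupp.smul_single, smul_eq_mul, Finsupp.single_add]
    rw [mul_comm (δ c) x]
    abel

/-- pairing of a gradient with a derivation -/
noncomputable def pr {F : Type} [Field F] (y : ℕ → F) (Δ : Der F) : (ℕ →₀ F) →ₗ[F] F :=
  Finsupp.linearCombination F (fun k => Δ (y k))

lemma pr_single {F : Type} [Field F] (y : ℕ → F) (Δ : Der F) (k : ℕ) (x : F) :
    pr y Δ (Finsupp.single k x) = x * Δ (y k) := by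
  simp [pr]

lemma pr_gr {K F : Type} [Field K] [Field F] [Algebra K F] (y : ℕ → F) (Δ : Der F)
    (hΔ : ∀ c : K, Δ (algebraMap K F c) = 0) (p : MvPolynomial ℕ K) :
    pr y Δ (gr y p) = Δ (MvPolynomial.aeval y p) := by
  induction p using MvPolynomial.induction_on with
  | C c => simp [hΔ]
  | add p q hp hq => rw [gr_add, map_add, hp, hq, map_add, map_add]
  | mul_X p k hp =>
    rw [gr_mul, map_add, map_smul, map_smul, hp, gr_X, pr_single, map_mul, Δ.mul,
      MvPolynomial.aeval_X]
    simp only [smul_eq_mul, one_mul]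

/-- commutator of derivations -/
def brk {F : Type} [Field F] (Δ δ : Der F) : Der F where
  f := { toFun := fun x => Δ (δ x) - δ (Δ x)
         map_zero' := by simp
         map_add' := by intro a b; simp; ring }
  leib' := by
    intro a b
    simp only [AddMonoidHom.coe_mk, ZeroHom.coe_mk, δ.mul, Δ.mul, map_add]
    ring

lemma brk_apply {F : Type} [Field F] (Δ δ : Der F) (x : F) :
    brk Δ δ x = Δ (δ x) - δ (Δ x) := rfl

lemma pr_dN {F : Type} [Field F] (y : ℕ → F) (n : ℕ) (δ Δ : Der F)
    (hy : ∀ k, δ (y k) = y (k + n)) (a : ℕ →₀ F) :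
    pr y Δ (dN δ n a) = δ (pr y Δ a) + pr y (brk Δ δ) a := by
  induction a using Finsupp.induction_linear with
  | zero => simp
  | add f g hf hg => simp only [map_add, hf, hg]; ring
  | single k x =>
    rw [dN_single, map_add, pr_single, pr_single, pr_single, pr_single, brk_apply, hy, δ.mul]
    ring

namespace Sys

variable {K F I : Type} [Field K] [Field F] [CharZero F] [Algebra K F] (A : Sys K F I)

lemma aeval_D (p : MvPolynomial ℕ K) :
    MvPolynomial.aeval A.y (A.D p) = A.dF (MvPolynomial.aeval A.y p) := by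
  apply intertwine ((MvPolynomial.aeval A.y : MvPolynomial ℕ K →ₐ[K] F) :
    MvPolynomial ℕ K →+* F)
  · intro c
    rw [A.hDC]
    simp [A.hdF]
  · intro k
    rw [A.hDX]
    simp [A.hy]

lemma gr_D (p : MvPolynomial ℕ K) : gr A.y (A.D p) = dN A.dF A.n (gr A.y p) := by
  induction p using MvPolynomial.induction_on with
  | C c => rw [A.hDC, gr_C, gr_C, map_zero]
  | add p q hp hq => rw [map_add, gr_add, gr_add, map_add, hp, hq]
  | mul_X p k hp =>
    rw [A.D.mul, gr_add, gr_mul, gr_mul, gr_mul, map_add, dN_smul, dN_smul, hp, A.hDX, gr_X, gr_X,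
      dN_single, aeval_D, MvPolynomial.aeval_X, MvPolynomial.aeval_X, A.hy]
    simp only [Der.one, Finsupp.single_zero, zero_add]
    abel

lemma gr_Dk (p : MvPolynomial ℕ K) (s : ℕ) :
    gr A.y ((A.D^[s]) p) = ((dN A.dF A.n)^[s]) (gr A.y p) := by
  induction s with
  | zero => rfl
  | succ s ih => rw [Function.iterate_succ_apply', Function.iterate_succ_apply', gr_D, ih]

/-- the relations between the differentials of the sequence -/
noncomputable def V0 : Submodule F (ℕ →₀ F) where
  carrier := {a | ∀ Δ : Der F, (∀ c : K, Δ (algebraMap K F c) = 0) → pr A.y Δ a = 0}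
  add_mem' := by
    intro a b ha hb Δ hΔ
    rw [map_add, ha Δ hΔ, hb Δ hΔ, add_zero]
  zero_mem' := fun Δ _ => map_zero _
  smul_mem' := by
    intro c a ha Δ hΔ
    rw [map_smul, ha Δ hΔ, smul_zero]

lemma V0_stable (a : ℕ →₀ F) (ha : a ∈ A.V0) : dN A.dF A.n a ∈ A.V0 := by
  intro Δ hΔ
  rw [pr_dN A.y A.n A.dF Δ A.hy, ha Δ hΔ, map_zero, zero_add]
  apply ha
  intro c
  rw [brk_apply, A.hdF, hΔ, hΔ, map_zero, sub_zero]

lemma V0_iter (a : ℕ →₀ F) (ha : a ∈ A.V0) (k : ℕ) : ((dN A.dF A.n)^[k]) a ∈ A.V0 := by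
  induction k with
  | zero => exact ha
  | succ k ih => rw [Function.iterate_succ_apply']; exact A.V0_stable _ ih

lemma gr_mem (p : MvPolynomial ℕ K) (hp : MvPolynomial.aeval A.y p = 0) : gr A.y p ∈ A.V0 := by
  intro Δ hΔ
  rw [pr_gr A.y Δ hΔ, hp, map_zero]

end Sys

/-- directions of deformation: last states of some columns with dual derivations -/
structure Dirs {K F I : Type} [Field K] [Field F] [Algebra K F] (A : Sys K F I) (J : Type) where
  κ : J → ℕ
  inj : Function.Injective κ
  mem : ∀ j, κ j ∈ A.S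
  last : ∀ j, κ j + A.n ∉ A.S
  Δ : J → Der F
  hK : ∀ j (c : K), Δ j (algebraMap K F c) = 0
  h1 : ∀ j, Δ j (A.y (κ j)) = 1
  h0 : ∀ j, ∀ k ∈ A.S, k ≠ κ j → Δ j (A.y k) = 0
  hlow : ∀ j m, m < κ j → Δ j (A.y m) = 0

namespace Dirs

variable {K F I : Type} [Field K] [Field F] [CharZero F] [Algebra K F] {A : Sys K F I}

/-- directions exist -/
theorem exists_dirs (A : Sys K F I) {J : Type} (κ : J → ℕ) (inj : Function.Injective κ)
    (mem : ∀ j, κ j ∈ A.S) (last : ∀ j, κ j + A.n ∉ A.S) :
    ∃ B : Dirs A J, B.κ = κ := by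
  choose Δ h1 h2 h3 h4 using fun j => exists_dual A.y A.S A.hS A.hS' (κ j) (mem j)
  exact ⟨⟨κ, inj, mem, last, Δ, h1, h2, h3, h4⟩, rfl⟩

variable {J : Type} [Fintype J] (B : Dirs A J)

/-- the derivatives of the states in the linearized deformation -/
noncomputable def egg (r : ℕ) : ℕ → Fr F J
  | 0 => 0
  | (s + 1) => dV A.dF J (egg r s) +
      ∑ j, Finsupp.single (j, 0) (B.Δ j (A.y (s * A.n + r)))

/-- the derivatives of the states in the linearized deformation -/
noncomputable def e (k : ℕ) : Fr F J := B.egg (k % A.n) (k / A.n)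

lemma e_lt (k : ℕ) (hk : k < A.n) : B.e k = 0 := by
  rw [e, Nat.div_eq_of_lt hk]; rfl

lemma e_step (k : ℕ) : B.e (k + A.n) = dV A.dF J (B.e k) +
    ∑ j, Finsupp.single (j, 0) (B.Δ j (A.y k)) := by
  rw [e, Nat.add_div_right _ A.hn, Nat.add_mod_right, egg, Nat.div_add_mod']
  rfl

lemma e_low (b : ℕ) (hb : ∀ j, b ≤ B.κ j) (k : ℕ) (hk : k < b + A.n) : B.e k = 0 := by
  induction k using Nat.strong_induction_on with
  | _ k ih =>
  by_cases hkn : k < A.n
  · exact B.e_lt k hkn
  · have hn := A.hn
    obtain ⟨k', rfl⟩ : ∃ k', k = k' + A.n := ⟨k - A.n, by omega⟩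
    rw [e_step, ih k' (by omega) (by omega), map_zero, zero_add]
    refine Finset.sum_eq_zero (fun j _ => ?_)
    rw [B.hlow j k' (by have := hb j; omega), Finsupp.single_zero]

lemma e_state (k : ℕ) (hk : k ∈ A.S) : B.e k = 0 := by
  induction k using Nat.strong_induction_on with
  | _ k ih =>
  by_cases hkn : k < A.n
  · exact B.e_lt k hkn
  · have hn := A.hn
    obtain ⟨k', rfl⟩ : ∃ k', k = k' + A.n := ⟨k - A.n, by omega⟩
    have hk' := A.desc k' hk
    rw [e_step, ih k' (by omega) hk', map_zero, zero_add]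
    refine Finset.sum_eq_zero (fun j _ => ?_)
    rw [B.h0 j k' hk' (by rintro rfl; exact B.last j hk), Finsupp.single_zero]

lemma e_top (j : J) : B.e (B.κ j + A.n) = Finsupp.single (j, 0) 1 := by
  classical
  rw [e_step, B.e_state _ (B.mem j), map_zero, zero_add, Finset.sum_eq_single j]
  · rw [B.h1]
  · intro l _ hl
    rw [B.h0 l _ (B.mem j) (fun h => hl (B.inj h).symm), Finsupp.single_zero]
  · intro h
    exact absurd (Finset.mem_univ j) h

/-- the linearized deformation -/
noncomputable def θ : (ℕ →₀ F) →ₗ[F] Fr F J := Finsupp.linearCombination F B.e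

lemma θ_single (k : ℕ) (x : F) : B.θ (Finsupp.single k x) = x • B.e k := by
  simp [θ]

lemma θ_dN (a : ℕ →₀ F) : B.θ (dN A.dF A.n a) = dV A.dF J (B.θ a) +
    ∑ j, Finsupp.single (j, 0) (pr A.y (B.Δ j) a) := by
  induction a using Finsupp.induction_linear with
  | zero => simp
  | add f g hf hg =>
    simp only [map_add, hf, hg, Finsupp.single_add, Finset.sum_add_distrib]
    abel
  | single k x =>
    rw [dN_single, map_add, θ_single, θ_single, θ_single, e_step, dV_smul, smul_add,
      Finset.smul_sum, ← add_assoc]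
    congr 1
    refine Finset.sum_congr rfl (fun j _ => ?_)
    rw [Finsupp.smul_single, pr_single, smul_eq_mul]

lemma θ_dN_mem (a : ℕ →₀ F) (ha : a ∈ A.V0) :
    B.θ (dN A.dF A.n a) = dV A.dF J (B.θ a) := by
  rw [θ_dN, Finset.sum_eq_zero, add_zero]
  intro j _
  rw [ha (B.Δ j) (B.hK j), Finsupp.single_zero]

lemma θ_iter (a : ℕ →₀ F) (ha : a ∈ A.V0) (k : ℕ) :
    B.θ (((dN A.dF A.n)^[k]) a) = ((dV A.dF J)^[k]) (B.θ a) := by
  induction k with
  | zero => rfl
  | succ k ih =>
    rw [Function.iterate_succ_apply', Function.iterate_succ_apply',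
      B.θ_dN_mem _ (A.V0_iter a ha k), ih]

lemma θ_low (b : ℕ) (hb : ∀ j, b ≤ B.κ j) (p : MvPolynomial ℕ K)
    (hp : ∀ k ∈ p.vars, k < b + A.n) : B.θ (gr A.y p) = 0 := by
  rw [θ, Finsupp.linearCombination_apply]
  refine Finset.sum_eq_zero (fun k hk => ?_)
  have hk' : k ∈ p.vars := by
    by_contra h
    apply Finsupp.mem_support_iff.1 hk
    rw [gr_apply, MvPolynomial.pderiv_eq_zero_of_notMem_vars h, map_zero]
  change (gr A.y p) k • B.e k = 0
  rw [B.e_low b hb k (hp k hk'), smul_zero]

/-- preimages of the basis -/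
theorem exists_pre (j : J) : ∃ h ∈ A.V0, B.θ h = Finsupp.single (j, 0) 1 := by
  classical
  choose! D h1 h2 h3 h4 using fun s (hs : s ∈ A.S) => exists_dual A.y A.S A.hS A.hS' s hs
  refine ⟨Finsupp.single (B.κ j + A.n) 1 -
    ∑ s ∈ A.S, Finsupp.single s (D s (A.y (B.κ j + A.n))), ?_, ?_⟩
  · intro Δ hΔ
    rw [map_sub, map_sum, pr_single, one_mul]
    -- the difference derivation
    let E : Der F :=
      { f := { toFun := fun x => Δ x - ∑ s ∈ A.S, D s x * Δ (A.y s)
               map_zero' := by simp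
               map_add' := by
                 intro a b
                 simp only [map_add, add_mul, Finset.sum_add_distrib]
                 ring }
        leib' := by
          intro a b
          simp only [AddMonoidHom.coe_mk, ZeroHom.coe_mk, Δ.mul, mul_sub, Finset.mul_sum]
          have : ∀ s ∈ A.S, D s (a * b) * Δ (A.y s) = a * (D s b * Δ (A.y s)) +
              b * (D s a * Δ (A.y s)) := by
            intro s _
            rw [(D s).mul]; ring
          rw [Finset.sum_congr rfl this, Finset.sum_add_distrib]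
          ring }
    have hE : ∀ x, E x = Δ x - ∑ s ∈ A.S, D s x * Δ (A.y s) := fun x => rfl
    have hE0 : E (A.y (B.κ j + A.n)) = 0 := by
      refine der_zero_of_alg (R := adjoin K (A.y '' {l | l ∈ A.S ∧ l ≤ B.κ j + A.n}))
        Subtype.val_injective E ?_ _ (A.hS' _)
      rintro ⟨r, hr⟩
      change E r = 0
      refine Algebra.adjoin_induction ?_ ?_ ?_ ?_ hr
      · rintro x ⟨l, hl, rfl⟩
        rw [hE, Finset.sum_eq_single l]
        · rw [h2 l hl.1]; ring
        · intro s hs hsl
          rw [h3 s hs l hl.1 (Ne.symm hsl), zero_mul]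
        · intro h; exact absurd hl.1 h
      · intro c
        rw [hE, hΔ, Finset.sum_eq_zero, sub_zero]
        intro s hs
        rw [h1 s hs, zero_mul]
      · intro a b _ _ ha hb
        simp [ha, hb]
      · intro a b _ _ ha hb
        simp [E.mul, ha, hb]
    rw [hE] at hE0
    rw [← hE0]
    congr 1
    refine Finset.sum_congr rfl (fun s _ => ?_)
    rw [pr_single]
  · rw [map_sub, map_sum, θ_single, e_top, one_smul, Finset.sum_eq_zero, sub_zero]
    intro s hs
    rw [θ_single, B.e_state s hs, smul_zero]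

end Dirs

end Pool.Agent.JB
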