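import Mathlib
import Pool.Agent.Work.MP_71fd89_ag.JTheta
import Pool.Agent.Work.MP_71fd89_ag.JExt
import Pool.Agent.Work.MP_71fd89_ag.JBDeform

/-! # Deformation in several directions, and its perturbation -/

set_option autoImplicit false

namespace Pool.Agent.JB

open Algebra

/-- the deformed derivation -/
noncomputable def DD {E J : Type} [Field E] [Fintype J] (δ : Option J → Der E)
    (z : J → Polynomial E) : Der (Polynomial E) where
  f := { toFun := fun r => polyDer (δ none) r + ∑ j, z j * polyDer (δ (some j)) r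
         map_zero' := by simp
         map_add' := by
           intro a b
           simp only [map_add, mul_add, Finset.sum_add_distrib]
           ring }
  leib' := by
    intro a b
    simp only [AddMonoidHom.coe_mk, ZeroHom.coe_mk, Der.mul, mul_add, Finset.mul_sum,
      Finset.sum_add_distrib]
    have h1 : ∀ j, z j * (a * polyDer (δ (some j)) b) = a * (z j * polyDer (δ (some j)) b) := by
      intro j; ring
    have h2 : ∀ j, z j * (b * polyDer (δ (some j)) a) = b * (z j * polyDer (δ (some j)) a) := by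
      intro j; ring
    simp only [h1, h2]
    ring

section

variable {E J : Type} [Field E] [Fintype J] (δ : Option J → Der E) (z : J → Polynomial E)

lemma DD_apply (r : Polynomial E) :
    DD δ z r = polyDer (δ none) r + ∑ j, z j * polyDer (δ (some j)) r := rfl

lemma DD_X : DD δ z Polynomial.X = 0 := by
  rw [DD_apply]
  simp

lemma DD_C (x : E) : DD δ z (Polynomial.C x) = Polynomial.C (δ none x) +
    ∑ j, z j * Polynomial.C (δ (some j) x) := by
  rw [DD_apply]
  simp

lemma polyDer_X_pow_mul (d : Der E) (m : ℕ) (r : Polynomial E) :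
    polyDer d (Polynomial.X ^ m * r) = Polynomial.X ^ m * polyDer d r := by
  rw [Der.mul, (polyDer d).pow_zero_of _ (polyDer_X d), mul_zero, add_zero]

lemma DD_X_pow_mul (m : ℕ) (r : Polynomial E) :
    DD δ z (Polynomial.X ^ m * r) = Polynomial.X ^ m * DD δ z r := by
  rw [Der.mul, (DD δ z).pow_zero_of _ (DD_X δ z), mul_zero, add_zero]

lemma polyDer_map {E' : Type} [Field E'] (d : Der E) (d' : Der E') (g : E →+* E')
    (hg : ∀ x, d' (g x) = g (d x)) (r : Polynomial E) :
    polyDer d' (r.map g) = (polyDer d r).map g := by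
  have := intertwine_poly (Polynomial.mapRingHom g) (polyDer d) (polyDer d')
    (by intro b; simp [hg]) (by simp) r
  exact this.symm

lemma DD_map {E' : Type} [Field E'] (δ' : Option J → Der E') (g : E →+* E')
    (hg : ∀ i x, δ' i (g x) = g (δ i x)) (r : Polynomial E) :
    DD δ' (fun j => (z j).map g) (r.map g) = (DD δ z r).map g := by
  rw [DD_apply, DD_apply, Polynomial.map_add, polyDer_map _ _ g (hg none), Polynomial.map_sum]
  congr 1
  refine Finset.sum_congr rfl (fun j _ => ?_)
  rw [Polynomial.map_mul, polyDer_map _ _ g (hg (some j))]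

end

/-- a field to which the data are deformed -/
structure Tgt {K F I : Type} [Field K] [Field F] [Algebra K F] {A : Sys K F I} {J : Type}
    (B : Dirs A J) (E : Type) [Field E] where
  δ : Option J → Der E
  f : F →+* E
  h0 : ∀ x, δ none (f x) = f (A.dF x)
  hj : ∀ j x, δ (some j) (f x) = f (B.Δ j x)

namespace Tgt

variable {K F I : Type} [Field K] [Field F] [CharZero F] [Algebra K F] {A : Sys K F I}
  {J : Type} [Fintype J] {B : Dirs A J} {E : Type} [Field E] (W : Tgt B E)
  (z : J → Polynomial E)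

/-- the deformed evaluation -/
noncomputable def rz : MvPolynomial ℕ K →+* Polynomial E :=
  MvPolynomial.eval₂Hom ((Polynomial.C.comp W.f).comp (algebraMap K F))
    (fun k => ((DD W.δ z)^[k / A.n]) (Polynomial.C (W.f (A.y (k % A.n)))))

lemma rz_C (c : K) : W.rz z (MvPolynomial.C c) = Polynomial.C (W.f (algebraMap K F c)) := by
  simp [rz]

lemma rz_init (k : ℕ) (hk : k < A.n) :
    W.rz z (MvPolynomial.X k) = Polynomial.C (W.f (A.y k)) := by
  simp [rz, Nat.div_eq_of_lt hk, Nat.mod_eq_of_lt hk]

lemma rz_step (k : ℕ) : W.rz z (MvPolynomial.X (k + A.n)) =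
    DD W.δ z (W.rz z (MvPolynomial.X k)) := by
  simp only [rz, MvPolynomial.coe_eval₂Hom, MvPolynomial.eval₂_X]
  rw [Nat.add_div_right _ A.hn, Nat.add_mod_right, Function.iterate_succ_apply']

lemma DD_C_f (x : F) : DD W.δ z (Polynomial.C (W.f x)) = Polynomial.C (W.f (A.dF x)) +
    ∑ j, z j * Polynomial.C (W.f (B.Δ j x)) := by
  rw [DD_C, W.h0]
  congr 1
  refine Finset.sum_congr rfl (fun j _ => ?_)
  rw [W.hj]

lemma rz_D (p : MvPolynomial ℕ K) : W.rz z (A.D p) = DD W.δ z (W.rz z p) := by
  apply intertwine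
  · intro c
    rw [A.hDC, rz_C, rz_C, DD_C_f, A.hdF]
    simp [B.hK]
  · intro k
    rw [A.hDX]
    exact W.rz_step z k

lemma rz_next (k : ℕ) (hk : W.rz z (MvPolynomial.X k) = Polynomial.C (W.f (A.y k))) :
    W.rz z (MvPolynomial.X (k + A.n)) = Polynomial.C (W.f (A.y (k + A.n))) +
      ∑ j, z j * Polynomial.C (W.f (B.Δ j (A.y k))) := by
  rw [rz_step, hk, DD_C_f, A.hy]

lemma rz_low (b : ℕ) (hb : ∀ j, b ≤ B.κ j) (k : ℕ) (hk : k < b + A.n) :
    W.rz z (MvPolynomial.X k) = Polynomial.C (W.f (A.y k)) := by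
  induction k using Nat.strong_induction_on with
  | _ k ih =>
  by_cases hkn : k < A.n
  · exact W.rz_init z k hkn
  · have hn := A.hn
    obtain ⟨k', rfl⟩ : ∃ k', k = k' + A.n := ⟨k - A.n, by omega⟩
    rw [W.rz_next z k' (ih k' (by omega) (by omega)), Finset.sum_eq_zero, add_zero]
    intro j _
    rw [B.hlow j k' (by have := hb j; omega), map_zero, map_zero, mul_zero]

lemma rz_state (k : ℕ) (hk : k ∈ A.S) :
    W.rz z (MvPolynomial.X k) = Polynomial.C (W.f (A.y k)) := by
  induction k using Nat.strong_induction_on with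
  | _ k ih =>
  by_cases hkn : k < A.n
  · exact W.rz_init z k hkn
  · have hn := A.hn
    obtain ⟨k', rfl⟩ : ∃ k', k = k' + A.n := ⟨k - A.n, by omega⟩
    have hk' := A.desc k' hk
    rw [W.rz_next z k' (ih k' (by omega) hk'), Finset.sum_eq_zero, add_zero]
    intro j _
    rw [B.h0 j k' hk' (by rintro rfl; exact B.last j hk), map_zero, map_zero, mul_zero]

lemma rz_top (j : J) : W.rz z (MvPolynomial.X (B.κ j + A.n)) =
    Polynomial.C (W.f (A.y (B.κ j + A.n))) + z j := by
  classical
  rw [W.rz_next z _ (W.rz_state z _ (B.mem j)), Finset.sum_eq_single j]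
  · rw [B.h1, map_one, map_one, mul_one]
  · intro l _ hl
    rw [B.h0 l _ (B.mem j) (fun h => hl (B.inj h).symm), map_zero, map_zero, mul_zero]
  · intro h
    exact absurd (Finset.mem_univ j) h

lemma rz_of_vars (p : MvPolynomial ℕ K)
    (hp : ∀ k ∈ p.vars, W.rz z (MvPolynomial.X k) = Polynomial.C (W.f (A.y k))) :
    W.rz z p = Polynomial.C (W.f (MvPolynomial.aeval A.y p)) := by
  have h := MvPolynomial.hom_congr_vars (f₁ := W.rz z)
    (f₂ := ((Polynomial.C.comp W.f : F →+* Polynomial E)).comp
      ((MvPolynomial.aeval A.y : MvPolynomial ℕ K →ₐ[K] F) : MvPolynomial ℕ K →+* F))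
    (p₁ := p) (p₂ := p) ?_ ?_ rfl
  · exact h
  · ext c
    simp [rz_C]
  · intro k hk _
    rw [hp k hk]
    simp

lemma rz_zero (p : MvPolynomial ℕ K) :
    W.rz (0 : J → Polynomial E) p = Polynomial.C (W.f (MvPolynomial.aeval A.y p)) := by
  apply W.rz_of_vars
  intro k hk
  clear hk
  induction k using Nat.strong_induction_on with
  | _ k ih =>
  by_cases hkn : k < A.n
  · exact W.rz_init _ k hkn
  · have hn := A.hn
    obtain ⟨k', rfl⟩ : ∃ k', k = k' + A.n := ⟨k - A.n, by omega⟩
    rw [W.rz_next _ k' (ih k' (by omega))]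
    simp

lemma coeff_DD (hz : ∀ j, Polynomial.X ∣ z j) (r : Polynomial E) :
    (DD W.δ z r).coeff 0 = W.δ none (r.coeff 0) := by
  rw [DD_apply, Polynomial.coeff_add, coeff_zero_polyDer, Polynomial.finsetSum_coeff,
    Finset.sum_eq_zero, add_zero]
  intro j _
  rw [Polynomial.mul_coeff_zero, Polynomial.X_dvd_iff.1 (hz j), zero_mul]

lemma rz_coeff (hz : ∀ j, Polynomial.X ∣ z j) (p : MvPolynomial ℕ K) :
    (W.rz z p).coeff 0 = W.f (MvPolynomial.aeval A.y p) := by
  have h : (Polynomial.constantCoeff).comp (W.rz z) =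
      W.f.comp ((MvPolynomial.aeval A.y : MvPolynomial ℕ K →ₐ[K] F) : MvPolynomial ℕ K →+* F) := by
    apply MvPolynomial.ringHom_ext
    · intro c
      simp [rz_C]
    · intro k
      induction k using Nat.strong_induction_on with
      | _ k ih =>
      by_cases hkn : k < A.n
      · simp [W.rz_init z k hkn]
      · have hn := A.hn
        obtain ⟨k', rfl⟩ : ∃ k', k = k' + A.n := ⟨k - A.n, by omega⟩
        have := ih k' (by omega)
        simp only [RingHom.comp_apply, RingHom.coe_coe, MvPolynomial.aeval_X,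
          Polynomial.constantCoeff_apply] at this ⊢
        rw [W.rz_step z, W.coeff_DD z hz, this, W.h0, A.hy]
  exact congrArg (fun g : MvPolynomial ℕ K →+* E => g p) h

/-- extension of the target -/
def map {E' : Type} [Field E'] (δ' : Option J → Der E') (g : E →+* E')
    (hg : ∀ i x, δ' i (g x) = g (W.δ i x)) : Tgt B E' where
  δ := δ'
  f := g.comp W.f
  h0 := by intro x; simp [hg, W.h0]
  hj := by intro j x; simp [hg, W.hj]

lemma rz_map {E' : Type} [Field E'] (δ' : Option J → Der E') (g : E →+* E')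
    (hg : ∀ i x, δ' i (g x) = g (W.δ i x)) (p : MvPolynomial ℕ K) :
    (W.map δ' g hg).rz (fun j => (z j).map g) p = (W.rz z p).map g := by
  have h : (W.map δ' g hg).rz (fun j => (z j).map g) =
      (Polynomial.mapRingHom g).comp (W.rz z) := by
    apply MvPolynomial.ringHom_ext
    · intro c
      simp [rz_C, map]
    · intro k
      induction k using Nat.strong_induction_on with
      | _ k ih =>
      by_cases hkn : k < A.n
      · rw [rz_init _ _ k hkn, RingHom.comp_apply, rz_init _ _ k hkn]
        simp [map]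
      · have hn := A.hn
        obtain ⟨k', rfl⟩ : ∃ k', k = k' + A.n := ⟨k - A.n, by omega⟩
        rw [rz_step, ih k' (by omega), RingHom.comp_apply, RingHom.comp_apply, rz_step]
        exact DD_map W.δ z δ' g hg _
  exact congrArg (fun g : MvPolynomial ℕ K →+* Polynomial E' => g p) h

/-- the effect of a perturbation of order `m` of the directions -/
theorem perturb (hz : ∀ j, Polynomial.X ∣ z j) (m : ℕ) (hm : 0 < m) (ζ : J → E)
    (p : MvPolynomial ℕ K) :
    Polynomial.X ^ (m + 1) ∣ W.rz (fun j => z j + Polynomial.X ^ m * Polynomial.C (ζ j)) p -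
      W.rz z p - Polynomial.X ^ m * Polynomial.C (evl (W.δ none) W.f ζ (B.θ (gr A.y p))) := by
  set z' : J → Polynomial E := fun j => z j + Polynomial.X ^ m * Polynomial.C (ζ j) with hz'def
  have hz' : ∀ j, Polynomial.X ∣ z' j := fun j =>
    dvd_add (hz j) (Dvd.dvd.mul_right (dvd_pow_self _ hm.ne') _)
  have hXX : ∀ k, Polynomial.X ^ (m + 1) ∣ W.rz z' (MvPolynomial.X k) -
      W.rz z (MvPolynomial.X k) - Polynomial.X ^ m *
        Polynomial.C (evl (W.δ none) W.f ζ (B.e k)) := by
    intro k
    induction k using Nat.strong_induction_on with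
    | _ k ih =>
    by_cases hkn : k < A.n
    · rw [rz_init _ _ k hkn, rz_init _ _ k hkn, B.e_lt k hkn]
      simp
    · have hn := A.hn
      obtain ⟨k', rfl⟩ : ∃ k', k = k' + A.n := ⟨k - A.n, by omega⟩
      obtain ⟨r, hr⟩ := ih k' (by omega)
      set a := W.rz z (MvPolynomial.X k') with ha
      set ε := evl (W.δ none) W.f ζ (B.e k') with hε
      have h1 : W.rz z' (MvPolynomial.X k') = a + Polynomial.X ^ m * Polynomial.C ε +
          Polynomial.X ^ (m + 1) * r := by
        rw [← hr]; ring
      have ha0 : a.coeff 0 = W.f (A.y k') := by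
        rw [ha, W.rz_coeff z hz, MvPolynomial.aeval_X]
      -- the value of the new derivation
      have h2 : DD W.δ z' a = DD W.δ z a + Polynomial.X ^ m *
          ∑ j, Polynomial.C (ζ j) * polyDer (W.δ (some j)) a := by
        rw [DD_apply, DD_apply, Finset.mul_sum, add_assoc, ← Finset.sum_add_distrib]
        congr 1
        refine Finset.sum_congr rfl (fun j _ => ?_)
        rw [hz'def]
        ring
      have h3 : Polynomial.X ∣ (∑ j, Polynomial.C (ζ j) * polyDer (W.δ (some j)) a) -
          Polynomial.C (∑ j, ζ j * W.f (B.Δ j (A.y k'))) := by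
        rw [Polynomial.X_dvd_iff, Polynomial.coeff_sub, Polynomial.finsetSum_coeff,
          Polynomial.coeff_C_zero, sub_eq_zero]
        refine Finset.sum_congr rfl (fun j _ => ?_)
        rw [Polynomial.mul_coeff_zero, coeff_zero_polyDer, ha0, W.hj, Polynomial.coeff_C_zero]
      have h4 : Polynomial.X ∣ DD W.δ z' (Polynomial.C ε) - Polynomial.C (W.δ none ε) := by
        rw [Polynomial.X_dvd_iff, Polynomial.coeff_sub, W.coeff_DD z' hz', Polynomial.coeff_C_zero,
          Polynomial.coeff_C_zero, sub_self]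
      have h5 : evl (W.δ none) W.f ζ (B.e (k' + A.n)) = W.δ none ε +
          ∑ j, ζ j * W.f (B.Δ j (A.y k')) := by
        rw [B.e_step, map_add, evl_dV A.dF (W.δ none) W.f ζ W.h0, map_sum]
        congr 1
        refine Finset.sum_congr rfl (fun j _ => ?_)
        rw [evl_single, mul_comm]
        rfl
      obtain ⟨c3, hc3⟩ := h3
      obtain ⟨c4, hc4⟩ := h4
      rw [rz_step, rz_step, h1, map_add, map_add, DD_X_pow_mul, DD_X_pow_mul, h2, h5, map_add]
      refine ⟨c3 + c4 + DD W.δ z' r, ?_⟩
      have e3 : (∑ j, Polynomial.C (ζ j) * polyDer (W.δ (some j)) a) =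
          Polynomial.C (∑ j, ζ j * W.f (B.Δ j (A.y k'))) + Polynomial.X * c3 := by
        rw [← hc3]; ring
      have e4 : DD W.δ z' (Polynomial.C ε) = Polynomial.C (W.δ none ε) + Polynomial.X * c4 := by
        rw [← hc4]; ring
      rw [e3, e4, pow_succ]
      ring
  induction p using MvPolynomial.induction_on with
  | C c =>
    rw [rz_C, rz_C, gr_C]
    simp
  | add p q hp hq =>
    have := dvd_add hp hq
    rw [gr_add, map_add, map_add, map_add, map_add, map_add]
    convert this using 1
    ring
  | mul_X p k hp =>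
    obtain ⟨r1, hr1⟩ := hp
    obtain ⟨r2, hr2⟩ := hXX k
    have hlin : evl (W.δ none) W.f ζ (B.θ (gr A.y (p * MvPolynomial.X k))) =
        W.f (MvPolynomial.aeval A.y p) * evl (W.δ none) W.f ζ (B.e k) +
        W.f (A.y k) * evl (W.δ none) W.f ζ (B.θ (gr A.y p)) := by
      rw [gr_mul, map_add, map_smul, map_smul, map_add, evl_smul, evl_smul, gr_X, B.θ_single,
        one_smul, MvPolynomial.aeval_X]
    rw [hlin, map_mul, map_mul]
    set a := W.rz z p with ha
    set b := W.rz z (MvPolynomial.X k) with hb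
    set α := evl (W.δ none) W.f ζ (B.θ (gr A.y p)) with hα
    set β := evl (W.δ none) W.f ζ (B.e k) with hβ
    have ha0 : Polynomial.X ∣ a - Polynomial.C (W.f (MvPolynomial.aeval A.y p)) := by
      rw [Polynomial.X_dvd_iff, Polynomial.coeff_sub, ha, W.rz_coeff z hz, Polynomial.coeff_C_zero,
        sub_self]
    have hb0 : Polynomial.X ∣ b - Polynomial.C (W.f (A.y k)) := by
      rw [Polynomial.X_dvd_iff, Polynomial.coeff_sub, hb, W.rz_coeff z hz, Polynomial.coeff_C_zero,
        MvPolynomial.aeval_X, sub_self]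
    obtain ⟨a1, ha1⟩ := ha0
    obtain ⟨b1, hb1⟩ := hb0
    have e1 : W.rz z' p = a + Polynomial.X ^ m * Polynomial.C α + Polynomial.X ^ (m + 1) * r1 := by
      rw [← hr1]; ring
    have e2 : W.rz z' (MvPolynomial.X k) = b + Polynomial.X ^ m * Polynomial.C β +
        Polynomial.X ^ (m + 1) * r2 := by
      rw [← hr2]; ring
    have e3 : a = Polynomial.C (W.f (MvPolynomial.aeval A.y p)) + Polynomial.X * a1 := by
      rw [← ha1]; ring
    have e4 : b = Polynomial.C (W.f (A.y k)) + Polynomial.X * b1 := by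
      rw [← hb1]; ring
    obtain ⟨m', rfl⟩ : ∃ m', m = m' + 1 := ⟨m - 1, by omega⟩
    rw [e1, e2, map_add, map_mul, map_mul]
    refine ⟨a1 * Polynomial.C β + b1 * Polynomial.C α + a * r2 + b * r1 +
      Polynomial.X ^ m' * (Polynomial.C α * Polynomial.C β) +
      Polynomial.X ^ (m' + 1) * (Polynomial.C α * r2 + r1 * Polynomial.C β +
        Polynomial.X * (r1 * r2)), ?_⟩
    have e5 : (a + Polynomial.X ^ (m' + 1) * Polynomial.C α + Polynomial.X ^ (m' + 1 + 1) * r1) *
        (b + Polynomial.X ^ (m' + 1) * Polynomial.C β + Polynomial.X ^ (m' + 1 + 1) * r2) - a * b =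
        Polynomial.X ^ (m' + 1) * (a * Polynomial.C β + b * Polynomial.C α) +
        Polynomial.X ^ (m' + 1 + 1) * (a * r2 + b * r1 +
          Polynomial.X ^ m' * (Polynomial.C α * Polynomial.C β) +
          Polynomial.X ^ (m' + 1) * (Polynomial.C α * r2 + r1 * Polynomial.C β +
            Polynomial.X * (r1 * r2))) := by
      ring
    rw [e5]
    have e6 : Polynomial.X ^ (m' + 1) * (a * Polynomial.C β + b * Polynomial.C α) =
        Polynomial.X ^ (m' + 1) * (Polynomial.C (W.f (MvPolynomial.aeval A.y p)) *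
          Polynomial.C β + Polynomial.C (W.f (A.y k)) * Polynomial.C α) +
        Polynomial.X ^ (m' + 1 + 1) * (a1 * Polynomial.C β + b1 * Polynomial.C α) := by
      conv_lhs => rw [e3, e4]
      ring
    rw [e6]
    ring

end Tgt

end Pool.Agent.JB
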