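import Mathlib
import Pool.Agent.Work.MP_71fd89_ag.JTheta

/-! # Independence of the linear parts of the top equations -/

set_option autoImplicit false

namespace Pool.Agent.JB

open Algebra

/-- independence of a family that is split by a linear map -/
lemma indep_split {F M M' ι ι' : Type} [Field F] [AddCommGroup M] [Module F M] [AddCommGroup M']
    [Module F M'] (φ : M →ₗ[F] M') (v : ι → M) (w : ι' → M) (hv : LinearIndependent F v)
    (hv0 : ∀ i, φ (v i) = 0) (hw : LinearIndependent F (fun i => φ (w i))) :
    LinearIndependent F (Sum.elim v w) := by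
  have hw' : LinearIndependent F w := LinearIndependent.of_comp φ hw
  refine LinearIndependent.sum_type hv hw' ?_
  rw [Submodule.disjoint_def]
  intro x hx hx'
  have h1 : φ x = 0 := by
    refine Submodule.span_induction ?_ ?_ ?_ ?_ hx
    · rintro _ ⟨i, rfl⟩; exact hv0 i
    · exact map_zero _
    · intro a b _ _ ha hb; rw [map_add, ha, hb, add_zero]
    · intro c a _ ha; rw [map_smul, ha, smul_zero]
  obtain ⟨c, rfl⟩ := (Finsupp.mem_span_range_iff_exists_finsupp).1 hx'
  have h2 : Finsupp.linearCombination F (fun i => φ (w i)) c = 0 := by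
    rw [Finsupp.linearCombination_apply]
    rw [Finsupp.sum, map_sum] at h1
    simpa [Finsupp.sum] using h1
  have h3 : c = 0 := (linearIndependent_iff.1 hw) c h2
  rw [h3]
  simp

/-- the free module on `J` : the family of the generators is independent -/
lemma indep_gen {F J : Type} [Field F] (δ : Der F) :
    LinearIndependent F (fam (dV δ J) (fun j : J => Finsupp.single (j, 0) (1 : F))) := by
  have h : fam (dV δ J) (fun j : J => Finsupp.single (j, 0) (1 : F)) =
      fun p : J × ℕ => Finsupp.single p (1 : F) := by
    funext p
    exact dVk_single δ p.1 p.2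
  rw [h]
  exact Finsupp.linearIndependent_single_one F (J × ℕ)

/-- nonzero elements in different columns are independent -/
lemma indep_cols {F J : Type} [Field F] (δ : Der F) (x : J → Fr F J) (hx : ∀ b, x b ≠ 0)
    (hcol : ∀ b j s, j ≠ b → x b (j, s) = 0) : LinearIndependent F (fam (dV δ J) x) := by
  classical
  rw [linearIndependent_iff]
  intro c hc
  have hval : ∀ q : J × ℕ, ∑ p ∈ c.support, c p * (fam (dV δ J) x p) q = 0 := by
    intro q
    have h1 := DFunLike.congr_fun hc q
    rw [Finsupp.linearCombination_apply, Finsupp.sum, Finsupp.finsetSum_apply] at h1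
    simpa using h1
  ext ⟨b, s⟩
  change c (b, s) = 0
  by_contra hcon
  let N : Finset ℕ := (c.support.filter (fun p => p.1 = b)).image (fun p => p.2)
  have hN : N.Nonempty := ⟨s, Finset.mem_image.2 ⟨(b, s), Finset.mem_filter.2
      ⟨Finsupp.mem_support_iff.2 hcon, rfl⟩, rfl⟩⟩
  obtain ⟨m, hm, hm'⟩ : ∃ m, c (b, m) ≠ 0 ∧ ∀ s, m < s → c (b, s) = 0 := by
    refine ⟨N.max' hN, ?_, ?_⟩
    · obtain ⟨p, hp, hpm⟩ := Finset.mem_image.1 (N.max'_mem hN)
      obtain ⟨hp1, hp2⟩ := Finset.mem_filter.1 hp
      have : p = (b, N.max' hN) := Prod.ext hp2 hpm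
      rw [← this]
      exact Finsupp.mem_support_iff.1 hp1
    · intro s hs
      by_contra h
      have : s ≤ N.max' hN := N.le_max' s (Finset.mem_image.2 ⟨(b, s), Finset.mem_filter.2
        ⟨Finsupp.mem_support_iff.2 h, rfl⟩, rfl⟩)
      omega
  obtain ⟨p0, hp0, hmax⟩ := Finset.exists_max_image (x b).support (fun p => p.2)
    (Finsupp.support_nonempty_iff.2 (hx b))
  have hp0' : x b p0 ≠ 0 := Finsupp.mem_support_iff.1 hp0
  have hp0b : p0.1 = b := by
    by_contra h
    exact hp0' (hcol b p0.1 p0.2 h)
  have habove : ∀ s, p0.2 < s → x b (b, s) = 0 := by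
    intro s hs
    by_contra h
    have := hmax (b, s) (Finsupp.mem_support_iff.2 h)
    exact absurd this (not_le.2 hs)
  have h1 := hval (b, p0.2 + m)
  rw [Finset.sum_eq_single ((b, m) : J × ℕ)] at h1
  · have h2 : fam (dV δ J) x (b, m) (b, p0.2 + m) = x b p0 := by
      have h3 := dVk_top δ (x b) b p0.2 habove m
      rw [show (b, p0.2) = p0 from Prod.ext hp0b.symm rfl] at h3
      exact h3
    rw [h2] at h1
    exact (mul_ne_zero hm hp0') h1
  · rintro ⟨b', s'⟩ _ hne
    by_cases hb : b' = b
    · subst hb
      rcases lt_trichotomy s' m with h | h | h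
      · have h2 : fam (dV δ J) x (b', s') (b', p0.2 + m) = 0 :=
          dVk_above δ (x b') b' p0.2 habove s' _ (by omega)
        rw [h2, mul_zero]
      · exact absurd (by rw [h]) hne
      · rw [hm' s' h, zero_mul]
    · have h2 : fam (dV δ J) x (b', s') (b, p0.2 + m) = 0 :=
        dVk_col δ (x b') b (fun s => hcol b' b s (Ne.symm hb)) s' _
      rw [h2, mul_zero]
  · intro h
    rw [Finsupp.notMem_support_iff.1 h, zero_mul]

/-- fewer independent rows than columns: one more basis vector is independent of the rows -/
theorem exists_free_col {F J Θ : Type} [Field F] [Fintype J] [Fintype Θ] (δ : Der F)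
    (L : Θ → Fr F J) (hL : LinearIndependent F (fam (dV δ J) L))
    (hcard : Fintype.card Θ < Fintype.card J) :
    ∃ b : J, LinearIndependent F (fam (dV δ J) (fun o : Option Θ =>
      Option.elim o (Finsupp.single (b, 0) (1 : F)) L)) := by
  classical
  by_contra hcon
  push Not at hcon
  have hx : ∀ b : J, ∃ x : Fr F J, x ≠ 0 ∧ (∀ j s, j ≠ b → x (j, s) = 0) ∧
      x ∈ Submodule.span F (Set.range (fam (dV δ J) L)) := by
    intro b
    have h1 := hcon b
    rw [linearIndependent_iff] at h1
    push Not at h1
    obtain ⟨c, hc, hc0⟩ := h1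
    -- the part of the relation in the column
    let c1 : Option Θ × ℕ →₀ F := c.filter (fun p => p.1 = none)
    let c2 : Option Θ × ℕ →₀ F := c.filter (fun p => ¬ p.1 = none)
    have hc12 : c1 + c2 = c := Finsupp.filter_add_filter_not c _
    let Fm := fam (dV δ J) (fun o : Option Θ =>
      Option.elim o (Finsupp.single (b, 0) (1 : F)) L)
    have hsum : Finsupp.linearCombination F Fm c1 + Finsupp.linearCombination F Fm c2 = 0 := by
      rw [← map_add, hc12]; exact hc
    have hx1 : ∀ j s, j ≠ b → (Finsupp.linearCombination F Fm c1) (j, s) = 0 := by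
      intro j s hj
      rw [Finsupp.linearCombination_apply, Finsupp.sum, Finsupp.finsetSum_apply]
      refine Finset.sum_eq_zero (fun p hp => ?_)
      have hp1 : p.1 = none := by
        have := Finsupp.mem_support_iff.1 hp
        by_contra h
        exact this (Finsupp.filter_apply_neg _ _ h)
      obtain ⟨o, r⟩ := p
      simp only at hp1
      subst hp1
      rw [Finsupp.smul_apply]
      have h2 : Fm (none, r) = Finsupp.single (b, r) (1 : F) := dVk_single δ b r
      rw [h2, Finsupp.single_apply, if_neg, smul_zero]
      intro h
      exact hj (congrArg Prod.fst h).symm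
    have hx2 : Finsupp.linearCombination F Fm c2 ∈
        Submodule.span F (Set.range (fam (dV δ J) L)) := by
      rw [Finsupp.linearCombination_apply]
      refine Submodule.sum_mem _ (fun p hp => ?_)
      have hp1 : ¬ p.1 = none := by
        intro h
        have := Finsupp.mem_support_iff.1 hp
        exact this (Finsupp.filter_apply_neg _ _ (not_not.2 h))
      obtain ⟨o, r⟩ := p
      rcases o with _ | i
      · exact absurd rfl hp1
      · exact Submodule.smul_mem _ _ (Submodule.subset_span ⟨(i, r), rfl⟩)
    refine ⟨Finsupp.linearCombination F Fm c1, ?_, hx1, ?_⟩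
    · intro h0
      -- then both parts vanish
      have h3 : ∀ r, c (none, r) = 0 := by
        intro r
        have h4 : Finsupp.linearCombination F Fm c1 (b, r) = c1 (none, r) := by
          rw [Finsupp.linearCombination_apply, Finsupp.sum, Finsupp.finsetSum_apply,
            Finset.sum_eq_single ((none, r) : Option Θ × ℕ)]
          · rw [Finsupp.smul_apply]
            have h2 : Fm (none, r) = Finsupp.single (b, r) (1 : F) := dVk_single δ b r
            rw [h2, Finsupp.single_apply, if_pos rfl, smul_eq_mul, mul_one]
          · rintro ⟨o, r'⟩ hp hne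
            have hp1 : o = none := by
              have := Finsupp.mem_support_iff.1 hp
              by_contra h
              exact this (Finsupp.filter_apply_neg _ _ h)
            subst hp1
            rw [Finsupp.smul_apply]
            have h2 : Fm (none, r') = Finsupp.single (b, r') (1 : F) := dVk_single δ b r'
            rw [h2, Finsupp.single_apply, if_neg, smul_zero]
            intro h
            exact hne (by rw [(Prod.mk.inj h).2])
          · intro h
            rw [Finsupp.notMem_support_iff.1 h, zero_smul]
            rfl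
        rw [h0] at h4
        have h5 : c1 (none, r) = c (none, r) := Finsupp.filter_apply_pos _ _ rfl
        rw [← h5, ← h4]
        rfl
      apply hc0
      have h6 : Finsupp.linearCombination F Fm c2 = 0 := by
        rw [h0, zero_add] at hsum; exact hsum
      -- pull back to `Θ × ℕ`
      let c3 : Θ × ℕ →₀ F := c.comapDomain (fun p => (some p.1, p.2)) (by
        rintro ⟨a, r⟩ _ ⟨a', r'⟩ _ h
        simp only [Prod.mk.injEq, Option.some.injEq] at h
        exact Prod.ext h.1 h.2)
      have hc3a : ∀ i r, c3 (i, r) = c (some i, r) := fun i r => rfl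
      have hc3 : Finsupp.linearCombination F (fam (dV δ J) L) c3 = 0 := by
        rw [← h6, Finsupp.linearCombination_apply, Finsupp.linearCombination_apply]
        refine Finset.sum_of_injOn (fun p => (some p.1, p.2)) ?_ ?_ ?_ ?_
        · rintro ⟨a, r⟩ _ ⟨a', r'⟩ _ h
          simp only [Prod.mk.injEq, Option.some.injEq] at h
          exact Prod.ext h.1 h.2
        · rintro ⟨a, r⟩ hp
          rw [Finset.mem_coe, Finsupp.mem_support_iff] at hp ⊢
          rw [Finsupp.filter_apply_pos _ _ (by simp), ← hc3a]
          exact hp
        · rintro ⟨o, r⟩ hp hnot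
          rcases o with _ | i
          · have := Finsupp.mem_support_iff.1 hp
            exact absurd (Finsupp.filter_apply_neg _ _ (by simp)) this
          · exfalso
            apply hnot
            refine ⟨(i, r), ?_, rfl⟩
            rw [Finset.mem_coe, Finsupp.mem_support_iff]
            have h7 := Finsupp.mem_support_iff.1 hp
            rw [Finsupp.filter_apply_pos _ _ (by simp), ← hc3a] at h7
            exact h7
        · rintro ⟨a, r⟩ _
          rw [hc3a]
          simp only [c2]
          rw [Finsupp.filter_apply_pos _ _ (by simp)]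
          rfl
      have hc30 := (linearIndependent_iff.1 hL) c3 hc3
      ext ⟨o, r⟩
      rcases o with _ | i
      · exact h3 r
      · have := DFunLike.congr_fun hc30 (i, r)
        rw [hc3a] at this
        exact this
    · have h7 : Finsupp.linearCombination F Fm c1 = - Finsupp.linearCombination F Fm c2 :=
        eq_neg_of_add_eq_zero_left hsum
      rw [h7]
      exact Submodule.neg_mem _ hx2
  choose x hx0 hxcol hxspan using hx
  have h1 := rank_le δ (dV δ J) (dV_smul δ) L x hxspan (indep_cols δ x hx0 hxcol)
  omega

end Pool.Agent.JB
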