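import Mathlib
import Pool.Agent.Work.MP_71fd89_ag.JTop

/-! # The number of directions -/

set_option autoImplicit false

namespace Pool.Agent.JB

open Algebra

lemma dNk_single {F : Type} [Field F] (δ : Der F) (n j s : ℕ) :
    ((dN δ n)^[s]) (Finsupp.single j (1 : F)) = Finsupp.single (j + s * n) (1 : F) := by
  induction s with
  | zero => simp
  | succ s ih =>
    rw [Function.iterate_succ_apply', ih, dN_single, Der.one, Finsupp.single_zero, zero_add]
    congr 1
    ring

namespace Dirs

variable {K F I : Type} [Field K] [Field F] [CharZero F] [Algebra K F] {A : Sys K F I}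
  {J : Type} [Fintype J] (B : Dirs A J)

lemma mem_span_gen (a : ℕ →₀ F) : a ∈ Submodule.span F (Set.range (fam (dN A.dF A.n)
    (fun j : Fin A.n => Finsupp.single (j : ℕ) (1 : F)))) := by
  induction a using Finsupp.induction_linear with
  | zero => exact Submodule.zero_mem _
  | add f g hf hg => exact Submodule.add_mem _ hf hg
  | single k x =>
    have h1 : Finsupp.single k x = x • Finsupp.single k (1 : F) := by simp
    rw [h1]
    refine Submodule.smul_mem _ _ (Submodule.subset_span
      ⟨(⟨k % A.n, Nat.mod_lt _ A.hn⟩, k / A.n), ?_⟩)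
    simp only [fam]
    rw [dNk_single]
    congr 1
    rw [add_comm]
    exact Nat.div_add_mod' k A.n

/-- the number of directions plus the rank of what they do not see is at most the number
of unknowns -/
theorem count {Λ : Type} [Fintype Λ] (w : Λ → (ℕ →₀ F))
    (hw : LinearIndependent F (fam (dN A.dF A.n) w)) (hmem : ∀ l, w l ∈ A.V0)
    (hθ : ∀ l, B.θ (w l) = 0) : Fintype.card Λ + Fintype.card J ≤ A.n := by
  classical
  choose h hh1 hh2 using B.exists_pre
  have h1 : LinearIndependent F (Sum.elim (fam (dN A.dF A.n) w) (fam (dN A.dF A.n) h)) := by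
    refine indep_split B.θ _ _ hw ?_ ?_
    · rintro ⟨l, s⟩
      simp only [fam]
      rw [B.θ_iter _ (hmem l), hθ]
      clear hw
      induction s with
      | zero => rfl
      | succ s ih => rw [Function.iterate_succ_apply', ih, map_zero]
    · have h2 : (fun p : J × ℕ => B.θ (fam (dN A.dF A.n) h p)) =
          fam (dV A.dF J) (fun j : J => Finsupp.single (j, 0) (1 : F)) := by
        funext p
        simp only [fam]
        rw [B.θ_iter _ (hh1 p.1), hh2]
      rw [h2]
      exact indep_gen A.dF
  have h2 : LinearIndependent F (fam (dN A.dF A.n) (Sum.elim w h)) := by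
    have h3 : fam (dN A.dF A.n) (Sum.elim w h) =
        (Sum.elim (fam (dN A.dF A.n) w) (fam (dN A.dF A.n) h)) ∘
          (Equiv.sumProdDistrib Λ J ℕ) := by
      funext ⟨x, s⟩
      rcases x with l | j <;> rfl
    rw [h3]
    exact h1.comp _ (Equiv.injective _)
  have h3 := rank_le A.dF (dN A.dF A.n) (dN_smul A.dF A.n)
    (fun j : Fin A.n => Finsupp.single (j : ℕ) (1 : F)) (Sum.elim w h)
    (fun l => mem_span_gen _) h2
  rwa [Fintype.card_sum, Fintype.card_fin] at h3

/-- the number of directions plus the number of independent equations that do not see them is at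
most the number of unknowns -/
theorem count_low (U : Finset I)
    (hLI : LinearIndependent F (fam (dN A.dF A.n)
      (fun i : {i // i ∈ U} => gr A.y (A.u i))))
    (hU : ∀ i, i ∈ U → B.θ (gr A.y (A.u i)) = 0) : U.card + Fintype.card J ≤ A.n := by
  have h1 := B.count (fun i : {i // i ∈ U} => gr A.y (A.u i)) hLI
    (fun i => A.gr_mem _ (A.hu i)) (fun i => hU i.1 i.2)
  rwa [Fintype.card_coe] at h1

lemma lc_mem {Θ : Type} (v : Θ → (ℕ →₀ F)) (hmem : ∀ i, v i ∈ A.V0) (b : Fr F Θ) :
    lc (dN A.dF A.n) v b ∈ A.V0 := by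
  rw [lc, Finsupp.linearCombination_apply]
  refine Submodule.sum_mem _ (fun p _ => ?_)
  exact Submodule.smul_mem _ _ (A.V0_iter _ (hmem p.1) p.2)

lemma θ_lc {Θ : Type} (v : Θ → (ℕ →₀ F)) (hmem : ∀ i, v i ∈ A.V0) (b : Fr F Θ) :
    B.θ (lc (dN A.dF A.n) v b) = lc (dV A.dF J) (fun i => B.θ (v i)) b := by
  rw [lc, lc, Finsupp.linearCombination_apply, Finsupp.linearCombination_apply, Finsupp.sum,
    map_sum]
  refine Finset.sum_congr rfl (fun p _ => ?_)
  rw [map_smul]
  congr 1
  exact B.θ_iter _ (hmem p.1) p.2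

/-- one combination of independent equations that is not seen by the directions -/
theorem count_replace {Θ : Type} [Fintype Θ] (v : Θ → (ℕ →₀ F))
    (hv : LinearIndependent F (fam (dN A.dF A.n) v)) (hmem : ∀ i, v i ∈ A.V0) (T : Finset Θ)
    (hT : ∀ i, i ∉ T → B.θ (v i) = 0) (a : Fr F Θ) (ha : ∀ p, p.1 ∉ T → a p = 0) (ha0 : a ≠ 0)
    (hθ : lc (dV A.dF J) (fun i => B.θ (v i)) a = 0) :
    Fintype.card Θ - T.card + 1 + Fintype.card J ≤ A.n := by
  classical
  have h0 : LinearIndependent F (fam (dN A.dF A.n)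
      (fun o : Option {i // i ∉ (T : Set Θ)} => lc (dN A.dF A.n) v (repl (T : Set Θ) a o))) :=
    indep_replace A.dF (dN A.dF A.n) (dN_smul A.dF A.n) v hv (T : Set Θ) a ha ha0
  have hm : ∀ o : Option {i // i ∉ (T : Set Θ)},
      lc (dN A.dF A.n) v (repl (T : Set Θ) a o) ∈ A.V0 := fun o => lc_mem v hmem _
  have hz : ∀ o : Option {i // i ∉ (T : Set Θ)},
      B.θ (lc (dN A.dF A.n) v (repl (T : Set Θ) a o)) = 0 := by
    intro o
    rcases o with _ | i
    · rw [B.θ_lc v hmem]
      exact hθ
    · have h2 : lc (dN A.dF A.n) v (repl (T : Set Θ) a (some i)) = v i := lc_single _ _ _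
      rw [h2]
      exact hT _ i.2
  have h1 := B.count _ h0 hm hz
  have h2 : Fintype.card {i // i ∉ (T : Set Θ)} = Fintype.card Θ - T.card := by
    rw [Fintype.card_subtype_compl]
    congr 1
    rw [← Fintype.card_coe T]
    exact Fintype.card_congr (Equiv.refl _)
  rwa [Fintype.card_option, h2] at h1

/-- independence of the linear parts of the top equations when all equations but one are
linearly independent at first order -/
theorem top_indep [Fintype I] (hI : Fintype.card I = A.n) (i0 : I)
    (hLI : LinearIndependent F (fam (dN A.dF A.n)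
      (fun i : {i // i ≠ i0} => gr A.y (A.u i)))) (T : Finset I)
    (hT : ∀ i, i ∉ T → B.θ (gr A.y (A.u i)) = 0) (hJ : T.card < Fintype.card J) :
    LinearIndependent F (fam (dV A.dF J) (fun i : {i // i ∈ T} => B.θ (gr A.y (A.u i)))) := by
  classical
  have hTle : T.card ≤ A.n := by rw [← hI]; exact Finset.card_le_univ T
  by_cases hi0 : i0 ∈ T
  · exfalso
    let ι : {i // i ∈ Tᶜ} × ℕ → {i // i ≠ i0} × ℕ :=
      fun p => (⟨p.1, fun h => (Finset.mem_compl.1 p.1.2) (h ▸ hi0)⟩, p.2)
    have h2 : Function.Injective ι := by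
      rintro ⟨⟨i, hi⟩, s⟩ ⟨⟨i', hi'⟩, s'⟩ h
      simp only [ι, Prod.mk.injEq, Subtype.mk.injEq] at h
      obtain ⟨rfl, rfl⟩ := h
      rfl
    have h3 : LinearIndependent F (fam (dN A.dF A.n)
        (fun i : {i // i ∈ Tᶜ} => gr A.y (A.u i))) := by
      have h4 : fam (dN A.dF A.n) (fun i : {i // i ∈ Tᶜ} => gr A.y (A.u i)) =
          fam (dN A.dF A.n) (fun i : {i // i ≠ i0} => gr A.y (A.u i)) ∘ ι := by
        funext p
        rfl
      rw [h4]
      exact LinearIndependent.comp hLI ι h2
    have h1 := B.count_low Tᶜ h3 (fun i hi => hT i (Finset.mem_compl.1 hi))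
    rw [Finset.card_compl, hI] at h1
    omega
  · by_contra hcon
    rw [linearIndependent_iff] at hcon
    push Not at hcon
    obtain ⟨c, hc, hc0⟩ := hcon
    let ι : {i // i ∈ T} × ℕ → {i // i ≠ i0} × ℕ :=
      fun p => (⟨p.1, fun h => hi0 (h ▸ p.1.2)⟩, p.2)
    have hι : Function.Injective ι := by
      rintro ⟨⟨i, hi⟩, s⟩ ⟨⟨i', hi'⟩, s'⟩ h
      simp only [ι, Prod.mk.injEq, Subtype.mk.injEq] at h
      obtain ⟨rfl, rfl⟩ := h
      rfl
    have ha0 : c.mapDomain ι ≠ 0 := by
      intro h
      apply hc0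
      apply Finsupp.mapDomain_injective hι
      rw [Finsupp.mapDomain_zero]
      exact h
    let T' : Finset {i // i ≠ i0} := Finset.univ.filter (fun i => (i : I) ∈ T)
    have haT : ∀ p, p.1 ∉ T' → c.mapDomain ι p = 0 := by
      intro p hp
      refine Finsupp.mapDomain_of_notMem_range _ _ ?_
      rintro ⟨q, rfl⟩
      exact hp (Finset.mem_filter.2 ⟨Finset.mem_univ _, q.1.2⟩)
    have h1 := B.count_replace (fun i : {i // i ≠ i0} => gr A.y (A.u i)) hLI
      (fun i => A.gr_mem _ (A.hu i)) T' (fun i hi => hT i (fun h => hi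
        (Finset.mem_filter.2 ⟨Finset.mem_univ _, h⟩))) (c.mapDomain ι) haT ha0 (by
        rw [lc, Finsupp.linearCombination_mapDomain]
        exact hc)
    have h2 : T'.card = T.card := by
      refine Finset.card_bij (fun i _ => (i : I)) ?_ ?_ ?_
      · intro i hi; exact (Finset.mem_filter.1 hi).2
      · intro a _ b _ h; exact Subtype.ext h
      · intro i hi
        exact ⟨⟨i, fun h => hi0 (h ▸ hi)⟩, Finset.mem_filter.2 ⟨Finset.mem_univ _, hi⟩, rfl⟩
    have h3 : Fintype.card {i // i ≠ i0} = A.n - 1 := by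
      rw [Fintype.card_subtype_compl, hI, Fintype.card_subtype_eq]
    have h4 : T.card + 1 ≤ A.n := by
      rw [← hI]
      have h5 : (insert i0 T).card = T.card + 1 := Finset.card_insert_of_notMem hi0
      rw [← h5]
      exact Finset.card_le_univ _
    rw [h2, h3] at h1
    omega

end Dirs

end Pool.Agent.JB
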