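import Mathlib
import Pool.Agent.Work.MP_71fd89_ag.JPert
import Pool.Agent.Work.MP_71fd89_ag.JRank

/-! # Solving the top equations to any order -/

set_option autoImplicit false

namespace Pool.Agent.JB

open Algebra

/-- independent rows take arbitrary values in an extension -/
theorem solve_rows {F J ι Θ : Type} [Field F] [Fintype J] (δF : Der F) (o : ι)
    (L : Θ → Fr F J) (hL : LinearIndependent F (fam (dV δF J) L))
    (E : Type) [Field E] [CharZero E] (δ : ι → Der E) (f : F →+* E)
    (hf : ∀ x, δ o (f x) = f (δF x)) (c : Θ → E) :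
    ∃ (E' : Type) (_ : Field E') (_ : CharZero E') (δ' : ι → Der E') (g : E →+* E') (ζ : J → E'),
      (∀ i x, δ' i (g x) = g (δ i x)) ∧
      ∀ i, evl (δ' o) (g.comp f) ζ (L i) = g (c i) := by
  classical
  let N : Submodule F (Fr F J) := Submodule.span F (Set.range (fam (dV δF J) L))
  have hNlc : ∀ a, a ∈ N ↔ ∃ l : Fr F Θ, lc (dV δF J) L l = a := by
    intro a
    exact Finsupp.mem_span_range_iff_exists_finsupp
  have hN : ∀ a ∈ N, dV δF J a ∈ N := by
    intro a ha
    obtain ⟨l, rfl⟩ := (hNlc a).1 ha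
    exact (hNlc _).2 ⟨dV δF Θ l, lc_dV δF (dV δF J) (dV_smul δF) L l⟩
  let γ : N →+ E := (evl (δ o) f c).comp (hL.repr : N →ₗ[F] (Θ × ℕ →₀ F)).toAddMonoidHom
  have hγ : ∀ a : N, γ a = evl (δ o) f c (hL.repr a) := fun a => rfl
  obtain ⟨E', h1, h2, δ', g, ζ, hg, hζ⟩ := ext_lin δF o (Finset.univ : Finset J) E δ f hf N hN
    (fun a _ p hp => absurd (Finset.mem_univ _) hp) γ
    (by
      intro x a
      rw [hγ, hγ, map_smul, evl_smul])
    (by
      intro a
      rw [hγ, hγ, ← evl_dV δF (δ o) f c hf]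
      congr 1
      refine hL.repr_eq ?_
      change lc (dV δF J) L (dV δF Θ (hL.repr a)) = dV δF J a
      rw [lc_dV δF (dV δF J) (dV_smul δF)]
      congr 1
      exact hL.linearCombination_repr a)
  refine ⟨E', h1, h2, δ', g, ζ, hg, fun i => ?_⟩
  have hmem : L i ∈ N := Submodule.subset_span ⟨(i, 0), rfl⟩
  have h3 := hζ ⟨L i, hmem⟩
  rw [← h3, hγ]
  congr 1
  have h4 : hL.repr ⟨L i, hmem⟩ = Finsupp.single (i, 0) 1 := by
    refine hL.repr_eq ?_
    rw [Finsupp.linearCombination_single, one_smul]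
    rfl
  rw [h4, evl_single, map_one, one_mul]
  rfl

namespace Dirs

variable {K F I : Type} [Field K] [Field F] [CharZero F] [Algebra K F] {A : Sys K F I}
  {J : Type} [Fintype J] (B : Dirs A J)

/-- solutions of the top equations up to order `m` -/
theorem approx (T : Finset I) (b : J)
    (hL : LinearIndependent F (fam (dV A.dF J) (fun o : Option {i // i ∈ T} =>
      Option.elim o (Finsupp.single (b, 0) (1 : F)) (fun i => B.θ (gr A.y (A.u i)))))) (m : ℕ) :
    ∃ (E : Type) (_ : Field E) (_ : CharZero E) (W : Tgt B E) (z : J → Polynomial E),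
      (∀ j, Polynomial.X ∣ z j) ∧ (z b = if m = 0 then 0 else Polynomial.X) ∧
      ∀ i ∈ T, Polynomial.X ^ (m + 1) ∣ W.rz z (A.u i) := by
  classical
  induction m with
  | zero =>
    refine ⟨F, inferInstance, inferInstance, ⟨fun o => Option.elim o A.dF B.Δ, RingHom.id F,
      fun x => rfl, fun j x => rfl⟩, 0, fun j => dvd_zero _, by simp, fun i _ => ?_⟩
    rw [Tgt.rz_zero, A.hu]
    simp
  | succ m ih =>
    obtain ⟨E, _, _, W, z, hz, hzb, hu⟩ := ih
    -- the obstructions
    have hr : ∀ i, ∃ r : Polynomial E, i ∈ T → W.rz z (A.u i) = Polynomial.X ^ (m + 1) * r := by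
      intro i
      by_cases hi : i ∈ T
      · obtain ⟨r, hr⟩ := hu i hi
        exact ⟨r, fun _ => hr⟩
      · exact ⟨0, fun h => absurd h hi⟩
    choose r hr using hr
    obtain ⟨E', _, _, δ', g, ζ, hg, hζ⟩ := solve_rows A.dF (none : Option J)
      (fun o : Option {i // i ∈ T} =>
        Option.elim o (Finsupp.single (b, 0) (1 : F)) (fun i => B.θ (gr A.y (A.u i)))) hL
      E W.δ W.f W.h0
      (fun o => Option.elim o (if m = 0 then 1 else 0) (fun i => - (r i).coeff 0))
    have hζb : ζ b = if m = 0 then 1 else 0 := by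
      have := hζ none
      simp only [Option.elim] at this
      rw [evl_single] at this
      simp only [map_one, one_mul, Function.iterate_zero, id_eq] at this
      rw [this]
      split_ifs <;> simp
    have hζi : ∀ i ∈ T, evl (δ' none) (g.comp W.f) ζ (B.θ (gr A.y (A.u i))) =
        g (- (r i).coeff 0) := fun i hi => hζ (some ⟨i, hi⟩)
    have hz0 : ∀ j, Polynomial.X ∣ (z j).map g := by
      intro j
      obtain ⟨s, hs⟩ := hz j
      exact ⟨s.map g, by rw [hs, Polynomial.map_mul, Polynomial.map_X]⟩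
    refine ⟨E', inferInstance, inferInstance, W.map δ' g hg,
      fun j => (z j).map g + Polynomial.X ^ (m + 1) * Polynomial.C (ζ j), ?_, ?_, ?_⟩
    · intro j
      exact dvd_add (hz0 j) (Dvd.dvd.mul_right (dvd_pow_self _ (Nat.succ_ne_zero m)) _)
    · change (z b).map g + Polynomial.X ^ (m + 1) * Polynomial.C (ζ b) = _
      rw [hzb, hζb]
      by_cases hm : m = 0
      · subst hm; simp
      · simp [hm]
    · intro i hi
      have h1 := (W.map δ' g hg).perturb (fun j => (z j).map g) hz0 (m + 1) (Nat.succ_pos m) ζ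
        (A.u i)
      have h2 : (W.map δ' g hg).rz (fun j => (z j).map g) (A.u i) =
          Polynomial.X ^ (m + 1) * (r i).map g := by
        rw [Tgt.rz_map, hr i hi, Polynomial.map_mul, Polynomial.map_pow, Polynomial.map_X]
      have h3 : evl ((W.map δ' g hg).δ none) (W.map δ' g hg).f ζ (B.θ (gr A.y (A.u i))) =
          g (- (r i).coeff 0) := hζi i hi
      rw [h2, h3] at h1
      have h4 : Polynomial.X ^ (m + 1 + 1) ∣ Polynomial.X ^ (m + 1) * (r i).map g +
          Polynomial.X ^ (m + 1) * Polynomial.C (g (- (r i).coeff 0)) := by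
        rw [← mul_add, pow_succ]
        refine mul_dvd_mul_left _ ?_
        rw [Polynomial.X_dvd_iff, Polynomial.coeff_add, Polynomial.coeff_map,
          Polynomial.coeff_C_zero, map_neg, add_neg_cancel]
      have h5 := dvd_add h1 h4
      convert h5 using 1
      ring

/-- The number of directions is at most the number of equations that see them, as soon as the
linear parts of these equations are independent whenever there are more directions. -/
theorem no_extra (b0 : ℕ) (hb0 : ∀ j, b0 ≤ B.κ j) (T : Finset I)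
    (hT : ∀ i, i ∉ T → ∀ k ∈ (A.u i).vars, k < b0 + A.n)
    (hLI : LinearIndependent F (fam (dV A.dF J)
      (fun i : {i // i ∈ T} => B.θ (gr A.y (A.u i)))))
    (hJ : T.card < Fintype.card J) : False := by
  classical
  obtain ⟨b, hb⟩ := exists_free_col A.dF (fun i : {i // i ∈ T} => B.θ (gr A.y (A.u i))) hLI
    (by rwa [Fintype.card_coe])
  refine contra A.n A.y A.D A.u A.S A.hS (B.κ b) A.hmin (fun M => ?_)
  obtain ⟨E, _, _, W, z, hz, hzb, hu⟩ := B.approx T b hb (M + 1)
  refine ⟨E, inferInstance, W.f, DD W.δ z, 1, W.rz z, one_pos, DD_X _ _, W.rz_D z, W.rz_C z,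
    W.rz_state z, ?_, W.rz_coeff z hz, ?_⟩
  · rw [W.rz_top, hzb]
    simp
  · intro i
    by_cases hi : i ∈ T
    · exact (pow_dvd_pow _ (by omega)).trans (hu i hi)
    · rw [W.rz_of_vars z (A.u i) (fun k hk => W.rz_low z b0 hb0 k (hT i hi k hk)), A.hu]
      simp

end Dirs

end Pool.Agent.JB
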