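import Mathlib
import Pool.Agent.Work.MP_71fd89_ag.JSolve

/-! # Counting columns row by row -/

set_option autoImplicit false

namespace Pool.Agent.JB

open Algebra

namespace Sys

variable {K F I : Type} [Field K] [Field F] [CharZero F] [Algebra K F] (A : Sys K F I)

/-- If in every row the number of columns of states that reach it is at most the number of
equations of larger order, then the number of states is at most the sum of the orders. -/
theorem count_rows [Fintype I] (e : I → ℕ)
    (hrow : ∀ r : ℕ, ∀ J : Finset ℕ, (∀ κ ∈ J, κ ∈ A.S ∧ κ + A.n ∉ A.S ∧ r * A.n ≤ κ) →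
      J.card ≤ (Finset.univ.filter (fun i => r < e i)).card) :
    A.S.card ≤ ∑ i, e i := by
  classical
  have hn := A.hn
  have hex : ∀ j, ∃ s, s * A.n + j ∉ A.S := by
    intro j
    refine ⟨A.S.sup (fun x => x) + 1, fun h => ?_⟩
    have h4 : (A.S.sup (fun x => x) + 1) * A.n + j ≤ A.S.sup (fun x => x) :=
      Finset.le_sup (f := fun x => x) h
    have h5 : A.S.sup (fun x => x) + 1 ≤ (A.S.sup (fun x => x) + 1) * A.n :=
      Nat.le_mul_of_pos_right _ hn
    omega
  let r : ℕ → ℕ := fun j => Nat.find (hex j)
  have hr1 : ∀ j s, s < r j → s * A.n + j ∈ A.S := by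
    intro j s hs
    by_contra h
    exact Nat.find_min (hex j) hs h
  have hr2 : ∀ j s, r j ≤ s → s * A.n + j ∉ A.S := by
    intro j s hs
    induction s, hs using Nat.le_induction with
    | base => exact Nat.find_spec (hex j)
    | succ s _ ih =>
      intro h
      apply ih
      apply A.desc
      have : s * A.n + j + A.n = (s + 1) * A.n + j := by ring
      rw [this]; exact h
  have hcard : A.S.card ≤ ∑ j ∈ Finset.range A.n, r j := by
    have hsub : A.S ⊆ (Finset.range A.n).biUnion
        (fun j => (Finset.range (r j)).image (fun s => s * A.n + j)) := by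
      intro k hk
      rw [Finset.mem_biUnion]
      refine ⟨k % A.n, Finset.mem_range.2 (Nat.mod_lt _ hn), ?_⟩
      rw [Finset.mem_image]
      have hk' : k / A.n * A.n + k % A.n = k := Nat.div_add_mod' k A.n
      refine ⟨k / A.n, Finset.mem_range.2 ?_, hk'⟩
      by_contra hcon
      exact hr2 _ _ (not_lt.1 hcon) (by rw [hk']; exact hk)
    refine (Finset.card_le_card hsub).trans ?_
    refine Finset.card_biUnion_le.trans ?_
    refine Finset.sum_le_sum (fun j _ => ?_)
    refine Finset.card_image_le.trans ?_
    rw [Finset.card_range]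
  have hlast : ∀ j, 0 < r j → ((r j - 1) * A.n + j ∈ A.S ∧ (r j - 1) * A.n + j + A.n ∉ A.S) := by
    intro j hj
    have h4 : (r j - 1) * A.n + j + A.n = r j * A.n + j := by
      obtain ⟨s, hs⟩ : ∃ s, r j = s + 1 := ⟨r j - 1, by omega⟩
      rw [hs]
      simp only [Nat.add_sub_cancel]
      ring
    refine ⟨hr1 j _ (by omega), ?_⟩
    rw [h4]
    exact hr2 j _ le_rfl
  -- the row count
  have hrow' : ∀ s, ((Finset.range A.n).filter (fun j => s < r j)).card ≤
      (Finset.univ.filter (fun i => s < e i)).card := by
    intro s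
    let J : Finset ℕ := ((Finset.range A.n).filter (fun j => s < r j)).image
      (fun j => (r j - 1) * A.n + j)
    have hJ : J.card = ((Finset.range A.n).filter (fun j => s < r j)).card := by
      refine Finset.card_image_of_injOn ?_
      intro j hj j' hj' h
      have hj1 := Finset.mem_range.1 (Finset.mem_filter.1 hj).1
      have hj2 := Finset.mem_range.1 (Finset.mem_filter.1 hj').1
      simp only at h
      have h4 : ((r j - 1) * A.n + j) % A.n = ((r j' - 1) * A.n + j') % A.n := by rw [h]
      rwa [Nat.mul_add_mod_self_right, Nat.mul_add_mod_self_right, Nat.mod_eq_of_lt hj1,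
        Nat.mod_eq_of_lt hj2] at h4
    rw [← hJ]
    refine hrow s J (fun κ hκ => ?_)
    obtain ⟨j, hj, rfl⟩ := Finset.mem_image.1 hκ
    obtain ⟨hj1, hj2⟩ := Finset.mem_filter.1 hj
    obtain ⟨h4, h5⟩ := hlast j (by omega)
    refine ⟨h4, h5, ?_⟩
    have h6 : s * A.n ≤ (r j - 1) * A.n := Nat.mul_le_mul_right _ (by omega)
    omega
  -- double counting
  obtain ⟨M, hM1, hM2⟩ : ∃ M, (∀ j ∈ Finset.range A.n, r j ≤ M) ∧ ∀ i, e i ≤ M := by
    refine ⟨max ((Finset.range A.n).sup r) (Finset.univ.sup e), fun j hj => ?_, fun i => ?_⟩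
    · exact (Finset.le_sup hj).trans (le_max_left _ _)
    · exact (Finset.le_sup (Finset.mem_univ i)).trans (le_max_right _ _)
  have hsum1 : ∑ j ∈ Finset.range A.n, r j =
      ∑ s ∈ Finset.range M, ((Finset.range A.n).filter (fun j => s < r j)).card := by
    simp only [Finset.card_filter]
    rw [Finset.sum_comm]
    refine Finset.sum_congr rfl (fun j hj => ?_)
    rw [← Finset.sum_filter, Finset.sum_const, smul_eq_mul, mul_one]
    have : (Finset.range M).filter (fun s => s < r j) = Finset.range (r j) := by
      ext s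
      have := hM1 j hj
      simp only [Finset.mem_filter, Finset.mem_range]
      omega
    rw [this, Finset.card_range]
  have hsum2 : ∑ i, e i = ∑ s ∈ Finset.range M, (Finset.univ.filter (fun i => s < e i)).card := by
    simp only [Finset.card_filter]
    rw [Finset.sum_comm]
    refine Finset.sum_congr rfl (fun i _ => ?_)
    rw [← Finset.sum_filter, Finset.sum_const, smul_eq_mul, mul_one]
    have : (Finset.range M).filter (fun s => s < e i) = Finset.range (e i) := by
      ext s
      have := hM2 i
      simp only [Finset.mem_filter, Finset.mem_range]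
      omega
    rw [this, Finset.card_range]
  rw [hsum2]
  refine hcard.trans ?_
  rw [hsum1]
  exact Finset.sum_le_sum (fun s _ => hrow' s)

/-- The bound when all equations but one are linearly independent at first order. -/
theorem bound_corank [Fintype I] (hI : Fintype.card I = A.n) (i0 : I)
    (hLI : LinearIndependent F (fam (dN A.dF A.n)
      (fun i : {i // i ≠ i0} => gr A.y (A.u i)))) (e : I → ℕ)
    (he : ∀ i, ∀ k ∈ (A.u i).vars, k < (e i + 1) * A.n) :
    A.S.card ≤ ∑ i, e i := by
  classical
  refine A.count_rows e (fun r J hJ => ?_)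
  by_contra hcon
  push Not at hcon
  obtain ⟨B, hB⟩ := Dirs.exists_dirs A (fun κ : {κ // κ ∈ J} => (κ : ℕ)) Subtype.val_injective
    (fun κ => (hJ κ κ.2).1) (fun κ => (hJ κ κ.2).2.1)
  have hb0 : ∀ j, r * A.n ≤ B.κ j := by
    intro j
    rw [hB]
    exact (hJ j j.2).2.2
  let T : Finset I := Finset.univ.filter (fun i => r < e i)
  have hlow : ∀ i, i ∉ T → ∀ k ∈ (A.u i).vars, k < r * A.n + A.n := by
    intro i hi k hk
    have h1 : e i ≤ r := by
      by_contra h
      exact hi (Finset.mem_filter.2 ⟨Finset.mem_univ _, not_le.1 h⟩)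
    have h2 := he i k hk
    have h3 : (e i + 1) * A.n ≤ (r + 1) * A.n := Nat.mul_le_mul_right _ (by omega)
    linarith [add_mul r 1 A.n]
  have hJ' : T.card < Fintype.card {κ // κ ∈ J} := by
    rw [Fintype.card_coe]; exact hcon
  have hind := B.top_indep hI i0 hLI T
    (fun i hi => B.θ_low (r * A.n) hb0 (A.u i) (hlow i hi)) hJ'
  exact B.no_extra (r * A.n) hb0 T hlow hind hJ'

end Sys

end Pool.Agent.JB
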