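import Mathlib
import Pool.Agent.Work.MP_71fd89_ag.JCount
import Pool.Agent.Work.MP_71fd89_ag.JBSys
import Pool.Agent.Work.MP_71fd89_ag.JBMain

/-! # Independence at first order: from the component to the data `Sys` -/

set_option autoImplicit false

namespace Pool.Agent.JB

/-- independence of vectors over a domain is preserved in a larger field -/
theorem transp {R F V V' Θ : Type} [CommRing R] [IsDomain R] [Field F] (j : R →+* F)
    (hj : Function.Injective j) (w : Θ → (V → R)) (hw : LinearIndependent R w) (ι : V → V')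
    (w' : Θ → (V' →₀ F)) (hw' : ∀ p v, w' p (ι v) = j (w p v)) : LinearIndependent F w' := by
  classical
  let Q := FractionRing R
  let jQ : Q →+* F := IsFractionRing.lift hj
  have hjQ : ∀ r : R, jQ (algebraMap R Q r) = j r := fun r => IsFractionRing.lift_algebraMap hj r
  let _ : Algebra Q F := jQ.toAlgebra
  have hsm : ∀ (q : Q) (x : F), q • x = jQ q * x := fun q x => rfl
  let wQ : Θ → (V → Q) := fun p v => algebraMap R Q (w p v)
  have hwQ : LinearIndependent Q wQ := by
    rw [← LinearIndependent.iff_fractionRing R Q]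
    let φ : (V → R) →ₗ[R] (V → Q) := (Algebra.linearMap R Q).compLeft V
    have hφ : LinearMap.ker φ = ⊥ := by
      rw [LinearMap.ker_eq_bot]
      intro a b hab
      funext v
      exact IsFractionRing.injective R Q (congrFun hab v)
    exact hw.map' φ hφ
  rw [linearIndependent_iff]
  intro c hc
  have h1 : ∀ v, ∑ p ∈ c.support, c p * j (w p v) = 0 := by
    intro v
    have h2 := DFunLike.congr_fun hc (ι v)
    rw [Finsupp.linearCombination_apply, Finsupp.sum, Finsupp.finsetSum_apply] at h2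
    rw [Finsupp.coe_zero, Pi.zero_apply] at h2
    rw [← h2]
    refine Finset.sum_congr rfl (fun p _ => ?_)
    rw [Finsupp.smul_apply, hw', smul_eq_mul]
  have h3 : ∀ (ψ : Module.Dual Q F) p, ψ (c p) = 0 := by
    intro ψ
    let cψ : Θ →₀ Q := Finsupp.onFinset c.support (fun p => ψ (c p)) (by
      intro p hp
      rw [Finsupp.mem_support_iff]
      intro h
      apply hp
      rw [h, map_zero])
    have h4 : Finsupp.linearCombination Q wQ cψ = 0 := by
      rw [Finsupp.linearCombination_apply]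
      rw [Finsupp.sum_of_support_subset cψ (s := c.support)
        (Finsupp.support_onFinset_subset) (fun i a => a • wQ i) (fun p _ => zero_smul _ _)]
      funext v
      rw [Finset.sum_apply]
      have h5 : ψ (∑ p ∈ c.support, (algebraMap R Q (w p v)) • (c p)) = 0 := by
        have : ∑ p ∈ c.support, (algebraMap R Q (w p v)) • (c p) = 0 := by
          rw [← h1 v]
          refine Finset.sum_congr rfl (fun p _ => ?_)
          rw [hsm, hjQ, mul_comm]
        rw [this, map_zero]
      rw [map_sum] at h5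
      rw [Pi.zero_apply, ← h5]
      refine Finset.sum_congr rfl (fun p _ => ?_)
      rw [map_smul, smul_eq_mul, Pi.smul_apply, smul_eq_mul, mul_comm]
      rfl
    have h6 := (linearIndependent_iff.1 hwQ) cψ h4
    intro p
    exact DFunLike.congr_fun h6 p
  ext p
  exact (Module.forall_dual_apply_eq_zero_iff Q (c p)).1 (fun ψ => h3 ψ p)

/-- the linearized equations and their derivatives, at `P` -/
noncomputable def lin {K : Type} [Field K] {n : ℕ} (D : Der (MvPolynomial (Fin n × ℕ) K))
    (u : Fin n → MvPolynomial (Fin n × ℕ) K) (P : Ideal (MvPolynomial (Fin n × ℕ) K))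
    (p : Fin n × ℕ) : Fin n × ℕ → MvPolynomial (Fin n × ℕ) K ⧸ P :=
  fun v => Ideal.Quotient.mk P (MvPolynomial.pderiv v ((D^[p.2]) (u p.1)))

/-- transport of independence of linearized equations -/
theorem lin_transp {K F : Type} [Field K] [Field F] [CharZero F] [Algebra K F] {n : ℕ}
    (hn : 0 < n) (D : Der (MvPolynomial (Fin n × ℕ) K)) (u : Fin n → MvPolynomial (Fin n × ℕ) K)
    (P : Ideal (MvPolynomial (Fin n × ℕ) K)) (hP : P.IsPrime) (c : Fin n → ℕ)
    (A : Sys K F (Fin n)) (hAu : ∀ i, A.u i = MvPolynomial.rename (ee c) (u i))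
    (hAD : ∀ p, A.D (MvPolynomial.rename (ee c) p) = MvPolynomial.rename (ee c) (D p))
    (j : (MvPolynomial (Fin n × ℕ) K ⧸ P) →+* F) (hj : Function.Injective j)
    (hy : ∀ p : MvPolynomial (Fin n × ℕ) K, MvPolynomial.aeval A.y (MvPolynomial.rename (ee c) p) =
          j (Ideal.Quotient.mk P p)) (U : Fin n → Prop)
    (hLI : LinearIndependent (MvPolynomial (Fin n × ℕ) K ⧸ P)
      (fun p : {i // U i} × ℕ => lin D u P (p.1, p.2))) :
    LinearIndependent F (fam (dN A.dF A.n) (fun i : {i // U i} => gr A.y (A.u i))) := by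
  have hDk : ∀ (k : ℕ) p, (A.D^[k]) (MvPolynomial.rename (ee c) p) =
      MvPolynomial.rename (ee c) ((D^[k]) p) := by
    intro k
    induction k with
    | zero => intro p; rfl
    | succ k ih => intro p; rw [Function.iterate_succ_apply, hAD, ih, Function.iterate_succ_apply]
  refine transp j hj (fun p : {i // U i} × ℕ => lin D u P (p.1, p.2)) hLI (ee c) _ ?_
  rintro ⟨i, s⟩ v
  change ((dN A.dF A.n)^[s]) (gr A.y (A.u i)) (ee c v) = j (lin D u P (i, s) v)
  rw [← A.gr_Dk, hAu, hDk, gr_apply, MvPolynomial.pderiv_rename (ee_inj hn c), hy]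
  rfl

/-- The bound in terms of potentials, corank one. -/
theorem red_corank {K : Type} [Field K] [CharZero K] {n : ℕ} (d : Der K)
    (D : Der (MvPolynomial (Fin n × ℕ) K))
    (hDC : ∀ c : K, D (MvPolynomial.C c) = MvPolynomial.C (d c))
    (hDX : ∀ (j : Fin n) (s : ℕ), D (MvPolynomial.X (j, s)) = MvPolynomial.X (j, s + 1))
    (u : Fin n → MvPolynomial (Fin n × ℕ) K) (P : Ideal (MvPolynomial (Fin n × ℕ) K))
    (hP : P ∈ (Ideal.span {g : MvPolynomial (Fin n × ℕ) K |
      ∃ (i : Fin n) (k : ℕ), g = (D^[k]) (u i)}).minimalPrimes)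
    (t : ℕ) (ht : Algebra.trdeg K (MvPolynomial (Fin n × ℕ) K ⧸ P) = t) (i0 : Fin n)
    (hLI : LinearIndependent (MvPolynomial (Fin n × ℕ) K ⧸ P)
      (fun p : {i // i ≠ i0} × ℕ => lin D u P (p.1, p.2)))
    (α β : Fin n → ℤ) (hf : ∀ i, ∀ v ∈ (u i).vars, (v.2 : ℤ) ≤ α i + β v.1) :
    (t : ℤ) ≤ ∑ i, α i + ∑ j, β j := by
  classical
  have hn0 : 0 < n := lt_of_le_of_lt (Nat.zero_le _) i0.2
  have hPp : P.IsPrime := hP.1.1
  obtain ⟨B, hB, hB'⟩ : ∃ B : ℤ, (∀ j, β j ≤ B) ∧ ∀ i, - α i ≤ B := by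
    obtain ⟨B, hB⟩ := (Set.finite_range β).bddAbove
    obtain ⟨B', hB'⟩ := (Set.finite_range (fun i => - α i)).bddAbove
    exact ⟨max B B', fun j => (hB ⟨j, rfl⟩).trans (le_max_left _ _),
      fun i => (hB' ⟨i, rfl⟩).trans (le_max_right _ _)⟩
  have hc : ∀ j, (((B - β j).toNat : ℕ) : ℤ) = B - β j := fun j =>
    Int.toNat_of_nonneg (sub_nonneg.2 (hB j))
  have he : ∀ i, (((α i + B).toNat : ℕ) : ℤ) = α i + B := fun i =>
    Int.toNat_of_nonneg (by have := hB' i; linarith)
  obtain ⟨F, hF1, hF2, hF3, A, hAn, hAu, hAD, ⟨j, hj, hjy⟩, t', ht', hcard⟩ :=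
    exists_sys' hn0 d D hDC hDX u P hP
    (by rw [ht]; exact Cardinal.natCast_lt_aleph0) (fun j => (B - β j).toNat)
  have htt : t' = t := by
    rw [ht] at ht'
    exact (Nat.cast_injective ht').symm
  rw [htt] at hcard
  have hLI' := lin_transp hn0 D u P hPp (fun j => (B - β j).toNat) A hAu hAD j hj hjy
    (fun i => i ≠ i0) hLI
  have hvars : ∀ i, ∀ k ∈ (A.u i).vars, k < ((α i + B).toNat + 1) * A.n := by
    intro i k hk
    rw [hAu] at hk
    have h4 := MvPolynomial.vars_rename _ _ hk
    rw [Finset.mem_image] at h4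
    obtain ⟨v, hv, rfl⟩ := h4
    have h5 := hf i v hv
    have h6 : v.2 + (B - β v.1).toNat ≤ (α i + B).toNat := by
      zify
      rw [hc, he]
      linarith
    rw [hAn]
    simp only [ee]
    have h7 : (v.2 + (B - β v.1).toNat) * n ≤ (α i + B).toNat * n := Nat.mul_le_mul_right _ h6
    have h8 := v.1.2
    linarith [add_mul (α i + B).toNat 1 n]
  have hb := A.bound_corank (by rw [Fintype.card_fin, hAn]) i0 hLI'
    (fun i => (α i + B).toNat) hvars
  rw [← hcard] at hb
  have h4 : ((t + ∑ j, (B - β j).toNat : ℕ) : ℤ) ≤ ((∑ i, (α i + B).toNat : ℕ) : ℤ) := by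
    exact_mod_cast hb
  push_cast at h4
  rw [Finset.sum_congr rfl (fun j _ => hc j), Finset.sum_congr rfl (fun i _ => he i),
    Finset.sum_sub_distrib, Finset.sum_add_distrib, Finset.sum_const, Finset.card_univ,
    Fintype.card_fin, nsmul_eq_mul] at h4
  linarith

end Pool.Agent.JB
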