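import Mathlib
import Pool.Agent.Work.MP_71fd89_ag.JBMain

/-! # A bound for every system: the tropical determinant of a modified order matrix -/

set_option autoImplicit false

namespace Pool.Agent.JB

/-- If every feasible pair of potentials bounds `t`, so does the tropical determinant. -/
theorem tdet_of_potentials' {n : ℕ} (V : Fin n → Finset (Fin n × ℕ)) (t : ℕ)
    (h : ∀ α β : Fin n → ℤ, (∀ i, ∀ v ∈ V i, (v.2 : ℤ) ≤ α i + β v.1) →
      (t : ℤ) ≤ ∑ i, α i + ∑ j, β j) :
    ∃ m : ℕ,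
      (Finset.univ.sup (fun ρ : Equiv.Perm (Fin n) =>
          ∑ i : Fin n, (V i).sup
            (fun v => if v.1 = ρ i then (v.2 : WithBot ℕ) else (⊥ : WithBot ℕ)))) =
              (m : WithBot ℕ) ∧ t ≤ m := by
  classical
  obtain ⟨ρ, s, hs, hts⟩ := egervary V t h
  set T := Finset.univ.sup (fun ρ : Equiv.Perm (Fin n) =>
          ∑ i : Fin n, (V i).sup
            (fun v => if v.1 = ρ i then (v.2 : WithBot ℕ) else (⊥ : WithBot ℕ))) with hT
  have h1 : ((∑ i, s i : ℕ) : WithBot ℕ) ≤ T := by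
    have h2 : ((∑ i, s i : ℕ) : WithBot ℕ) ≤ ∑ i : Fin n, (V i).sup
            (fun v => if v.1 = ρ i then (v.2 : WithBot ℕ) else (⊥ : WithBot ℕ)) := by
      rw [Nat.cast_sum]
      refine Finset.sum_le_sum (fun i _ => ?_)
      have h3 := Finset.le_sup
        (f := fun v : Fin n × ℕ => if v.1 = ρ i then (v.2 : WithBot ℕ) else (⊥ : WithBot ℕ))
        (hs i)
      simpa using h3
    exact h2.trans (Finset.le_sup (f := fun ρ : Equiv.Perm (Fin n) =>
          ∑ i : Fin n, (V i).sup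
            (fun v => if v.1 = ρ i then (v.2 : WithBot ℕ) else (⊥ : WithBot ℕ)))
            (Finset.mem_univ ρ))
  have hne : T ≠ ⊥ := by
    intro h0
    rw [h0, le_bot_iff] at h1
    exact WithBot.coe_ne_bot h1
  obtain ⟨m, hm⟩ := WithBot.ne_bot_iff_exists.1 hne
  refine ⟨m, hm.symm, ?_⟩
  rw [← hm] at h1
  have h2 : ∑ i, s i ≤ m := WithBot.coe_le_coe.1 h1
  have h3 : (t : ℤ) ≤ ((∑ i, s i : ℕ) : ℤ) := by
    rw [Nat.cast_sum]; exact hts
  have h4 : t ≤ ∑ i, s i := by exact_mod_cast h3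
  exact h4.trans h2

/-- the variables of the modified system: all variables for the equation `i1`, its own variables for
the equation `i3`, all variables of the equations other than `i1` for the others -/
def allV {n : ℕ} (V : Fin n → Finset (Fin n × ℕ)) (i1 i3 i : Fin n) : Finset (Fin n × ℕ) :=
  if i = i1 then Finset.univ.biUnion V
  else if i = i3 then V i3
  else (Finset.univ.erase i1).biUnion V

theorem red_all {K : Type} [Field K] [CharZero K] {n : ℕ} (hn : 2 ≤ n) (d : Der K)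
    (D : Der (MvPolynomial (Fin n × ℕ) K))
    (hDC : ∀ c : K, D (MvPolynomial.C c) = MvPolynomial.C (d c))
    (hDX : ∀ (j : Fin n) (s : ℕ), D (MvPolynomial.X (j, s)) = MvPolynomial.X (j, s + 1))
    (u : Fin n → MvPolynomial (Fin n × ℕ) K) (P : Ideal (MvPolynomial (Fin n × ℕ) K))
    (hP : P ∈ (Ideal.span {g : MvPolynomial (Fin n × ℕ) K |
      ∃ (i : Fin n) (k : ℕ), g = (D^[k]) (u i)}).minimalPrimes)
    (t : ℕ) (ht : Algebra.trdeg K (MvPolynomial (Fin n × ℕ) K ⧸ P) = t)
    (i1 i3 : Fin n) (h13 : i3 ≠ i1) (hu3 : u i3 ≠ 0) (α β : Fin n → ℤ)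
    (hf : ∀ i, ∀ v ∈ allV (fun i => (u i).vars) i1 i3 i, (v.2 : ℤ) ≤ α i + β v.1) :
    (t : ℤ) ≤ ∑ i, α i + ∑ j, β j := by
  classical
  -- the middle rows
  let s : Finset (Fin n) := (Finset.univ.erase i1).erase i3
  have hscard : s.card = n - 2 := by
    have h1 : i3 ∈ Finset.univ.erase i1 := Finset.mem_erase.2 ⟨h13, Finset.mem_univ _⟩
    rw [Finset.card_erase_of_mem h1, Finset.card_erase_of_mem (Finset.mem_univ _),
      Finset.card_univ, Fintype.card_fin]
    omega
  have hall : ∀ i, ∀ v ∈ (u i).vars, (v.2 : ℤ) ≤ α i1 + β v.1 := by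
    intro i v hv
    apply hf i1 v
    rw [allV, if_pos rfl]
    exact Finset.mem_biUnion.2 ⟨i, Finset.mem_univ _, hv⟩
  have hmid : ∀ i2 ∈ s, ∀ i, i ≠ i1 → ∀ v ∈ (u i).vars, (v.2 : ℤ) ≤ α i2 + β v.1 := by
    intro i2 hi2 i hi v hv
    obtain ⟨h1, h2⟩ := Finset.mem_erase.1 hi2
    have h3 := (Finset.mem_erase.1 h2).1
    apply hf i2 v
    rw [allV, if_neg h3, if_neg h1]
    exact Finset.mem_biUnion.2 ⟨i, Finset.mem_erase.2 ⟨hi, Finset.mem_univ _⟩, hv⟩
  have h3 : ∀ v ∈ (u i3).vars, (v.2 : ℤ) ≤ α i3 + β v.1 := by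
    intro v hv
    apply hf i3 v
    rw [allV, if_neg h13, if_pos rfl]
    exact hv
  -- the value for the middle rows
  obtain ⟨a, ha1, ha2, ha3⟩ : ∃ a : ℤ, a ≤ α i1 ∧ (∀ i, i ≠ i1 → ∀ v ∈ (u i).vars,
      (v.2 : ℤ) ≤ a + β v.1) ∧ ((n : ℤ) - 2) * a ≤ ∑ i ∈ s, α i := by
    rcases s.eq_empty_or_nonempty with hs | hs
    · refine ⟨α i1, le_rfl, fun i _ v hv => hall i v hv, ?_⟩
      rw [hs, Finset.card_empty] at hscard
      have : (n : ℤ) = 2 := by
        have : n = 2 := by omega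
        exact_mod_cast this
      rw [this, hs]; simp
    · obtain ⟨i2, hi2, hmin⟩ := Finset.exists_min_image s α hs
      refine ⟨min (α i2) (α i1), min_le_right _ _, fun i hi v hv => ?_, ?_⟩
      · have g1 := hmid i2 hi2 i hi v hv
        have g2 := hall i v hv
        rcases min_choice (α i2) (α i1) with h | h <;> rw [h] <;> assumption
      · have h4 : (s.card : ℤ) * min (α i2) (α i1) ≤ ∑ i ∈ s, α i := by
          rw [← nsmul_eq_mul]
          exact Finset.card_nsmul_le_sum _ _ _ (fun i hi => (min_le_left _ _).trans (hmin i hi))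
        rw [hscard] at h4
        have h5 : ((n - 2 : ℕ) : ℤ) = (n : ℤ) - 2 := by
          rw [Nat.cast_sub hn]; rfl
        rwa [h5] at h4
  let α' : Fin n → ℤ := fun i => if i = i1 then α i1 else if i = i3 then min (α i3) a else a
  have hα1 : α' i1 = α i1 := by simp [α']
  have hα3 : α' i3 = min (α i3) a := by simp [α', h13]
  have hfe : ∀ i, ∀ v ∈ (u i).vars, (v.2 : ℤ) ≤ α' i + β v.1 := by
    intro i v hv
    by_cases hi : i = i1
    · subst hi
      rw [hα1]
      exact hall _ v hv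
    · by_cases hi3 : i = i3
      · subst hi3
        rw [hα3]
        have g1 := h3 v hv
        have g2 := ha2 _ hi v hv
        rcases min_choice (α i) a with h | h <;> rw [h] <;> assumption
      · have : α' i = a := by simp [α', hi, hi3]
        rw [this]
        exact ha2 i hi v hv
  have hle : ∀ i, i ≠ i1 → α' i ≤ a := by
    intro i hi
    by_cases hi3 : i = i3
    · subst hi3
      rw [hα3]; exact min_le_right _ _
    · have : α' i = a := by simp [α', hi, hi3]
      rw [this]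
  have key := red_bound hn d D hDC hDX u P hP t ht α' β hfe i1 i3 h13 a (α i1) hle ha1
    (by rw [hα1]) hu3
  have hsum : ∑ i, α i = α i1 + (α i3 + ∑ i ∈ s, α i) := by
    rw [← Finset.add_sum_erase _ _ (Finset.mem_univ i1),
      ← Finset.add_sum_erase (Finset.univ.erase i1) _
        (Finset.mem_erase.2 ⟨h13, Finset.mem_univ _⟩)]
  rw [hα3] at key
  have h6 : min (α i3) a ≤ α i3 := min_le_left _ _
  rw [hsum]
  linarith

end Pool.Agent.JB
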