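import Mathlib
import Pool.Agent.Work.MP_71fd89_ag.JTransp

/-! # The bound when small sets of linearized equations are independent -/

set_option autoImplicit false

namespace Pool.Agent.JB

open Algebra

namespace Sys

variable {K F I : Type} [Field K] [Field F] [CharZero F] [Algebra K F] (A : Sys K F I)

/-- last states are determined by their classes -/
lemma last_unique (κ l : ℕ) (hκ : κ ∈ A.S) (hκ' : κ + A.n ∉ A.S) (hl : l ∈ A.S)
    (hl' : l + A.n ∉ A.S) (h : κ % A.n = l % A.n) : κ = l := by
  have hdown : ∀ (s k : ℕ), k + s * A.n ∈ A.S → k ∈ A.S := by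
    intro s
    induction s with
    | zero => intro k hk; simpa using hk
    | succ s ih =>
      intro k hk
      apply ih
      apply A.desc
      have : k + s * A.n + A.n = k + (s + 1) * A.n := by ring
      rw [this]; exact hk
  have key : ∀ a b : ℕ, a ∈ A.S → a + A.n ∉ A.S → b ∈ A.S → a % A.n = b % A.n → ¬ a < b := by
    intro a b _ ha' hb hab hlt
    apply ha'
    have h1 : a / A.n * A.n + a % A.n = a := Nat.div_add_mod' a A.n
    have h2 : b / A.n * A.n + b % A.n = b := Nat.div_add_mod' b A.n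
    have h3 : a / A.n < b / A.n := by
      by_contra hcon
      have h4 : b / A.n * A.n ≤ a / A.n * A.n := Nat.mul_le_mul_right _ (not_lt.1 hcon)
      omega
    obtain ⟨s, hs⟩ : ∃ s, b / A.n = a / A.n + 1 + s := ⟨b / A.n - a / A.n - 1, by omega⟩
    apply hdown s
    have h5 : a + A.n + s * A.n = b := by
      rw [← h1, ← h2, hs, hab]; ring
    rw [h5]; exact hb
  rcases lt_trichotomy κ l with h1 | h1 | h1
  · exact absurd h1 (key κ l hκ hκ' hl h)
  · exact h1
  · exact absurd h1 (key l κ hl hl' hκ h.symm)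

/-- The row inequality at a row where all equations but one or none are of smaller order, or where
all unknowns are free. -/
theorem row_easy [Fintype I] (hI : Fintype.card I = A.n) (hne : ∀ i, A.u i ≠ 0)
    (e : I → ℕ) (he : ∀ i, ∀ k ∈ (A.u i).vars, k < (e i + 1) * A.n) (r : ℕ) (J : Finset ℕ)
    (hJ : ∀ κ ∈ J, κ ∈ A.S ∧ κ + A.n ∉ A.S ∧ r * A.n ≤ κ)
    (hk : (Finset.univ.filter (fun i => r < e i)).card ≤ 1 ∨
      A.n ≤ (Finset.univ.filter (fun i => r < e i)).card + 1) :
    J.card ≤ (Finset.univ.filter (fun i => r < e i)).card := by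
  classical
  set T : Finset I := Finset.univ.filter (fun i => r < e i) with hT
  have hn := A.hn
  have hlow : ∀ i, i ∉ T → ∀ k ∈ (A.u i).vars, k < r * A.n + A.n := by
    intro i hi k hk
    have h1 : e i ≤ r := by
      by_contra h
      exact hi (Finset.mem_filter.2 ⟨Finset.mem_univ _, not_le.1 h⟩)
    have h2 := he i k hk
    have h3 : (e i + 1) * A.n ≤ (r + 1) * A.n := Nat.mul_le_mul_right _ (by omega)
    linarith [add_mul r 1 A.n]
  have hJn : J.card ≤ A.n := by
    have h1 : (J.image (fun κ => κ % A.n)).card = J.card := by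
      refine Finset.card_image_of_injOn ?_
      intro κ hκ l hl h
      exact A.last_unique κ l (hJ κ hκ).1 (hJ κ hκ).2.1 (hJ l hl).1 (hJ l hl).2.1 h
    have h2 : J.image (fun κ => κ % A.n) ⊆ Finset.range A.n := by
      intro x hx
      obtain ⟨κ, _, rfl⟩ := Finset.mem_image.1 hx
      exact Finset.mem_range.2 (Nat.mod_lt _ hn)
    have h3 := Finset.card_le_card h2
    rwa [h1, Finset.card_range] at h3
  by_contra hcon
  push Not at hcon
  rcases hk with hk | hk
  · rcases Nat.lt_or_ge T.card 1 with h0 | h0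
    · -- no equation of larger order
      have hT0 : T = ∅ := Finset.card_eq_zero.1 (by omega)
      obtain ⟨κ, hκ⟩ := Finset.card_pos.1 (lt_of_le_of_lt (Nat.zero_le _) hcon)
      refine A.rowA κ (hJ κ hκ).1 (hJ κ hκ).2.1 (fun i k hk => ?_)
      have h1 := hlow i (by rw [hT0]; exact Finset.notMem_empty i) k hk
      have h2 := (hJ κ hκ).2.2
      omega
    · -- one equation of larger order
      obtain ⟨i1, hi1⟩ := Finset.card_eq_one.1 (le_antisymm hk h0)
      have h2 : 1 < J.card := by omega
      obtain ⟨κ, hκ, l, hl, hne'⟩ := Finset.one_lt_card.1 h2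
      refine A.rowB κ l (hJ κ hκ).1 (hJ κ hκ).2.1 (hJ l hl).1 (hJ l hl).2.1 hne' i1
        (fun i hi k hk => ?_)
      have h1 := hlow i (by rw [hi1, Finset.mem_singleton]; exact hi) k hk
      have h3 := (hJ κ hκ).2.2
      have h4 := (hJ l hl).2.2
      omega
  · -- all columns reach the row `r`, and some equation is of order at most `r`
    have hJn' : J.card = A.n := by omega
    have hTlt : T.card < Fintype.card I := by rw [hI]; omega
    obtain ⟨i3, hi3⟩ : ∃ i, i ∉ T := by
      by_contra h
      push Not at h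
      have : T = Finset.univ := Finset.eq_univ_iff_forall.2 h
      rw [this, Finset.card_univ] at hTlt
      exact lt_irrefl _ hTlt
    have himg : J.image (fun κ => κ % A.n) = Finset.range A.n := by
      refine Finset.eq_of_subset_of_card_le ?_ ?_
      · intro x hx
        obtain ⟨κ, _, rfl⟩ := Finset.mem_image.1 hx
        exact Finset.mem_range.2 (Nat.mod_lt _ hn)
      · rw [Finset.card_range, Finset.card_image_of_injOn, hJn']
        intro κ hκ l hl h
        exact A.last_unique κ l (hJ κ hκ).1 (hJ κ hκ).2.1 (hJ l hl).1 (hJ l hl).2.1 h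
    have hdown : ∀ (s k : ℕ), k + s * A.n ∈ A.S → k ∈ A.S := by
      intro s
      induction s with
      | zero => intro k hk; simpa using hk
      | succ s ih =>
        intro k hk
        apply ih
        apply A.desc
        have : k + s * A.n + A.n = k + (s + 1) * A.n := by ring
        rw [this]; exact hk
    apply hne i3
    have hsupp : ((A.u i3).vars : Set ℕ) ⊆ Set.range (fun k : (A.S : Set ℕ) => (k : ℕ)) := by
      intro k hk
      have hk1 := hlow i3 hi3 k hk
      refine ⟨⟨k, ?_⟩, rfl⟩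
      have h1 : k % A.n ∈ J.image (fun κ => κ % A.n) := by
        rw [himg]; exact Finset.mem_range.2 (Nat.mod_lt _ hn)
      obtain ⟨κ, hκ, hκk⟩ := Finset.mem_image.1 h1
      have h2 := (hJ κ hκ).2.2
      have h3 : k / A.n * A.n + k % A.n = k := Nat.div_add_mod' k A.n
      have h4 : κ / A.n * A.n + κ % A.n = κ := Nat.div_add_mod' κ A.n
      have h5 : k / A.n < r + 1 := Nat.div_lt_of_lt_mul (by
        rw [mul_comm, add_mul, one_mul]; exact hk1)
      have h6 : r ≤ κ / A.n := (Nat.le_div_iff_mul_le hn).2 h2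
      obtain ⟨s, hs⟩ : ∃ s, κ / A.n = k / A.n + s := ⟨κ / A.n - k / A.n, by omega⟩
      apply hdown s
      have h7 : k + s * A.n = κ := by
        rw [← h3, ← h4, hs]
        rw [hκk]; ring
      rw [h7]
      exact (hJ κ hκ).1
    obtain ⟨q, hq⟩ := MvPolynomial.exists_rename_eq_of_vars_subset_range (A.u i3)
      (fun k : (A.S : Set ℕ) => (k : ℕ)) Subtype.val_injective hsupp
    have h4 := A.hu i3
    rw [← hq, MvPolynomial.aeval_rename] at h4
    have h5 : q = 0 := by
      have hinj := A.hS.1
      rw [algebraicIndependent_iff_injective_aeval] at hinj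
      apply hinj
      rw [map_zero]
      exact h4
    rw [← hq, h5, map_zero]

/-- The bound when all sets of at least two and at most `n - 2` linearized equations are
independent. -/
theorem bound_general [Fintype I] (hI : Fintype.card I = A.n) (hne : ∀ i, A.u i ≠ 0)
    (hLI : ∀ U : Finset I, 2 ≤ U.card → U.card + 2 ≤ A.n →
      LinearIndependent F (fam (dN A.dF A.n) (fun i : {i // i ∈ U} => gr A.y (A.u i))))
    (e : I → ℕ) (he : ∀ i, ∀ k ∈ (A.u i).vars, k < (e i + 1) * A.n) :
    A.S.card ≤ ∑ i, e i := by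
  classical
  refine A.count_rows e (fun r J hJ => ?_)
  by_cases hk : (Finset.univ.filter (fun i => r < e i)).card ≤ 1 ∨
      A.n ≤ (Finset.univ.filter (fun i => r < e i)).card + 1
  · exact A.row_easy hI hne e he r J hJ hk
  · push Not at hk
    set T : Finset I := Finset.univ.filter (fun i => r < e i) with hT
    obtain ⟨B, hB⟩ := Dirs.exists_dirs A (fun κ : {κ // κ ∈ J} => (κ : ℕ)) Subtype.val_injective
      (fun κ => (hJ κ κ.2).1) (fun κ => (hJ κ κ.2).2.1)
    have hb0 : ∀ j, r * A.n ≤ B.κ j := by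
      intro j
      rw [hB]
      exact (hJ j j.2).2.2
    have hlow : ∀ i, i ∉ T → ∀ k ∈ (A.u i).vars, k < r * A.n + A.n := by
      intro i hi k hk
      have h1 : e i ≤ r := by
        by_contra h
        exact hi (Finset.mem_filter.2 ⟨Finset.mem_univ _, not_le.1 h⟩)
      have h2 := he i k hk
      have h3 : (e i + 1) * A.n ≤ (r + 1) * A.n := Nat.mul_le_mul_right _ (by omega)
      linarith [add_mul r 1 A.n]
    have hTle : T.card ≤ A.n := by rw [← hI]; exact Finset.card_le_univ T
    have h1 := B.count_low Tᶜ (hLI Tᶜ (by rw [Finset.card_compl, hI]; omega)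
      (by rw [Finset.card_compl, hI]; omega))
      (fun i hi => B.θ_low (r * A.n) hb0 (A.u i) (hlow i (Finset.mem_compl.1 hi)))
    rw [Finset.card_compl, hI, Fintype.card_coe] at h1
    omega

end Sys

/-- The bound in terms of potentials, all small sets of linearized equations independent. -/
theorem red_general {K : Type} [Field K] [CharZero K] {n : ℕ} (hn0 : 0 < n) (d : Der K)
    (D : Der (MvPolynomial (Fin n × ℕ) K))
    (hDC : ∀ c : K, D (MvPolynomial.C c) = MvPolynomial.C (d c))
    (hDX : ∀ (j : Fin n) (s : ℕ), D (MvPolynomial.X (j, s)) = MvPolynomial.X (j, s + 1))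
    (u : Fin n → MvPolynomial (Fin n × ℕ) K) (P : Ideal (MvPolynomial (Fin n × ℕ) K))
    (hP : P ∈ (Ideal.span {g : MvPolynomial (Fin n × ℕ) K |
      ∃ (i : Fin n) (k : ℕ), g = (D^[k]) (u i)}).minimalPrimes)
    (t : ℕ) (ht : Algebra.trdeg K (MvPolynomial (Fin n × ℕ) K ⧸ P) = t) (hu : ∀ i, u i ≠ 0)
    (hLI : ∀ U : Finset (Fin n), 2 ≤ U.card → U.card + 2 ≤ n →
      LinearIndependent (MvPolynomial (Fin n × ℕ) K ⧸ P)
      (fun p : {i // i ∈ U} × ℕ => lin D u P (p.1, p.2)))
    (α β : Fin n → ℤ) (hf : ∀ i, ∀ v ∈ (u i).vars, (v.2 : ℤ) ≤ α i + β v.1) :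
    (t : ℤ) ≤ ∑ i, α i + ∑ j, β j := by
  classical
  have hPp : P.IsPrime := hP.1.1
  obtain ⟨B, hB, hB'⟩ : ∃ B : ℤ, (∀ j, β j ≤ B) ∧ ∀ i, - α i ≤ B := by
    obtain ⟨B, hB⟩ := (Set.finite_range β).bddAbove
    obtain ⟨B', hB'⟩ := (Set.finite_range (fun i => - α i)).bddAbove
    exact ⟨max B B', fun j => (hB ⟨j, rfl⟩).trans (le_max_left _ _),
      fun i => (hB' ⟨i, rfl⟩).trans (le_max_right _ _)⟩
  have hc : ∀ j, (((B - β j).toNat : ℕ) : ℤ) = B - β j := fun j =>
    Int.toNat_of_nonneg (sub_nonneg.2 (hB j))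
  have he : ∀ i, (((α i + B).toNat : ℕ) : ℤ) = α i + B := fun i =>
    Int.toNat_of_nonneg (by have := hB' i; linarith)
  obtain ⟨F, hF1, hF2, hF3, A, hAn, hAu, hAD, ⟨j, hj, hjy⟩, t', ht', hcard⟩ :=
    exists_sys' hn0 d D hDC hDX u P hP
    (by rw [ht]; exact Cardinal.natCast_lt_aleph0) (fun j => (B - β j).toNat)
  have htt : t' = t := by
    rw [ht] at ht'
    exact (Nat.cast_injective ht').symm
  rw [htt] at hcard
  have hLI' : ∀ U : Finset (Fin n), 2 ≤ U.card → U.card + 2 ≤ A.n →
      LinearIndependent F (fam (dN A.dF A.n) (fun i : {i // i ∈ U} => gr A.y (A.u i))) := by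
    intro U hU1 hU2
    rw [hAn] at hU2
    exact lin_transp hn0 D u P hPp (fun j => (B - β j).toNat) A hAu hAD j hj hjy
      (fun i => i ∈ U) (hLI U hU1 hU2)
  have hvars : ∀ i, ∀ k ∈ (A.u i).vars, k < ((α i + B).toNat + 1) * A.n := by
    intro i k hk
    rw [hAu] at hk
    have h4 := MvPolynomial.vars_rename _ _ hk
    rw [Finset.mem_image] at h4
    obtain ⟨v, hv, rfl⟩ := h4
    have h5 := hf i v hv
    have h6 : v.2 + (B - β v.1).toNat ≤ (α i + B).toNat := by
      zify
      rw [hc, he]
      linarith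
    rw [hAn]
    simp only [ee]
    have h7 : (v.2 + (B - β v.1).toNat) * n ≤ (α i + B).toNat * n := Nat.mul_le_mul_right _ h6
    have h8 := v.1.2
    linarith [add_mul (α i + B).toNat 1 n]
  have hune : ∀ i, A.u i ≠ 0 := by
    intro i
    rw [hAu]
    intro h0
    exact hu i ((MvPolynomial.rename_injective _ (ee_inj hn0 _)) (h0.trans (map_zero _).symm))
  have hb := A.bound_general (by rw [Fintype.card_fin, hAn]) hune hLI'
    (fun i => (α i + B).toNat) hvars
  rw [← hcard] at hb
  have h4 : ((t + ∑ j, (B - β j).toNat : ℕ) : ℤ) ≤ ((∑ i, (α i + B).toNat : ℕ) : ℤ) := by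
    exact_mod_cast hb
  push_cast at h4
  rw [Finset.sum_congr rfl (fun j _ => hc j), Finset.sum_congr rfl (fun i _ => he i),
    Finset.sum_sub_distrib, Finset.sum_add_distrib, Finset.sum_const, Finset.card_univ,
    Fintype.card_fin, nsmul_eq_mul] at h4
  linarith

end Pool.Agent.JB
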